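import Pool.Agent.Helper17.TU.Turn

set_option autoImplicit false

/-!
Deep turns: the length of a run in which the operations are in `t` pieces without pops or without
pushes.
-/

namespace Pool.Agent.Helper17.TV

open Pool.Agent.Helper17.SL Pool.Agent.Helper17.TU

variable {S Γ : Type} (ua : S → TAct S Γ)

private theorem dt2_nopush (c0 : S × List Γ) (j : ℕ)
    (h : (ua (urun ua c0 j).1).kind ≠ some true) :
    (urun ua c0 (j + 1)).2.length ≤ (urun ua c0 j).2.length ∧
      ((ua (urun ua c0 j).1).kind = some false →
        (urun ua c0 (j + 1)).2.length = (urun ua c0 j).2.length - 1) := by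
  rw [urun]
  cases hu : ua (urun ua c0 j).1 with
  | stay s' => exact ⟨le_rfl, fun h => by cases h⟩
  | push s' y =>
    exfalso
    apply h
    rw [hu]
    rfl
  | pop k =>
    simp [TAct.app]

private theorem dt2_anti (c0 : S × List Γ) (a b : ℕ)
    (hnp : ∀ j, a ≤ j → j < b → (ua (urun ua c0 j).1).kind ≠ some true) (j : ℕ)
    (haj : a ≤ j) (hjb : j ≤ b) : (urun ua c0 j).2.length ≤ (urun ua c0 a).2.length :=
  trn6_anti (fun j => (urun ua c0 j).2.length) a b
    (fun j h1 h2 => (dt2_nopush ua c0 j (hnp j h1 h2)).1) j haj hjb

private theorem dt2_det (c0 : S × List Γ) (i i' : ℕ) (he : urun ua c0 i = urun ua c0 i') (n : ℕ) :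
    urun ua c0 (i + n) = urun ua c0 (i' + n) := by
  induction n with
  | zero => exact he
  | succ n ih =>
    rw [← Nat.add_assoc, ← Nat.add_assoc, urun, urun, ih]

private theorem dt2_empty [Fintype S] (c0 : S × List Γ) (H : S → Prop) (J a b : ℕ) (hab : a ≤ b)
    (hbJ : b ≤ J) (hJ : H (urun ua c0 J).1) (hJ' : ∀ j < J, ¬ H (urun ua c0 j).1)
    (he : (urun ua c0 a).2.length = 0)
    (hnp : ∀ j, a ≤ j → j < b → (ua (urun ua c0 j).1).kind ≠ some true) :
    b - a + 1 ≤ Fintype.card S := by
  by_contra hcon
  rw [not_le] at hcon
  have hcard : Fintype.card S < Fintype.card (Fin (b - a + 1)) := by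
    rw [Fintype.card_fin]
    exact hcon
  obtain ⟨x, y, hxy, he'⟩ := Fintype.exists_ne_map_eq_of_card_lt
    (fun i : Fin (b - a + 1) => (urun ua c0 (a + i)).1) hcard
  have key : ∀ i i' : ℕ, a ≤ i → i < i' → i' ≤ b →
      (urun ua c0 i).1 = (urun ua c0 i').1 → False := by
    intro i i' hi hii hib heq
    have h1 := dt2_anti ua c0 a b hnp i hi (by omega)
    have h2 := dt2_anti ua c0 a b hnp i' (by omega) hib
    have h3 : (urun ua c0 i).2 = [] := List.length_eq_zero_iff.mp (by omega)
    have h4 : (urun ua c0 i').2 = [] := List.length_eq_zero_iff.mp (by omega)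
    have h5 : urun ua c0 i = urun ua c0 i' := Prod.ext heq (by rw [h3, h4])
    have h6 := dt2_det ua c0 i i' h5 (J - i')
    rw [Nat.add_sub_cancel' (by omega : i' ≤ J)] at h6
    apply hJ' (i + (J - i')) (by omega)
    rw [h6]
    exact hJ
  have hx := x.isLt
  have hy := y.isLt
  have hne : (x : ℕ) ≠ y := fun h => hxy (Fin.ext h)
  rcases Nat.lt_or_ge (x : ℕ) y with h | h
  · exact key (a + x) (a + y) (by omega) (by omega) (by omega) he'
  · exact key (a + y) (a + x) (by omega) (by omega) (by omega) he'.symm

/-- Piece DT-2. A piece without pushes. Between two pops which shorten the stack at most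
`card S` steps are made: as long as the stack does not become shorter, either there is no pop
(`popfree_bound`), or the stack is empty from a pop on (a pop which does not shorten the stack is
made on the empty stack, and there are no pushes), so that a repetition of the control (with the
empty stack, or in a segment without pops) gives an infinite run without a state of `H`. -/
theorem nopush_bound [Fintype S] (c0 : S × List Γ) (H : S → Prop) (J a b : ℕ) (hab : a ≤ b)
    (hbJ : b ≤ J) (hJ : H (urun ua c0 J).1) (hJ' : ∀ j < J, ¬ H (urun ua c0 j).1)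
    (hnp : ∀ j, a ≤ j → j < b → (ua (urun ua c0 j).1).kind ≠ some true) :
    b - a ≤ ((urun ua c0 a).2.length + 2) * Fintype.card S := by
  classical
  induction hw : (urun ua c0 a).2.length using Nat.strong_induction_on generalizing a with
  | _ w ih =>
    by_cases hex : ∃ j, a ≤ j ∧ j < b ∧ (ua (urun ua c0 j).1).kind = some false
    · obtain ⟨h1, h2, h3⟩ := Nat.find_spec hex
      have hmin := fun m (hm : m < Nat.find hex) => Nat.find_min hex hm
      generalize Nat.find hex = j at h1 h2 h3 hmin
      have h4 := popfree_bound ua c0 H J a j h1 (by omega) hJ hJ' (fun m hm hmj hk =>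
        hmin m hmj ⟨hm, by omega, hk⟩)
      have h5 := (dt2_nopush ua c0 j (hnp j h1 h2)).2 h3
      have h6 := dt2_anti ua c0 a b hnp j h1 h2.le
      rcases Nat.eq_zero_or_pos (urun ua c0 j).2.length with h7 | h7
      · have h8 := dt2_empty ua c0 H J (j + 1) b (by omega) hbJ hJ hJ' (by omega)
          (fun m hm hmb => hnp m (by omega) hmb)
        have h9 : 2 * Fintype.card S ≤ (w + 2) * Fintype.card S :=
          Nat.mul_le_mul_right _ (by omega)
        omega
      · have h8 := ih (urun ua c0 (j + 1)).2.length (by omega) (j + 1) (by omega)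
          (fun m hm hmb => hnp m (by omega) hmb) rfl
        have h9 : ((urun ua c0 (j + 1)).2.length + 2) * Fintype.card S ≤
            (w + 1) * Fintype.card S := Nat.mul_le_mul_right _ (by omega)
        have h10 : (w + 2) * Fintype.card S = (w + 1) * Fintype.card S + Fintype.card S := by
          rw [← Nat.succ_mul]
        omega
    · have h4 := popfree_bound ua c0 H J a b hab hbJ hJ hJ' (fun m hm hmj hk =>
        hex ⟨m, hm, hmj, hk⟩)
      have h9 : 1 * Fintype.card S ≤ (w + 2) * Fintype.card S :=
        Nat.mul_le_mul_right _ (by omega)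
      omega

/-- Piece DT-2. Compare `TU.length_bound`: in a piece without pops at most `card S` steps are made
and the stack grows by at most `card S`; in a piece without pushes the stack does not grow. -/
theorem length_bound2 [Fintype S] (s0 : S) (H : S → Prop) (J t : ℕ)
    (hJ : H (urun ua (s0, []) J).1) (hJ' : ∀ j < J, ¬ H (urun ua (s0, []) j).1)
    (σ : ℕ → ℕ) (h0 : σ 0 = 0) (hmono : Monotone σ) (ht : σ t = J)
    (hpc : ∀ i < t,
      (∀ j, σ i ≤ j → j < σ (i + 1) → (ua (urun ua (s0, []) j).1).kind ≠ some false) ∨
      (∀ j, σ i ≤ j → j < σ (i + 1) → (ua (urun ua (s0, []) j).1).kind ≠ some true)) :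
    J ≤ t * ((t * Fintype.card S + 2) * Fintype.card S) := by
  have hσ : ∀ i ≤ t, σ i ≤ J := fun i hi => by
    rw [← ht]
    exact hmono hi
  have hgrow : ∀ a n, (urun ua (s0, []) (a + n)).2.length ≤
      (urun ua (s0, []) a).2.length + n := by
    intro a n
    induction n with
    | zero => exact le_rfl
    | succ n ih =>
      rw [← Nat.add_assoc, urun]
      have h2 := app_length_le (ua (urun ua (s0, []) (a + n)).1) (urun ua (s0, []) (a + n)).2
      omega
  have key : ∀ i, i ≤ t → (urun ua (s0, []) (σ i)).2.length ≤ i * Fintype.card S ∧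
      σ i ≤ i * ((t * Fintype.card S + 2) * Fintype.card S) := by
    intro i
    induction i with
    | zero =>
      intro _
      rw [h0]
      simp [urun]
    | succ i ih =>
      intro hi
      obtain ⟨h1, h2⟩ := ih (by omega)
      have hm : σ i ≤ σ (i + 1) := hmono (Nat.le_succ i)
      have hJi := hσ (i + 1) hi
      rcases hpc i (by omega) with hup | hdn
      · have h3 := popfree_bound ua (s0, []) H J (σ i) (σ (i + 1)) hm hJi hJ hJ' hup
        have h6 := hgrow (σ i) (σ (i + 1) - σ i)
        rw [Nat.add_sub_cancel' hm] at h6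
        have h8 : Fintype.card S ≤ (t * Fintype.card S + 2) * Fintype.card S :=
          Nat.le_mul_of_pos_left _ (Nat.succ_pos _)
        constructor
        · rw [Nat.succ_mul]
          omega
        · rw [Nat.succ_mul]
          omega
      · have h3 := nopush_bound ua (s0, []) H J (σ i) (σ (i + 1)) hm hJi hJ hJ' hdn
        have h4 := dt2_anti ua (s0, []) (σ i) (σ (i + 1)) hdn (σ (i + 1)) hm le_rfl
        have h5 : i * Fintype.card S ≤ t * Fintype.card S :=
          Nat.mul_le_mul_right _ (by omega)
        have h6 : ((urun ua (s0, []) (σ i)).2.length + 2) * Fintype.card S ≤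
            (t * Fintype.card S + 2) * Fintype.card S :=
          Nat.mul_le_mul_right _ (by omega)
        constructor
        · rw [Nat.succ_mul]
          omega
        · rw [Nat.succ_mul]
          omega
  have := (key t le_rfl).2
  rw [ht] at this
  exact this

end Pool.Agent.Helper17.TV
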