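import Pool.Agent.Helper17.TV.Buf

set_option autoImplicit false

/-!
Deep turns: a piece which is monotone up to `h < W` gives at most two pieces of real operations.
-/

namespace Pool.Agent.Helper17.TV

open Pool.Agent.Helper17.SL Pool.Agent.Helper17.TU

variable {S Γ : Type}

private theorem dt3_gen (K : ℕ → Option Bool) (x y : Bool) (hxy : x ≠ y) (a b : ℕ) (hab : a ≤ b)
    (hbad : ∀ q p, a ≤ q → q < p → p < b → K q = some x → K p = some y →
      (∀ j, q < j → j < p → K j = none) → False) :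
    ∃ m, a ≤ m ∧ m ≤ b ∧ (∀ j, a ≤ j → j < m → K j ≠ some x) ∧
      (∀ j, m ≤ j → j < b → K j ≠ some y) := by
  classical
  by_cases h : ∃ j, a ≤ j ∧ j < b ∧ K j = some x
  · refine ⟨Nat.find h, (Nat.find_spec h).1, (Nat.find_spec h).2.1.le, ?_, ?_⟩
    · intro j h1 h2 h3
      exact Nat.find_min h h2 ⟨h1, h2.trans (Nat.find_spec h).2.1, h3⟩
    · -- the first step of kind y after the first one of kind x
      intro j h1 h2 h3
      have hm := Nat.find_spec h
      set m := Nat.find h with hmdef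
      have hex : ∃ p, m ≤ p ∧ p < b ∧ K p = some y := ⟨j, h1, h2, h3⟩
      have hp := Nat.find_spec hex
      have hpm := fun {i : ℕ} (hi : i < Nat.find hex) => Nat.find_min hex hi
      set p := Nat.find hex with hpdef
      have hmp : m < p := by
        rcases Nat.lt_or_ge m p with h4 | h4
        · exact h4
        · have h5 : m = p := le_antisymm hp.1 h4
          have h6 := hm.2.2
          rw [h5, hp.2.2] at h6
          exact absurd (Option.some.inj h6).symm hxy
      -- the last step of kind x before p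
      have hlast : ∀ d, m + d < p → (∃ q, m ≤ q ∧ q ≤ m + d ∧ K q = some x ∧
          ∀ i, q < i → i ≤ m + d → K i = none) := by
        intro d
        induction d with
        | zero =>
          intro _
          exact ⟨m, le_rfl, le_rfl, hm.2.2, fun i h4 h5 => absurd h5 (by omega)⟩
        | succ d ih =>
          intro hd
          obtain ⟨q, h4, h5, h6, h7⟩ := ih (by omega)
          cases hK : K (m + (d + 1)) with
          | none =>
            refine ⟨q, h4, by omega, h6, fun i h8 h9 => ?_⟩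
            rcases Nat.eq_or_lt_of_le h9 with h10 | h10
            · rw [h10]
              exact hK
            · exact h7 i h8 (by omega)
          | some z =>
            have hz : z = x := by
              by_contra hz
              have hzy : z = y := by
                cases z <;> cases x <;> cases y <;> simp_all
              exact hpm hd ⟨by omega, hd.trans hp.2.1, by rw [hK, hzy]⟩
            refine ⟨m + (d + 1), by omega, le_rfl, by rw [hK, hz], fun i h8 h9 => absurd h9 (by omega)⟩
      obtain ⟨q, h4, h5, h6, h7⟩ := hlast (p - m - 1) (by omega)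
      exact hbad q p (hm.1.trans h4) (by omega) hp.2.1 h6 hp.2.2
        (fun i h8 h9 => h7 i h8 (by omega))
  · refine ⟨b, hab, le_rfl, ?_, ?_⟩
    · intro j h1 h2 h3
      exact h ⟨j, h1, h2, h3⟩
    · intro j h1 h2
      exact absurd h2 (by omega)

private theorem dt3_stay (ua : S → TAct S Γ) (W : ℕ) (c0 : BCtl S Γ W × List Γ) (q : ℕ) :
    ∀ d, (∀ i, q < i → i ≤ q + d → (bact ua W (urun (bact ua W) c0 i).1).kind = none) →
      (urun (bact ua W) c0 (q + d + 1)).2 = (urun (bact ua W) c0 (q + 1)).2 := by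
  intro d
  induction d with
  | zero =>
    intro _
    rfl
  | succ d ih =>
    intro hd
    have h1 := ih fun i h2 h3 => hd i h2 (by omega)
    have h2 := hd (q + (d + 1)) (by omega) le_rfl
    have h3 := bact_stay ua W (urun (bact ua W) c0 (q + (d + 1))) h2
    rw [← h1]
    exact h3

private theorem dt3_len (ua : S → TAct S Γ) (W : ℕ) (s0 : S) (j : ℕ) :
    (urun ua (s0, []) j).2.length =
      (urun (bact ua W) ((s0, ⟨[], Nat.zero_le _⟩), []) j).1.2.1.length +
      (urun (bact ua W) ((s0, ⟨[], Nat.zero_le _⟩), []) j).2.length := by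
  rw [← (brun ua W s0 j).2, List.length_append]

/-- Piece DT-3. In `[a, b]` the stack of `ua` does not fall by more than `h < W`: after a real push
there is no real pop (take the last real push before the first real pop after it: the buffer is
full after the push, empty before the pop, and the real stack is the same, so the stack of `ua`
has fallen by `W`). -/
theorem noise_up (ua : S → TAct S Γ) {W h : ℕ} (hW : h < W) (s0 : S) (a b : ℕ) (hab : a ≤ b)
    (hn : ∀ j j', a ≤ j → j ≤ j' → j' ≤ b →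
      (urun ua (s0, []) j).2.length ≤ (urun ua (s0, []) j').2.length + h) :
    ∃ m, a ≤ m ∧ m ≤ b ∧
      (∀ j, a ≤ j → j < m → (bact ua W (urun (bact ua W)
        ((s0, ⟨[], Nat.zero_le _⟩), []) j).1).kind ≠ some true) ∧
      (∀ j, m ≤ j → j < b → (bact ua W (urun (bact ua W)
        ((s0, ⟨[], Nat.zero_le _⟩), []) j).1).kind ≠ some false) := by
  refine dt3_gen (fun j => (bact ua W (urun (bact ua W)
        ((s0, ⟨[], Nat.zero_le _⟩), []) j).1).kind) true false (by decide) a b hab ?_
  intro q p hq hqp hp hKq hKp hno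
  have h1 := bact_push ua W _ hKq
  have h2 := bact_pop ua W _ hKp
  have h3 := dt3_stay ua W ((s0, ⟨[], Nat.zero_le _⟩), []) q (p - q - 1)
    (fun i h4 h5 => hno i h4 (by omega))
  have h4 : q + (p - q - 1) + 1 = p := by omega
  rw [h4] at h3
  have h5 := hn (q + 1) p (by omega) (by omega) hp.le
  rw [dt3_len ua W s0 (q + 1), dt3_len ua W s0 p, h3] at h5
  have h6 : (urun (bact ua W) ((s0, ⟨[], Nat.zero_le _⟩), []) p).1.2.1.length = 0 := by
    rw [h2.1]
    rfl
  have h7 : (urun (bact ua W) ((s0, ⟨[], Nat.zero_le _⟩), []) (q + 1)).1.2.1.length = W := h1.2.1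
  omega

/-- Piece DT-3. The same for a piece in which the stack does not rise by more than `h`. -/
theorem noise_down (ua : S → TAct S Γ) {W h : ℕ} (hW : h < W) (s0 : S) (a b : ℕ) (hab : a ≤ b)
    (hn : ∀ j j', a ≤ j → j ≤ j' → j' ≤ b →
      (urun ua (s0, []) j').2.length ≤ (urun ua (s0, []) j).2.length + h) :
    ∃ m, a ≤ m ∧ m ≤ b ∧
      (∀ j, a ≤ j → j < m → (bact ua W (urun (bact ua W)
        ((s0, ⟨[], Nat.zero_le _⟩), []) j).1).kind ≠ some false) ∧
      (∀ j, m ≤ j → j < b → (bact ua W (urun (bact ua W)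
        ((s0, ⟨[], Nat.zero_le _⟩), []) j).1).kind ≠ some true) := by
  refine dt3_gen (fun j => (bact ua W (urun (bact ua W)
        ((s0, ⟨[], Nat.zero_le _⟩), []) j).1).kind) false true (by decide) a b hab ?_
  intro q p hq hqp hp hKq hKp hno
  have h1 := bact_push ua W _ hKp
  have h2 := bact_pop ua W _ hKq
  have h3 := dt3_stay ua W ((s0, ⟨[], Nat.zero_le _⟩), []) q (p - q - 1)
    (fun i h4 h5 => hno i h4 (by omega))
  have h4 : q + (p - q - 1) + 1 = p := by omega
  rw [h4] at h3
  have h5 := hn (q + 1) p (by omega) (by omega) hp.le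
  rw [dt3_len ua W s0 (q + 1), dt3_len ua W s0 p, h3] at h5
  have h6 : (urun (bact ua W) ((s0, ⟨[], Nat.zero_le _⟩), []) (q + 1)).1.2.1.length = 0 := by
    have h8 : (urun (bact ua W) ((s0, ⟨[], Nat.zero_le _⟩), []) (q + 1)).1.2.1 = [] := h2.2.1
    rw [h8]
    rfl
  have h7 : (urun (bact ua W) ((s0, ⟨[], Nat.zero_le _⟩), []) p).1.2.1.length = W := h1.1
  omega

/-- Piece DT-3. All pieces together: `ρ (2 i) = σ i`. -/
theorem noise_pieces (ua : S → TAct S Γ) {W h : ℕ} (hW : h < W) (s0 : S) (σ : ℕ → ℕ) (t : ℕ)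
    (h0 : σ 0 = 0) (hmono : Monotone σ)
    (hpc : ∀ i < t,
      (∀ j j', σ i ≤ j → j ≤ j' → j' ≤ σ (i + 1) →
        (urun ua (s0, []) j).2.length ≤ (urun ua (s0, []) j').2.length + h) ∨
      (∀ j j', σ i ≤ j → j ≤ j' → j' ≤ σ (i + 1) →
        (urun ua (s0, []) j').2.length ≤ (urun ua (s0, []) j).2.length + h)) :
    ∃ ρ : ℕ → ℕ, ρ 0 = 0 ∧ Monotone ρ ∧ ρ (2 * t) = σ t ∧ ∀ i < 2 * t,
      (∀ j, ρ i ≤ j → j < ρ (i + 1) → (bact ua W (urun (bact ua W)
        ((s0, ⟨[], Nat.zero_le _⟩), []) j).1).kind ≠ some false) ∨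
      (∀ j, ρ i ≤ j → j < ρ (i + 1) → (bact ua W (urun (bact ua W)
        ((s0, ⟨[], Nat.zero_le _⟩), []) j).1).kind ≠ some true) := by
  classical
  have hm : ∀ i, ∃ m, σ i ≤ m ∧ m ≤ σ (i + 1) ∧ (i < t →
      ((∀ j, σ i ≤ j → j < m → (bact ua W (urun (bact ua W)
          ((s0, ⟨[], Nat.zero_le _⟩), []) j).1).kind ≠ some false) ∨
        (∀ j, σ i ≤ j → j < m → (bact ua W (urun (bact ua W)
          ((s0, ⟨[], Nat.zero_le _⟩), []) j).1).kind ≠ some true)) ∧
      ((∀ j, m ≤ j → j < σ (i + 1) → (bact ua W (urun (bact ua W)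
          ((s0, ⟨[], Nat.zero_le _⟩), []) j).1).kind ≠ some false) ∨
        (∀ j, m ≤ j → j < σ (i + 1) → (bact ua W (urun (bact ua W)
          ((s0, ⟨[], Nat.zero_le _⟩), []) j).1).kind ≠ some true))) := by
    intro i
    by_cases hi : i < t
    · rcases hpc i hi with h1 | h1
      · obtain ⟨m, h2, h3, h4, h5⟩ := noise_up ua hW s0 (σ i) (σ (i + 1))
          (hmono (Nat.le_succ i)) h1
        exact ⟨m, h2, h3, fun _ => ⟨Or.inr h4, Or.inl h5⟩⟩
      · obtain ⟨m, h2, h3, h4, h5⟩ := noise_down ua hW s0 (σ i) (σ (i + 1))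
          (hmono (Nat.le_succ i)) h1
        exact ⟨m, h2, h3, fun _ => ⟨Or.inl h4, Or.inr h5⟩⟩
    · exact ⟨σ i, le_rfl, hmono (Nat.le_succ i), fun h => absurd h hi⟩
  choose m hm1 hm2 hm3 using hm
  have he : ∀ i, (if 2 * i % 2 = 0 then σ (2 * i / 2) else m (2 * i / 2)) = σ i := by
    intro i
    rw [if_pos (by omega), show 2 * i / 2 = i by omega]
  have ho : ∀ i, (if (2 * i + 1) % 2 = 0 then σ ((2 * i + 1) / 2) else m ((2 * i + 1) / 2))
      = m i := by
    intro i
    rw [if_neg (by omega), show (2 * i + 1) / 2 = i by omega]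
  have hee : ∀ i, (if (2 * i + 1 + 1) % 2 = 0 then σ ((2 * i + 1 + 1) / 2)
      else m ((2 * i + 1 + 1) / 2)) = σ (i + 1) := by
    intro i
    rw [if_pos (by omega), show (2 * i + 1 + 1) / 2 = i + 1 by omega]
  refine ⟨fun n => if n % 2 = 0 then σ (n / 2) else m (n / 2), ?_, ?_, he t, ?_⟩
  · exact h0
  · refine monotone_nat_of_le_succ fun n => ?_
    rcases Nat.even_or_odd' n with ⟨i, rfl | rfl⟩
    · change (if 2 * i % 2 = 0 then σ (2 * i / 2) else m (2 * i / 2)) ≤
        (if (2 * i + 1) % 2 = 0 then σ ((2 * i + 1) / 2) else m ((2 * i + 1) / 2))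
      rw [he, ho]
      exact hm1 i
    · change (if (2 * i + 1) % 2 = 0 then σ ((2 * i + 1) / 2) else m ((2 * i + 1) / 2)) ≤
        (if (2 * i + 1 + 1) % 2 = 0 then σ ((2 * i + 1 + 1) / 2) else m ((2 * i + 1 + 1) / 2))
      rw [hee, ho]
      exact hm2 i
  · intro n hn
    rcases Nat.even_or_odd' n with ⟨i, rfl | rfl⟩
    · simp only [he, ho]
      exact (hm3 i (by omega)).1
    · simp only [hee, ho]
      exact (hm3 i (by omega)).2

end Pool.Agent.Helper17.TV
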