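import Pool.Agent.Helper17.TV.UNoise
import Pool.Agent.Helper17.TV.Noise
import Pool.Agent.Helper17.TV.LB

set_option autoImplicit false

/-!
Deep turns: completeness and soundness of the timed buffered machine.
-/

namespace Pool.Agent.Helper17.TV

open Pool.Agent.Helper17.SL Pool.Agent.Helper17.TU

variable {α Q Γ : Type} {k n R W : ℕ}

/-- Initial control of the buffered machine. -/
def binit (Γ : Type) (k n R W : ℕ) (q₀ : Q) : BCtl (UCtl Q Γ k n R) Γ W :=
  (uinit Γ k n R q₀, ⟨[], Nat.zero_le _⟩)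

/-- Piece DT-5. Completeness (compare `TU.turn_complete`): `J = usig T` for the first time `T` with
a state of `F`, `σ i = usig (min (τ i) T)`, pieces by `u_noise`, `noise_pieces`, length by
`length_bound2` for the machine `bact (uact δ F w) W` and `H s = (F s.1.1 = true ∧ pending word
empty)` (`brun` gives the control), then `sched_blocks`, `tact_run`; from `J` on the run of the
buffered machine is constant (its action is `stay` at a state of `H`). -/
theorem deep_complete (δ : PDTrans α Q Γ k) (q₀ : Q) (F : Q → Bool) (w : List α)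
    (hn : w.length = n) (hR : ∀ q v X, (δ q v X).2.2.length ≤ R)
    [Fintype (BCtl (UCtl Q Γ k n R) Γ W)] (h t : ℕ) (hW : h < W)
    (hA : AcceptsDeep δ q₀ {q | F q = true} h t w) {P₀ : ℕ} (hP₀ : 0 < P₀)
    (hP : 2 * t * ((2 * t * Fintype.card (BCtl (UCtl Q Γ k n R) Γ W) + 2) *
      Fintype.card (BCtl (UCtl Q Γ k n R) Γ W)) ≤ P₀) (N : ℕ) (hN : 2 * t * P₀ ≤ N) :
    F ((trun (tact (bact (uact (n := n) (R := R) δ F w) W) P₀)
      ((none, binit Γ k n R W q₀), []) N).1.2.1.1) = true := by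
  obtain ⟨τ, hτ0, hτm, hτF, hpc⟩ := hA
  have hex : ∃ m, F (prun δ q₀ w m).1 = true := ⟨τ t, hτF⟩
  obtain ⟨T, hTt, hT, hT'⟩ : ∃ T, T ≤ τ t ∧ F (prun δ q₀ w T).1 = true ∧
      ∀ m < T, F (prun δ q₀ w m).1 ≠ true := by
    classical
    exact ⟨Nat.find hex, Nat.find_min' hex hτF, Nat.find_spec hex,
      fun m hm => Nat.find_min hex hm⟩
  have hJ1 : (urun (uact (n := n) (R := R) δ F w) (uinit Γ k n R q₀, [])
      (usig δ q₀ w T)).1.2.2.1.1 = [] := by
    rw [urun_usig δ q₀ F w hn hR T hT']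
  have hJ2 : F (urun (uact (n := n) (R := R) δ F w) (uinit Γ k n R q₀, [])
      (usig δ q₀ w T)).1.1 = true := by
    rw [urun_usig δ q₀ F w hn hR T hT']
    exact hT
  have hJ3 : ∀ j < usig δ q₀ w T,
      ¬ (F (urun (uact (n := n) (R := R) δ F w) (uinit Γ k n R q₀, []) j).1.1 = true ∧
        (urun (uact (n := n) (R := R) δ F w) (uinit Γ k n R q₀, []) j).1.2.2.1.1 = []) := by
    rintro j hj ⟨h1, h2⟩
    obtain ⟨m, -, h3, h4, h5⟩ := trn9_find δ q₀ w 0 T j (by rw [usig]; omega) hj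
    have hF0 : ∀ m' < m, F (prun δ q₀ w m').1 ≠ true := fun m' hm' => hT' m' (by omega)
    have hF1 : ∀ m' < m + 1, F (prun δ q₀ w m').1 ≠ true := fun m' hm' => hT' m' (by omega)
    rcases Nat.eq_or_lt_of_le h4 with h6 | h6
    · rw [← h6, urun_usig δ q₀ F w hn hR m hF0] at h1
      exact hT' m h3 h1
    · exact (urun_mid δ q₀ F w hn hR m hF1 j h6 h5).2.1 h2
  have hσm : Monotone (fun i => usig δ q₀ w (min (τ i) T)) := by
    intro a b hab
    exact trn9_mono δ q₀ w (min_le_min_right _ (hτm hab))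
  have hσ0 : usig δ q₀ w (min (τ 0) T) = 0 := by
    rw [hτ0, Nat.zero_min, usig]
  have hσt : usig δ q₀ w (min (τ t) T) = usig δ q₀ w T := by
    rw [min_eq_right hTt]
  have hpcu := fun (i : ℕ) => u_noise δ q₀ F w hn hR T hT' (min (τ i) T) (min (τ (i + 1)) T) h
    (min_le_min_right _ (hτm (Nat.le_succ i))) (min_le_right _ _)
  obtain ⟨ρ, hρ0, hρm, hρt, hρ⟩ := noise_pieces (uact (n := n) (R := R) δ F w) hW
    (uinit Γ k n R q₀) (fun i => usig δ q₀ w (min (τ i) T)) t hσ0 hσm (by
      intro i hi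
      rcases hpc i hi with h1 | h1
      · left
        exact (hpcu i).1 fun m m' h2 h3 h4 => by
          rcases Nat.eq_or_lt_of_le h3 with rfl | h5
          · exact Nat.le_add_right _ _
          · exact h1 m m' (by omega) h3 (by omega)
      · right
        exact (hpcu i).2 fun m m' h2 h3 h4 => by
          rcases Nat.eq_or_lt_of_le h3 with rfl | h5
          · exact Nat.le_add_right _ _
          · exact h1 m m' (by omega) h3 (by omega))
  have hb := fun j => (brun (uact (n := n) (R := R) δ F w) W (uinit Γ k n R q₀) j).1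
  have hρt' : ρ (2 * t) = usig δ q₀ w T := hρt.trans hσt
  have hcst : ∀ i, urun (bact (uact (n := n) (R := R) δ F w) W)
      ((uinit Γ k n R q₀, ⟨[], Nat.zero_le _⟩), []) (usig δ q₀ w T + i) =
      urun (bact (uact (n := n) (R := R) δ F w) W)
      ((uinit Γ k n R q₀, ⟨[], Nat.zero_le _⟩), []) (usig δ q₀ w T) := by
    intro i
    induction i with
    | zero => rfl
    | succ i ih =>
      have h1 := hb (usig δ q₀ w T)
      rw [← add_assoc, urun, ih]
      generalize urun (bact (uact (n := n) (R := R) δ F w) W)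
        ((uinit Γ k n R q₀, ⟨[], Nat.zero_le _⟩), []) (usig δ q₀ w T) = c at h1 ⊢
      have h2 : uact (n := n) (R := R) δ F w c.1.1 = .stay c.1.1 :=
        trn9_stay δ F w _ (by rw [h1]; exact hJ2) (by rw [h1]; exact hJ1)
      have h3 : bact (uact (n := n) (R := R) δ F w) W c.1 = .stay (c.1.1, c.1.2) := by
        rw [bact, h2]
      rw [h3]
      rfl
  have hlen : usig δ q₀ w T ≤ 2 * t * ((2 * t * Fintype.card (BCtl (UCtl Q Γ k n R) Γ W) + 2) *
      Fintype.card (BCtl (UCtl Q Γ k n R) Γ W)) := by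
    refine length_bound2 (bact (uact (n := n) (R := R) δ F w) W)
      (uinit Γ k n R q₀, ⟨[], Nat.zero_le _⟩)
      (fun s => F s.1.1 = true ∧ s.1.2.2.1.1 = []) (usig δ q₀ w T) (2 * t) ?_ ?_ ρ hρ0 hρm hρt'
      hρ
    · rw [hb]
      exact ⟨hJ2, hJ1⟩
    · intro j hj
      rw [hb]
      exact hJ3 j hj
  have hsch := sched_blocks hP₀
    (fun j => (bact (uact (n := n) (R := R) δ F w) W
      (urun (bact (uact (n := n) (R := R) δ F w) W)
        ((uinit Γ k n R q₀, ⟨[], Nat.zero_le _⟩), []) j).1).kind) ρ (2 * t) hρ0 hρm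
    (fun i hi => by
      have h1 : ρ i ≤ ρ (2 * t) := hρm hi
      omega)
    hρ (2 * t) le_rfl N hN
  rw [tact_run]
  simp only [binit] at hsch ⊢
  rw [hρt'] at hsch
  obtain ⟨i, hi⟩ := Nat.exists_eq_add_of_le hsch
  rw [hi, hcst, hb]
  exact hJ2

/-- Piece DT-5. Soundness (compare `TU.turn_sound`, whose proof shows the statement for the run
`urun (uact ..)`; use `tact_run`, `brun`). -/
theorem deep_sound (δ : PDTrans α Q Γ k) (q₀ : Q) (F : Q → Bool) (w : List α)
    (hn : w.length = n) (hR : ∀ q v X, (δ q v X).2.2.length ≤ R) (P₀ N : ℕ)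
    (h : F ((trun (tact (bact (uact (n := n) (R := R) δ F w) W) P₀)
      ((none, binit Γ k n R W q₀), []) N).1.2.1.1) = true) :
    ∃ T, AcceptsIn δ q₀ {q | F q = true} T w := by
  by_contra hno
  have hF : ∀ m, F (prun δ q₀ w m).1 ≠ true := by
    intro m hm
    exact hno ⟨m, m, le_rfl, hm⟩
  rw [tact_run] at h
  simp only [binit] at h
  rw [(brun (uact (n := n) (R := R) δ F w) W (uinit Γ k n R q₀) _).1] at h
  generalize (sched P₀ _ N).1 = j at h
  obtain ⟨m, h1, h2⟩ := trn10_usig δ q₀ w j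
  rcases Nat.eq_or_lt_of_le h1 with h3 | h3
  · have h4 := urun_usig (R := R) δ q₀ F w hn hR m (fun m' _ => hF m')
    rw [h3] at h4
    rw [h4] at h
    exact hF m h
  · obtain ⟨-, -, -, m', hm'⟩ := urun_mid (R := R) δ q₀ F w hn hR m (fun m' _ => hF m') j h3 h2
    rw [hm'] at h
    exact hF m' h

end Pool.Agent.Helper17.TV
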