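import Pool.Agent.Helper17.TV.BNum
import Pool.Agent.Helper17.TU.NumEq

set_option autoImplicit false

/-!
Deep turns: the numeric form of one step of the machine of a pushdown automaton without time,
height and direction.
-/

namespace Pool.Agent.Helper17.TV

open Pool.Agent.Helper17.SL Pool.Agent.Helper17.UL Pool.Agent.Helper17.TU

variable {α Q Γ : Type} [Fintype α] [Fintype Q] [Fintype Γ] {k : ℕ}
variable {n R N P₀ B : ℕ} [Fintype (Pend Γ R)]

/-- Code of a control of the machine `uact`. -/
noncomputable def kU (s : UCtl Q Γ k n R) : Fin (k + 4 + 2) → ℕ :=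
  kV ((0, 0, (none, s)) : TV 0 (Option Bool × UCtl Q Γ k n R))

private theorem dt8_eq (N : ℕ) (s : UCtl Q Γ k n R) :
    kU s = kV ((0, 0, (none, s)) : TV N (Option Bool × UCtl Q Γ k n R)) := by
  funext i
  unfold kU kV
  split_ifs <;> rfl

private theorem dt8_ge (v : TV N (Option Bool × UCtl Q Γ k n R)) (i : Fin (k + 4 + 2))
    (hi : 3 ≤ (i : ℕ)) : kV v i = kU v.2.2.2 i := by
  have h0 : ¬ (i : ℕ) = 0 := by omega
  have h1 : ¬ (i : ℕ) = 1 := by omega
  have h2 : ¬ (i : ℕ) = 2 := by omega
  unfold kU kV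
  simp only [h0, h1, h2, if_false]

/-- Piece DT-8. Use the value `(0, 0, (none, s))`, for which `tact` never blocks, and
`TU.kV_vadv`, `TU.npush_kV`, `TU.nDoPop_kV` (for the `N` of the parameters). -/
theorem numOK (δ : PDTrans α Q Γ k) (F : Q → Bool) {u : List α} {p : NP}
    (hB : NOK Q Γ n R N B) (hp : NPOK u n N P₀ B p) :
    NumOK (uact (n := n) (R := R) δ F u) kU (nadv δ F R p) (npush (Γ := Γ) R p)
      (nDoPop δ F R p) := by
  have hmod : ((0 : Fin (N + 1)) : ℕ) % P₀ = 0 := Nat.zero_mod P₀
  have hpush : ∀ s : UCtl Q Γ k n R, npush (Γ := Γ) R p (kU s) =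
      oc (vpush (tact (uact (n := n) (R := R) δ F u) P₀)
        ((0, 0, (none, s)) : TV N (Option Bool × UCtl Q Γ k n R))) := by
    intro s
    rw [dt8_eq N s]
    exact npush_kV δ F hB hp _
  have hpop : ∀ s : UCtl Q Γ k n R, nDoPop δ F R p (kU s) ↔
      vpop (tact (uact (n := n) (R := R) δ F u) P₀)
        ((0, 0, (none, s)) : TV N (Option Bool × UCtl Q Γ k n R)) = true := by
    intro s
    rw [dt8_eq N s]
    exact nDoPop_kV δ F hp _
  have hadv : ∀ (s : UCtl Q Γ k n R) (y : Option Γ) (i : Fin (k + 4 + 2)), 3 ≤ (i : ℕ) →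
      nadv δ F R p (kU s) (oc y) i =
      kU (vadv (tact (uact (n := n) (R := R) δ F u) P₀)
        ((0, 0, (none, s)) : TV N (Option Bool × UCtl Q Γ k n R)) y).2.2.2 i := by
    intro s y i hi
    rw [dt8_eq N s, ← kV_vadv δ F hB hp, dt8_ge _ i hi]
  refine ⟨?_, ?_, ?_, ?_⟩
  · rintro s ⟨i, hi⟩ h3
    have h3' : i < 3 := h3
    interval_cases i <;> rfl
  · intro s s' hs
    have ht : tact (uact (n := n) (R := R) δ F u) P₀ ((0 : Fin (N + 1)) : ℕ) (none, s) =
        .stay (none, s') := by
      unfold tact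
      rw [hs]
      simp only [ite_self]
    refine ⟨?_, ?_, ?_⟩
    · rw [hpush]
      unfold vpush
      simp only [ht]
      rfl
    · rw [hpop]
      unfold vpop
      simp only [ht]
      exact Bool.false_ne_true
    · intro y i hi
      rw [hadv s y i hi]
      unfold vadv
      simp only [ht]
  · intro s s' z hs
    have ht : tact (uact (n := n) (R := R) δ F u) P₀ ((0 : Fin (N + 1)) : ℕ) (none, s) =
        .push (some true, s') z := by
      unfold tact
      rw [hs]
      simp only [ite_self]
      rfl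
    refine ⟨?_, ?_, ?_⟩
    · rw [hpush]
      unfold vpush
      simp only [ht]
    · rw [hpop]
      unfold vpop
      simp only [ht]
      exact Bool.false_ne_true
    · intro y i hi
      rw [hadv s y i hi]
      unfold vadv
      simp only [ht]
  · intro s f hs
    have ht : tact (uact (n := n) (R := R) δ F u) P₀ ((0 : Fin (N + 1)) : ℕ) (none, s) =
        .pop (fun y => (some false, f y)) := by
      unfold tact
      rw [hs]
      simp only [ite_self]
      rfl
    refine ⟨?_, ?_, ?_⟩
    · rw [hpush]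
      unfold vpush
      simp only [ht]
      rfl
    · rw [hpop]
      unfold vpop
      simp only [ht]
    · intro y i hi
      rw [hadv s y i hi]
      unfold vadv
      simp only [ht]

/-- Piece DT-8. -/
theorem kU_lt (hB : NOK Q Γ n R N B) (s : UCtl Q Γ k n R) (i : Fin (k + 4 + 2)) : kU s i < B := by
  rw [dt8_eq N s]
  exact kV_lt hB _ i

end Pool.Agent.Helper17.TV
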