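import Pool.Agent.Helper17.TV.BNumEq
import Pool.Agent.Helper17.TV.NumOK
import Pool.Agent.Helper17.TV.Deep
import Pool.Agent.Helper17.TU.AnsT

set_option autoImplicit false

/-!
Deep turns: the answer is read from the value of the scheme.
-/

namespace Pool.Agent.Helper17.TV

open Pool.Agent.Helper17.SL Pool.Agent.Helper17.UL Pool.Agent.Helper17.TU

section

variable {α Q Γ : Type} [Fintype α] [Fintype Q] [Fintype Γ] {k R W : ℕ} [Fintype (Pend Γ R)]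

/-- The initial tuple. -/
noncomputable def b0 (k : ℕ) (q₀ : Q) (Γ : Type) [Fintype Γ] (R : ℕ) [Fintype (Pend Γ R)]
    (i : Fin (k + 4 + 1 + 2)) : ℕ :=
  if h : (i : ℕ) = k + 4 + 2 then 0 else a0 k q₀ Γ R ⟨i, by omega⟩

private theorem dt13_kB {n N : ℕ} (v : TV N (Option Bool × BCtl (UCtl Q Γ k n R) Γ W))
    (i : Fin (k + 4 + 1 + 2)) (hi : ¬ (i : ℕ) = k + 4 + 2) :
    kB kU v i = kV ((v.1, v.2.1, (v.2.2.1, v.2.2.2.1)) : TV N (Option Bool × UCtl Q Γ k n R))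
      ⟨i, by omega⟩ := by
  unfold kB
  rw [dif_neg hi]
  unfold kU kV
  simp only
  split_ifs <;> first | rfl | omega

private theorem dt13_kB_buf {n N : ℕ} (v : TV N (Option Bool × BCtl (UCtl Q Γ k n R) Γ W))
    (i : Fin (k + 4 + 1 + 2)) (hi : (i : ℕ) = k + 4 + 2) :
    kB kU v i = bufc v.2.2.2.2.1 := by
  unfold kB
  rw [dif_pos hi]

/-- Piece DT-13. -/
theorem kB_init {n N : ℕ} (q₀ : Q) :
    kB kU (tval N 0 (((none, binit Γ k n R W q₀) :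
      Option Bool × BCtl (UCtl Q Γ k n R) Γ W), ([] : List Γ))) = b0 k q₀ Γ R := by
  funext i
  unfold b0
  by_cases hi : (i : ℕ) = k + 4 + 2
  · rw [dt13_kB_buf _ i hi, dif_pos hi]
    rfl
  · rw [dt13_kB _ i hi, dif_neg hi]
    exact congrFun (kV_init (n := n) (N := N) (k := k) (R := R) (Γ := Γ) q₀) ⟨i, by omega⟩

/-- Piece DT-13. -/
theorem b0_lt {n N B : ℕ} (h : NOK Q Γ n R N B) (q₀ : Q) (i : Fin (k + 4 + 1 + 2)) :
    b0 k q₀ Γ R i < B := by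
  unfold b0
  split_ifs
  · have h2 := h.h2
    omega
  · exact a0_ltT h q₀ _

/-- Piece DT-13. -/
theorem kB_lt {n N B : ℕ} (h : NOK Q Γ n R N B) (hΘ : (Fintype.card Γ + 1) ^ W ≤ B)
    (v : TV N (Option Bool × BCtl (UCtl Q Γ k n R) Γ W)) (i : Fin (k + 4 + 1 + 2)) :
    kB kU v i < B := by
  by_cases hi : (i : ℕ) = k + 4 + 2
  · rw [dt13_kB_buf _ i hi]
    exact (bufc_lt _).trans_le ((Nat.pow_le_pow_right (Nat.succ_pos _) v.2.2.2.2.2).trans hΘ)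
  · rw [dt13_kB _ i hi]
    exact kV_lt h _ _

/-- Piece DT-13. Compare `answerT` in `TU/AnsT.lean`. -/
theorem answerB (δ : PDTrans α Q Γ k) (q₀ : Q) (F : Q → Bool) (u : List α) {P₀ E : ℕ} (p : Prm)
    (hP₀ : 0 < P₀) (hM : 0 < p.M) (hB : NOK Q Γ u.length R (P₀ * p.M ^ E) p.B)
    (hΘ : (Fintype.card Γ + 1) ^ W ≤ p.B)
    (hmB : p.m < p.B) (hm : p.m = 4 * p.M + 6)
    (hb : 2 ^ p.b = p.B ^ Fintype.card (CI (k + 4 + 1))) {r : ℕ} (hmr : p.m ≤ r)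
    (hr : 2 ^ (2 * p.b) ≤ r ^ p.t2)
    (phi0N : (Fin (k + 4 + 1 + 2) → ℕ) → (Fin (k + 4 + 1 + 2) → ℕ) → RI (k + 4 + 1) → ℕ)
    (hphi : ∀ g x : TV (P₀ * p.M ^ E) (Option Bool × BCtl (UCtl Q Γ k u.length R) Γ W),
      phi0N (kB kU g) (kB kU x) =
        cRes (kB kU) (phiB (tact (bact (uact δ F u) W) P₀) P₀ g x))
    (nn : ℕ) (hnn : E * p.Del ≤ nn) :
    tabF F (decI p.B ((PhiT p P₀ phi0N).val nn (mkN 1 E 0 0 0 (b0 k q₀ Γ R) (b0 k q₀ Γ R)))
      (RI.x (⟨3, by omega⟩ : Fin (k + 4 + 1 + 2)))) = 1 ↔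
      F ((trun (tact (bact (uact (n := u.length) (R := R) δ F u) W) P₀)
        ((none, binit Γ k u.length R W q₀), []) (P₀ * p.M ^ E)).1.2.1.1) = true := by
  set c0 : (Option Bool × BCtl (UCtl Q Γ k u.length R) Γ W) × List Γ :=
    ((none, binit Γ k u.length R W q₀), []) with hc0
  obtain ⟨u', hu'⟩ := phiB_final (tact (bact (uact (n := u.length) (R := R) δ F u) W) P₀) c0 rfl
    (N := P₀ * p.M ^ E) hP₀ hM rfl (tact_uni _ P₀ c0)
  have hval := PhiT_val (c := k + 4 + 1)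
    (kB (kU (Γ := Γ) (Q := Q) (k := k) (n := u.length) (R := R)) (N := P₀ * p.M ^ E)
      (Γ := Γ) (W := W)) ttm tht
    (fun v => rfl) (fun v => rfl) p P₀ phi0N (D := E) (kB_lt hB hΘ) hB.h2 hmB hm hb hmr hr
    (phiB (tact (bact (uact δ F u) W) P₀) P₀) (fun g x _ => hphi g x) E le_rfl nn hnn
    (tval (P₀ * p.M ^ E) 0 c0) (tval (P₀ * p.M ^ E) 0 c0)
  rw [hu', hc0, kB_init] at hval
  rw [hval]
  have hlt : ∀ i, cRes (kB kU) (Res.done (tval (P₀ * p.M ^ E) (P₀ * p.M ^ E)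
      (trun (tact (bact (uact (n := u.length) (R := R) δ F u) W) P₀) c0 (P₀ * p.M ^ E))) u') i <
      p.B := by
    intro i
    cases i with
    | tag => exact hB.h2
    | x i => exact kB_lt hB hΘ _ _
    | u i => exact kB_lt hB hΘ _ _
  have hdec := congrFun (decI_encI _ hlt) (RI.x (⟨3, by omega⟩ : Fin (k + 4 + 1 + 2)))
  rw [hdec]
  have hc : cRes (kB kU) (Res.done (tval (P₀ * p.M ^ E) (P₀ * p.M ^ E)
      (trun (tact (bact (uact (n := u.length) (R := R) δ F u) W) P₀) c0 (P₀ * p.M ^ E))) u')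
      (RI.x (⟨3, by omega⟩ : Fin (k + 4 + 1 + 2))) =
      fc (trun (tact (bact (uact (n := u.length) (R := R) δ F u) W) P₀) c0
        (P₀ * p.M ^ E)).1.2.1.1 := by
    have h3 : ¬ (((⟨3, by omega⟩ : Fin (k + 4 + 1 + 2)) : ℕ) = k + 4 + 2) := by
      simp only
      omega
    exact dt13_kB _ _ h3
  rw [hc, tabF, ptab_code fc_injective]
  cases F (trun (tact (bact (uact (n := u.length) (R := R) δ F u) W) P₀) c0
    (P₀ * p.M ^ E)).1.2.1.1 <;> simp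

end

end Pool.Agent.Helper17.TV
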