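import Pool.Agent.Helper17.TV.Buf
import Pool.Agent.Helper17.TU.NumDef

set_option autoImplicit false

/-!
Deep turns: numeric form of the timed buffered machine, from a numeric form of the machine `ua`.
-/

namespace Pool.Agent.Helper17.TV

open Pool.Agent.Helper17.SL Pool.Agent.Helper17.UL Pool.Agent.Helper17.TU

/-- Code of a buffer: digits `1, …, card Γ` in base `card Γ + 1`, the top is the last digit. -/
noncomputable def bufc {Γ : Type} [Fintype Γ] : List Γ → ℕ
  | [] => 0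
  | y :: l => oc (some y) + (Fintype.card Γ + 1) * bufc l

section defs

variable {c : ℕ} (adv : (Fin (c + 2) → ℕ) → ℕ → Fin (c + 2) → ℕ)
  (psh : (Fin (c + 2) → ℕ) → ℕ) (dpop : (Fin (c + 2) → ℕ) → Prop) (N P0 Θ G Wc : ℕ)

/-- The components of the machine `ua`; time, height and direction are replaced by `0`. -/
def rs (x : Fin (c + 1 + 2) → ℕ) (i : Fin (c + 2)) : ℕ :=
  if 3 ≤ (i : ℕ) then x ⟨i, by omega⟩ else 0

/-- The component of the buffer. -/
def bx : Fin (c + 1 + 2) := ⟨c + 2, by omega⟩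

/-- The direction, forgotten at the multiples of `P0`. -/
def bDir (x : Fin (c + 1 + 2) → ℕ) : ℕ :=
  if x 0 % P0 = 0 then 0 else x ⟨2, by omega⟩

/-- Code of the buffer after a push. -/
def bcod (x : Fin (c + 1 + 2) → ℕ) : ℕ :=
  min (psh (rs x) + min ((G + 1) * x bx) Wc) Wc

/-- A real push is needed. -/
def wPush (x : Fin (c + 1 + 2) → ℕ) : Prop := psh (rs x) ≠ 0 ∧ Θ ≤ bcod psh G Wc x

/-- A real pop is needed. -/
def wPop (x : Fin (c + 1 + 2) → ℕ) : Prop := dpop (rs x) ∧ x bx = 0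

/-- A real push happens. -/
def bDoPush (x : Fin (c + 1 + 2) → ℕ) : Prop := wPush psh Θ G Wc x ∧ bDir P0 x ≠ 2

/-- A real pop happens. -/
def bDoPop (x : Fin (c + 1 + 2) → ℕ) : Prop := wPop dpop x ∧ bDir P0 x ≠ 1

/-- The step is not possible in this direction. -/
def bBlk (x : Fin (c + 1 + 2) → ℕ) : Prop :=
  (wPush psh Θ G Wc x ∧ bDir P0 x = 2) ∨ (wPop dpop x ∧ bDir P0 x = 1)

open Classical in
/-- Code of the symbol of a real push (`0` if there is none). -/
noncomputable def bpsh (x : Fin (c + 1 + 2) → ℕ) : ℕ :=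
  if bDoPush psh P0 Θ G Wc x then min (bcod psh G Wc x / Θ) (min G Wc) else 0

open Classical in
/-- The new value. -/
noncomputable def badv (x : Fin (c + 1 + 2) → ℕ) (y : ℕ) (i : Fin (c + 1 + 2)) : ℕ :=
  if h : (i : ℕ) = c + 2 then
    (if psh (rs x) ≠ 0 ∧ ¬ bBlk psh dpop P0 Θ G Wc x then bcod psh G Wc x % Θ
      else if dpop (rs x) then x i / (G + 1) else x i)
  else if (i : ℕ) = 0 then min (x 0 + 1) N
  else if (i : ℕ) = 1 then
    (if bDoPush psh P0 Θ G Wc x then min (x 1 + 1) N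
      else if bDoPop dpop P0 x then min (x 1 - 1) N else x 1)
  else if (i : ℕ) = 2 then
    (if bDoPush psh P0 Θ G Wc x then 1 else if bDoPop dpop P0 x then 2 else bDir P0 x)
  else
    (if bBlk psh dpop P0 Θ G Wc x then x i
      else adv (rs x) (if dpop (rs x) ∧ x bx ≠ 0 then x bx % (G + 1) else y)
        ⟨i, by omega⟩)

end defs

section kB

variable {S Γ : Type} [Fintype Γ] {c N W : ℕ}

/-- The value as a tuple: time, height, direction, components of the machine `ua`, buffer. -/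
noncomputable def kB (kS : S → Fin (c + 2) → ℕ) (v : TV N (Option Bool × BCtl S Γ W))
    (i : Fin (c + 1 + 2)) : ℕ :=
  if h : (i : ℕ) = c + 2 then bufc v.2.2.2.2.1
  else if (i : ℕ) = 0 then (v.1 : ℕ)
  else if (i : ℕ) = 1 then (v.2.1 : ℕ)
  else if (i : ℕ) = 2 then dirc v.2.2.1
  else kS v.2.2.2.1 ⟨i, by omega⟩

/-- `adv`, `psh`, `dpop` are a numeric form of the machine `ua` (with a popped symbol given). -/
structure NumOK (ua : S → TAct S Γ) (kS : S → Fin (c + 2) → ℕ)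
    (adv : (Fin (c + 2) → ℕ) → ℕ → Fin (c + 2) → ℕ) (psh : (Fin (c + 2) → ℕ) → ℕ)
    (dpop : (Fin (c + 2) → ℕ) → Prop) : Prop where
  k0 : ∀ s (i : Fin (c + 2)), (i : ℕ) < 3 → kS s i = 0
  stay : ∀ s s', ua s = .stay s' → psh (kS s) = 0 ∧ ¬ dpop (kS s) ∧
    ∀ y : Option Γ, ∀ i : Fin (c + 2), 3 ≤ (i : ℕ) → adv (kS s) (oc y) i = kS s' i
  push : ∀ s s' z, ua s = .push s' z → psh (kS s) = oc (some z) ∧ ¬ dpop (kS s) ∧
    ∀ y : Option Γ, ∀ i : Fin (c + 2), 3 ≤ (i : ℕ) → adv (kS s) (oc y) i = kS s' i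
  pop : ∀ s f, ua s = .pop f → psh (kS s) = 0 ∧ dpop (kS s) ∧
    ∀ y : Option Γ, ∀ i : Fin (c + 2), 3 ≤ (i : ℕ) → adv (kS s) (oc y) i = kS (f y) i

end kB

end Pool.Agent.Helper17.TV
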