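import Pool.Agent.Helper17.TV.BNum

set_option autoImplicit false

/-!
Deep turns: the numeric form of the timed buffered machine is right.
-/

namespace Pool.Agent.Helper17.TV

open Pool.Agent.Helper17.SL Pool.Agent.Helper17.UL Pool.Agent.Helper17.TU

/-- Piece DT-6. -/
theorem bufc_lt {Γ : Type} [Fintype Γ] (l : List Γ) :
    bufc l < (Fintype.card Γ + 1) ^ l.length := by
  induction l with
  | nil => exact Nat.one_pos
  | cons y l ih =>
    have h1 := oc_lt (some y)
    rw [List.length_cons, pow_succ]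
    change oc (some y) + (Fintype.card Γ + 1) * bufc l <
      (Fintype.card Γ + 1) ^ l.length * (Fintype.card Γ + 1)
    have h2 : (bufc l + 1) * (Fintype.card Γ + 1) ≤
        (Fintype.card Γ + 1) ^ l.length * (Fintype.card Γ + 1) :=
      Nat.mul_le_mul_right _ ih
    nlinarith

/-- Piece DT-6. -/
theorem le_bufc {Γ : Type} [Fintype Γ] (l : List Γ) (y : Γ) :
    (Fintype.card Γ + 1) ^ l.length ≤ bufc (y :: l) := by
  induction l generalizing y with
  | nil =>
    change 1 ≤ fc y + 1 + _
    omega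
  | cons z l ih =>
    have h1 := ih z
    rw [List.length_cons, pow_succ]
    change _ ≤ oc (some y) + (Fintype.card Γ + 1) * bufc (z :: l)
    have h2 := Nat.mul_le_mul_right (Fintype.card Γ + 1) h1
    rw [mul_comm (bufc (z :: l))] at h2
    omega

/-- Piece DT-6. -/
theorem bufc_append {Γ : Type} [Fintype Γ] (l : List Γ) (z : Γ) :
    bufc (l ++ [z]) = bufc l + (Fintype.card Γ + 1) ^ l.length * oc (some z) := by
  induction l with
  | nil =>
    change oc (some z) + (Fintype.card Γ + 1) * 0 = 0 + 1 * oc (some z)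
    omega
  | cons y l ih =>
    change oc (some y) + (Fintype.card Γ + 1) * bufc (l ++ [z]) =
      oc (some y) + (Fintype.card Γ + 1) * bufc l +
        (Fintype.card Γ + 1) ^ (l.length + 1) * oc (some z)
    rw [ih]
    ring

section

variable {S Γ : Type} [Fintype Γ] {c N W : ℕ} {ua : S → TAct S Γ} {kS : S → Fin (c + 2) → ℕ}
  {adv : (Fin (c + 2) → ℕ) → ℕ → Fin (c + 2) → ℕ} {psh : (Fin (c + 2) → ℕ) → ℕ}
  {dpop : (Fin (c + 2) → ℕ) → Prop}

private theorem dt6_bx (v : TV N (Option Bool × BCtl S Γ W)) :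
    kB kS v bx = bufc v.2.2.2.2.1 := by
  unfold kB bx
  rw [dif_pos rfl]

private theorem dt6_0 (v : TV N (Option Bool × BCtl S Γ W)) : kB kS v 0 = (v.1 : ℕ) := by
  have h1 : ((0 : Fin (c + 1 + 2)) : ℕ) = 0 := rfl
  unfold kB
  rw [dif_neg (by rw [h1]; omega), if_pos h1]

private theorem dt6_1 (hc : 1 ≤ c) (v : TV N (Option Bool × BCtl S Γ W)) :
    kB kS v 1 = (v.2.1 : ℕ) := by
  have h1 : ((1 : Fin (c + 1 + 2)) : ℕ) = 1 := rfl
  unfold kB
  rw [dif_neg (by rw [h1]; omega), if_neg (by rw [h1]; omega), if_pos h1]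

private theorem dt6_2 (hc : 1 ≤ c) (v : TV N (Option Bool × BCtl S Γ W)) :
    kB kS v ⟨2, by omega⟩ = dirc v.2.2.1 := by
  unfold kB
  rw [dif_neg (by simp only; omega), if_neg (by simp only; omega), if_neg (by simp only; omega),
    if_pos rfl]

private theorem dt6_i (v : TV N (Option Bool × BCtl S Γ W)) (i : Fin (c + 2))
    (hi : 3 ≤ (i : ℕ)) : kB kS v ⟨i, by omega⟩ = kS v.2.2.2.1 i := by
  unfold kB
  rw [dif_neg (by simp only; omega), if_neg (by simp only; omega), if_neg (by simp only; omega),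
    if_neg (by simp only; omega)]

private theorem dt6_rs (h : NumOK ua kS adv psh dpop) (v : TV N (Option Bool × BCtl S Γ W)) :
    rs (kB kS v) = kS v.2.2.2.1 := by
  funext i
  unfold rs
  by_cases hi : 3 ≤ (i : ℕ)
  · rw [if_pos hi, dt6_i v i hi]
  · rw [if_neg hi, h.k0 _ i (by omega)]

private theorem dt6_dir (hc : 1 ≤ c) (P₀ : ℕ) (v : TV N (Option Bool × BCtl S Γ W)) :
    bDir P₀ (kB kS v) = dirc (if (v.1 : ℕ) % P₀ = 0 then none else v.2.2.1) := by
  unfold bDir
  rw [dt6_0, dt6_2 hc]
  by_cases h : (v.1 : ℕ) % P₀ = 0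
  · rw [if_pos h, if_pos h]
    rfl
  · rw [if_neg h, if_neg h]

private theorem dt6_d2 (d : Option Bool) : dirc d = 2 ↔ d = some false := by
  rcases d with _ | _ | _ <;> simp [dirc]

private theorem dt6_d1 (d : Option Bool) : dirc d = 1 ↔ d = some true := by
  rcases d with _ | _ | _ <;> simp [dirc]

open Classical in
private theorem dt6_fin (hc : 1 ≤ c) (P₀ Θ G Wc : ℕ) (x : Fin (c + 1 + 2) → ℕ) (y : ℕ)
    (v' : TV N (Option Bool × BCtl S Γ W))
    (e0 : (v'.1 : ℕ) = min (x 0 + 1) N)
    (e1 : (v'.2.1 : ℕ) = if bDoPush psh P₀ Θ G Wc x then min (x 1 + 1) N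
      else if bDoPop dpop P₀ x then min (x 1 - 1) N else x 1)
    (e2 : dirc v'.2.2.1 = if bDoPush psh P₀ Θ G Wc x then 1 else if bDoPop dpop P₀ x then 2
      else bDir P₀ x)
    (eb : bufc v'.2.2.2.2.1 =
      if psh (rs x) ≠ 0 ∧ ¬ bBlk psh dpop P₀ Θ G Wc x then bcod psh G Wc x % Θ
        else if dpop (rs x) then x bx / (G + 1) else x bx)
    (e3 : ∀ i : Fin (c + 2), 3 ≤ (i : ℕ) → kS v'.2.2.2.1 i =
      if bBlk psh dpop P₀ Θ G Wc x then x ⟨i, by omega⟩
        else adv (rs x) (if dpop (rs x) ∧ x bx ≠ 0 then x bx % (G + 1) else y) i) :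
    kB kS v' = badv adv psh dpop N P₀ Θ G Wc x y := by
  funext i
  by_cases hi : (i : ℕ) = c + 2
  · have hi' : i = bx := Fin.ext hi
    subst hi'
    rw [dt6_bx, eb]
    unfold badv
    rw [dif_pos hi]
  by_cases h0 : (i : ℕ) = 0
  · have hi' : i = 0 := Fin.ext h0
    subst hi'
    rw [dt6_0, e0]
    unfold badv
    rw [dif_neg hi, if_pos h0]
  by_cases h1 : (i : ℕ) = 1
  · have hi' : i = 1 := Fin.ext h1
    subst hi'
    rw [dt6_1 hc, e1]
    unfold badv
    rw [dif_neg hi, if_neg h0, if_pos h1]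
  by_cases h2 : (i : ℕ) = 2
  · have h3 : kB kS v' i = dirc v'.2.2.1 := by
      unfold kB
      rw [dif_neg hi, if_neg h0, if_neg h1, if_pos h2]
    rw [h3, e2]
    unfold badv
    rw [dif_neg hi, if_neg h0, if_neg h1, if_pos h2]
  · have hj : (i : ℕ) < c + 2 := by omega
    have h3 := dt6_i (kS := kS) v' ⟨i, hj⟩ (by simp only; omega)
    have h4 := e3 ⟨i, hj⟩ (by simp only; omega)
    have h5 : kB kS v' i = kS v'.2.2.2.1 ⟨i, hj⟩ := h3
    rw [h5, h4]
    unfold badv
    rw [dif_neg hi, if_neg h0, if_neg h1, if_neg h2]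

private theorem dt6_cod (h : NumOK ua kS adv psh dpop) (Wc : ℕ)
    (hW : (Fintype.card Γ + 1) ^ (W + 1) ≤ Wc) (v : TV N (Option Bool × BCtl S Γ W)) (z : Γ)
    (hz : psh (kS v.2.2.2.1) = oc (some z)) :
    bcod psh (Fintype.card Γ) Wc (kB kS v) = bufc (z :: v.2.2.2.2.1) := by
  unfold bcod
  rw [dt6_rs h, dt6_bx, hz]
  have h1 := bufc_lt (z :: v.2.2.2.2.1)
  have h2 : (Fintype.card Γ + 1) ^ (z :: v.2.2.2.2.1).length ≤ (Fintype.card Γ + 1) ^ (W + 1) :=
    Nat.pow_le_pow_right (Nat.succ_pos _) (by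
      have := v.2.2.2.2.2
      simp only [List.length_cons]
      omega)
  have h3 : bufc (z :: v.2.2.2.2.1) =
    oc (some z) + (Fintype.card Γ + 1) * bufc v.2.2.2.2.1 := rfl
  rw [min_eq_left (a := (Fintype.card Γ + 1) * bufc v.2.2.2.2.1) (by omega), ← h3]
  omega

private theorem dt6_full (l : List Γ) (z : Γ) :
    (Fintype.card Γ + 1) ^ W ≤ bufc (z :: l) ↔ ¬ (z :: l).length ≤ W := by
  constructor
  · intro h1 h2
    have h3 := bufc_lt (z :: l)
    have h4 : (Fintype.card Γ + 1) ^ (z :: l).length ≤ (Fintype.card Γ + 1) ^ W :=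
      Nat.pow_le_pow_right (Nat.succ_pos _) h2
    omega
  · intro h1
    have h2 := le_bufc l z
    have h3 : (Fintype.card Γ + 1) ^ W ≤ (Fintype.card Γ + 1) ^ l.length :=
      Nat.pow_le_pow_right (Nat.succ_pos _) (by
        simp only [List.length_cons] at h1
        omega)
    omega

private theorem dt6_split (l : List Γ) (z : Γ) (hl : l.length = W) :
    bufc (z :: l) % (Fintype.card Γ + 1) ^ W = bufc (z :: l).dropLast ∧
    bufc (z :: l) / (Fintype.card Γ + 1) ^ W =
      oc (some ((z :: l).getLast (List.cons_ne_nil _ _))) := by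
  have h1 : (z :: l).dropLast.length = W := by
    simp only [List.length_dropLast, List.length_cons]
    omega
  have h2 : bufc (z :: l) = bufc (z :: l).dropLast +
      (Fintype.card Γ + 1) ^ W * oc (some ((z :: l).getLast (List.cons_ne_nil _ _))) := by
    conv_lhs => rw [← List.dropLast_append_getLast (l := z :: l) (List.cons_ne_nil _ _)]
    rw [bufc_append, h1]
  have h3 := bufc_lt (z :: l).dropLast
  rw [h1] at h3
  have h4 : 0 < (Fintype.card Γ + 1) ^ W := Nat.pow_pos (Nat.succ_pos _)
  constructor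
  · rw [h2, Nat.add_mul_mod_self_left, Nat.mod_eq_of_lt h3]
  · rw [h2, Nat.add_mul_div_left _ _ h4, Nat.div_eq_of_lt h3, zero_add]

private theorem dt6_cons (l : List Γ) (z : Γ) :
    bufc (z :: l) / (Fintype.card Γ + 1) = bufc l ∧
    bufc (z :: l) % (Fintype.card Γ + 1) = oc (some z) ∧ bufc (z :: l) ≠ 0 := by
  have h1 := oc_lt (some z)
  have h2 : bufc (z :: l) = oc (some z) + (Fintype.card Γ + 1) * bufc l := rfl
  have h3 : oc (some z) = fc z + 1 := rfl
  refine ⟨?_, ?_, ?_⟩
  · rw [h2, Nat.add_mul_div_left _ _ (Nat.succ_pos _), Nat.div_eq_of_lt h1, zero_add]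
  · rw [h2, Nat.add_mul_mod_self_left, Nat.mod_eq_of_lt h1]
  · omega

private theorem dt6_bs (s s' : S) (b : Pend Γ W) (hu : ua s = .stay s') :
    bact ua W (s, b) = .stay (s', b) := by
  unfold bact
  simp only [hu]

private theorem dt6_bf (s s' : S) (z : Γ) (l : List Γ) (hlen : l.length ≤ W)
    (hu : ua s = .push s' z) (hfit : (z :: l).length ≤ W) :
    bact ua W (s, ⟨l, hlen⟩) = .stay (s', ⟨z :: l, hfit⟩) := by
  unfold bact
  simp only [hu]
  rw [dif_pos hfit]

private theorem dt6_bp (s s' : S) (z : Γ) (l : List Γ) (hlen : l.length ≤ W)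
    (hu : ua s = .push s' z) (hfit : ¬ (z :: l).length ≤ W)
    (hdl : (z :: l).dropLast.length ≤ W) :
    bact ua W (s, ⟨l, hlen⟩) = .push (s', ⟨(z :: l).dropLast, hdl⟩)
      ((z :: l).getLast (List.cons_ne_nil _ _)) := by
  unfold bact
  simp only [hu]
  rw [dif_neg hfit]

private theorem dt6_bn (s : S) (f : Option Γ → S) (hlen : ([] : List Γ).length ≤ W)
    (hu : ua s = .pop f) :
    bact ua W (s, ⟨[], hlen⟩) = .pop (fun z => (f z, ⟨[], Nat.zero_le _⟩)) := by
  unfold bact
  simp only [hu]

private theorem dt6_bc (s : S) (f : Option Γ → S) (z : Γ) (ys : List Γ)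
    (hlen : (z :: ys).length ≤ W) (hys : ys.length ≤ W) (hu : ua s = .pop f) :
    bact ua W (s, ⟨z :: ys, hlen⟩) = .stay (f (some z), ⟨ys, hys⟩) := by
  unfold bact
  simp only [hu]

/-- Piece DT-6. -/
theorem badv_eq (hc : 1 ≤ c) (h : NumOK ua kS adv psh dpop) (P₀ Wc : ℕ)
    (hW : (Fintype.card Γ + 1) ^ (W + 1) ≤ Wc) (v : TV N (Option Bool × BCtl S Γ W))
    (y : Option Γ) :
    kB kS (vadv (tact (bact ua W) P₀) v y) =
      badv adv psh dpop N P₀ ((Fintype.card Γ + 1) ^ W) (Fintype.card Γ) Wc (kB kS v) (oc y) := by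
  classical
  have hrs := dt6_rs h v
  have hbx := dt6_bx (kS := kS) v
  have h0 := dt6_0 (kS := kS) v
  have h1 := dt6_1 (kS := kS) hc v
  have hdir := dt6_dir (kS := kS) hc P₀ v
  have hi := dt6_i (kS := kS) v
  have hcod := dt6_cod h Wc hW v
  obtain ⟨D, hD⟩ : ∃ D, D = (if (v.1 : ℕ) % P₀ = 0 then none else v.2.2.1) := ⟨_, rfl⟩
  rw [← hD] at hdir
  rcases hl : v.2.2.2.2 with ⟨l, hlen⟩
  rw [hl] at hbx hcod
  simp only at hbx hcod
  cases hu : ua v.2.2.2.1 with
  | stay s' =>
    obtain ⟨g1, g2, g3⟩ := h.stay _ _ hu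
    have n1 : ¬ wPush psh ((Fintype.card Γ + 1) ^ W) (Fintype.card Γ) Wc (kB kS v) := by
      unfold wPush
      rw [hrs, g1]
      exact fun hh => hh.1 rfl
    have n2 : ¬ wPop dpop (kB kS v) := by
      unfold wPop
      rw [hrs]
      exact fun hh => g2 hh.1
    have n3 : ¬ bDoPush psh P₀ ((Fintype.card Γ + 1) ^ W) (Fintype.card Γ) Wc (kB kS v) :=
      fun hh => n1 hh.1
    have n4 : ¬ bDoPop dpop P₀ (kB kS v) := fun hh => n2 hh.1
    have n5 : ¬ bBlk psh dpop P₀ ((Fintype.card Γ + 1) ^ W) (Fintype.card Γ) Wc (kB kS v) := by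
      rintro (hh | hh)
      · exact n1 hh.1
      · exact n2 hh.1
    have hb : bact ua W v.2.2.2 = .stay (s', v.2.2.2.2) := dt6_bs _ _ _ hu
    have ht : tact (bact ua W) P₀ v.1 v.2.2 = .stay (D, (s', v.2.2.2.2)) := by
      unfold tact
      rw [hb, hD]
    unfold vadv
    rw [ht]
    refine dt6_fin hc P₀ _ _ Wc _ _ _ ?_ ?_ ?_ ?_ ?_
    · rw [h0]
      rfl
    · rw [if_neg n3, if_neg n4, h1]
    · rw [if_neg n3, if_neg n4, hdir]
    · rw [hrs, if_neg (fun hh => hh.1 g1), if_neg g2, hbx]
      simp only [hl]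
    · intro i hi3
      rw [if_neg n5, hrs, if_neg (fun hh => g2 hh.1)]
      exact (g3 y i hi3).symm
  | push s' z =>
    obtain ⟨g1, g2, g3⟩ := h.push _ _ _ hu
    have g1' : psh (kS v.2.2.2.1) ≠ 0 := by
      rw [g1]
      exact Nat.succ_ne_zero _
    have hcz := hcod z g1
    have n2 : ¬ wPop dpop (kB kS v) := by
      unfold wPop
      rw [hrs]
      exact fun hh => g2 hh.1
    have n4 : ¬ bDoPop dpop P₀ (kB kS v) := fun hh => n2 hh.1
    by_cases hfit : (z :: l).length ≤ W
    · have n1 : ¬ wPush psh ((Fintype.card Γ + 1) ^ W) (Fintype.card Γ) Wc (kB kS v) := by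
        unfold wPush
        rw [hcz]
        exact fun hh => (dt6_full l z).1 hh.2 hfit
      have n3 : ¬ bDoPush psh P₀ ((Fintype.card Γ + 1) ^ W) (Fintype.card Γ) Wc (kB kS v) :=
        fun hh => n1 hh.1
      have n5 : ¬ bBlk psh dpop P₀ ((Fintype.card Γ + 1) ^ W) (Fintype.card Γ) Wc (kB kS v) := by
        rintro (hh | hh)
        · exact n1 hh.1
        · exact n2 hh.1
      have hb : bact ua W v.2.2.2 = .stay (s', ⟨z :: l, hfit⟩) := by
        have hv : v.2.2.2 = (v.2.2.2.1, ⟨l, hlen⟩) := Prod.ext rfl hl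
        rw [hv]
        exact dt6_bf _ _ _ _ _ hu hfit
      have ht : tact (bact ua W) P₀ v.1 v.2.2 = .stay (D, (s', ⟨z :: l, hfit⟩)) := by
        unfold tact
        rw [hb, hD]
      unfold vadv
      rw [ht]
      refine dt6_fin hc P₀ _ _ Wc _ _ _ ?_ ?_ ?_ ?_ ?_
      · rw [h0]
        rfl
      · rw [if_neg n3, if_neg n4, h1]
      · rw [if_neg n3, if_neg n4, hdir]
      · rw [hrs, if_pos ⟨g1', n5⟩, hcz, Nat.mod_eq_of_lt]
        by_contra hle
        exact (dt6_full l z).1 (not_lt.1 hle) hfit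
      · intro i hi3
        rw [if_neg n5, hrs, if_neg (fun hh => g2 hh.1)]
        exact (g3 y i hi3).symm
    · have hlW : l.length = W := by
        simp only [List.length_cons] at hfit
        omega
      have n1 : wPush psh ((Fintype.card Γ + 1) ^ W) (Fintype.card Γ) Wc (kB kS v) := by
        unfold wPush
        rw [hcz, hrs]
        exact ⟨g1', (dt6_full l z).2 hfit⟩
      obtain ⟨q1, q2⟩ := dt6_split l z hlW
      have hdl : (z :: l).dropLast.length ≤ W := by
        simp only [List.length_dropLast, List.length_cons]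
        omega
      have hb : bact ua W v.2.2.2 = .push (s', ⟨(z :: l).dropLast, hdl⟩)
          ((z :: l).getLast (List.cons_ne_nil _ _)) := by
        have hv : v.2.2.2 = (v.2.2.2.1, ⟨l, hlen⟩) := Prod.ext rfl hl
        rw [hv]
        exact dt6_bp _ _ _ _ _ hu hfit hdl
      by_cases hDf : D = some false
      · have n3 : ¬ bDoPush psh P₀ ((Fintype.card Γ + 1) ^ W) (Fintype.card Γ) Wc (kB kS v) := by
          intro hh
          apply hh.2
          rw [hdir, hDf]
          rfl
        have n5 : bBlk psh dpop P₀ ((Fintype.card Γ + 1) ^ W) (Fintype.card Γ) Wc (kB kS v) := by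
          left
          refine ⟨n1, ?_⟩
          rw [hdir, hDf]
          rfl
        have ht : tact (bact ua W) P₀ v.1 v.2.2 = .stay (D, v.2.2.2) := by
          unfold tact
          rw [hb]
          simp only [← hD, if_pos hDf]
        unfold vadv
        rw [ht]
        refine dt6_fin hc P₀ _ _ Wc _ _ _ ?_ ?_ ?_ ?_ ?_
        · rw [h0]
          rfl
        · rw [if_neg n3, if_neg n4, h1]
        · rw [if_neg n3, if_neg n4, hdir]
        · rw [hrs, if_neg (fun hh => hh.2 n5), if_neg g2, hbx]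
          simp only [hl]
        · intro i hi3
          rw [if_pos n5]
          exact (hi i hi3).symm
      · have n3 : bDoPush psh P₀ ((Fintype.card Γ + 1) ^ W) (Fintype.card Γ) Wc (kB kS v) := by
          refine ⟨n1, ?_⟩
          rw [hdir, Ne, dt6_d2]
          exact hDf
        have n5 : ¬ bBlk psh dpop P₀ ((Fintype.card Γ + 1) ^ W) (Fintype.card Γ) Wc (kB kS v) := by
          rintro (hh | hh)
          · exact n3.2 hh.2
          · exact n2 hh.1
        have ht : tact (bact ua W) P₀ v.1 v.2.2 =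
            .push (some true, (s', ⟨(z :: l).dropLast, hdl⟩))
              ((z :: l).getLast (List.cons_ne_nil _ _)) := by
          unfold tact
          rw [hb]
          simp only [← hD, if_neg hDf]
        unfold vadv
        rw [ht]
        refine dt6_fin hc P₀ _ _ Wc _ _ _ ?_ ?_ ?_ ?_ ?_
        · rw [h0]
          rfl
        · rw [if_pos n3, h1]
          rfl
        · rw [if_pos n3]
          rfl
        · rw [hrs, if_pos ⟨g1', n5⟩, hcz, q1]
        · intro i hi3
          rw [if_neg n5, hrs, if_neg (fun hh => g2 hh.1)]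
          exact (g3 y i hi3).symm
  | pop f =>
    obtain ⟨g1, g2, g3⟩ := h.pop _ _ hu
    have n1 : ¬ wPush psh ((Fintype.card Γ + 1) ^ W) (Fintype.card Γ) Wc (kB kS v) := by
      unfold wPush
      rw [hrs, g1]
      exact fun hh => hh.1 rfl
    have n3 : ¬ bDoPush psh P₀ ((Fintype.card Γ + 1) ^ W) (Fintype.card Γ) Wc (kB kS v) :=
      fun hh => n1 hh.1
    cases l with
    | nil =>
      have n2 : wPop dpop (kB kS v) := by
        unfold wPop
        rw [hrs, hbx]
        exact ⟨g2, rfl⟩
      have hb : bact ua W v.2.2.2 = .pop (fun z => (f z, ⟨[], Nat.zero_le _⟩)) := by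
        have hv : v.2.2.2 = (v.2.2.2.1, ⟨[], hlen⟩) := Prod.ext rfl hl
        rw [hv]
        exact dt6_bn _ _ _ hu
      have hbuf : (0 : ℕ) = bufc ([] : List Γ) / (Fintype.card Γ + 1) := by
        change 0 = 0 / (Fintype.card Γ + 1)
        rw [Nat.zero_div]
      by_cases hDt : D = some true
      · have n4 : ¬ bDoPop dpop P₀ (kB kS v) := by
          intro hh
          apply hh.2
          rw [hdir, hDt]
          rfl
        have n5 : bBlk psh dpop P₀ ((Fintype.card Γ + 1) ^ W) (Fintype.card Γ) Wc (kB kS v) := by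
          right
          refine ⟨n2, ?_⟩
          rw [hdir, hDt]
          rfl
        have ht : tact (bact ua W) P₀ v.1 v.2.2 = .stay (D, v.2.2.2) := by
          unfold tact
          rw [hb]
          simp only [← hD, if_pos hDt]
        unfold vadv
        rw [ht]
        refine dt6_fin hc P₀ _ _ Wc _ _ _ ?_ ?_ ?_ ?_ ?_
        · rw [h0]
          rfl
        · rw [if_neg n3, if_neg n4, h1]
        · rw [if_neg n3, if_neg n4, hdir]
        · rw [hrs, if_neg (fun hh => hh.1 g1), if_pos g2, hbx, ← hbuf]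
          simp only [hl]
          rfl
        · intro i hi3
          rw [if_pos n5]
          exact (hi i hi3).symm
      · have n4 : bDoPop dpop P₀ (kB kS v) := by
          refine ⟨n2, ?_⟩
          rw [hdir, Ne, dt6_d1]
          exact hDt
        have n5 : ¬ bBlk psh dpop P₀ ((Fintype.card Γ + 1) ^ W) (Fintype.card Γ) Wc (kB kS v) := by
          rintro (hh | hh)
          · exact n1 hh.1
          · exact n4.2 hh.2
        have ht : tact (bact ua W) P₀ v.1 v.2.2 =
            .pop (fun z => (some false, (f z, ⟨[], Nat.zero_le _⟩))) := by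
          unfold tact
          rw [hb]
          simp only [← hD, if_neg hDt]
        unfold vadv
        rw [ht]
        refine dt6_fin hc P₀ _ _ Wc _ _ _ ?_ ?_ ?_ ?_ ?_
        · rw [h0]
          rfl
        · rw [if_neg n3, if_pos n4, h1]
          rfl
        · rw [if_neg n3, if_pos n4]
          rfl
        · rw [hrs, if_neg (fun hh => hh.1 g1), if_pos g2, hbx, ← hbuf]
          rfl
        · intro i hi3
          rw [if_neg n5, hrs, hbx, if_neg (fun hh => hh.2 rfl)]
          exact (g3 y i hi3).symm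
    | cons z ys =>
      obtain ⟨q1, q2, q3⟩ := dt6_cons ys z
      have n2 : ¬ wPop dpop (kB kS v) := by
        unfold wPop
        rw [hbx]
        exact fun hh => q3 hh.2
      have n4 : ¬ bDoPop dpop P₀ (kB kS v) := fun hh => n2 hh.1
      have n5 : ¬ bBlk psh dpop P₀ ((Fintype.card Γ + 1) ^ W) (Fintype.card Γ) Wc (kB kS v) := by
        rintro (hh | hh)
        · exact n1 hh.1
        · exact n2 hh.1
      have hys : ys.length ≤ W := by
        simp only [List.length_cons] at hlen
        omega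
      have hb : bact ua W v.2.2.2 = .stay (f (some z), ⟨ys, hys⟩) := by
        have hv : v.2.2.2 = (v.2.2.2.1, ⟨z :: ys, hlen⟩) := Prod.ext rfl hl
        rw [hv]
        exact dt6_bc _ _ _ _ _ _ hu
      have ht : tact (bact ua W) P₀ v.1 v.2.2 = .stay (D, (f (some z), ⟨ys, hys⟩)) := by
        unfold tact
        rw [hb, hD]
      unfold vadv
      rw [ht]
      refine dt6_fin hc P₀ _ _ Wc _ _ _ ?_ ?_ ?_ ?_ ?_
      · rw [h0]
        rfl
      · rw [if_neg n3, if_neg n4, h1]
      · rw [if_neg n3, if_neg n4, hdir]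
      · rw [hrs, if_neg (fun hh => hh.1 g1), if_pos g2, hbx, q1]
      · intro i hi3
        rw [if_neg n5, hrs, hbx, if_pos ⟨g2, q3⟩, q2]
        exact (g3 (some z) i hi3).symm

/-- Piece DT-6. -/
theorem bpsh_eq (hc : 1 ≤ c) (h : NumOK ua kS adv psh dpop) (P₀ Wc : ℕ)
    (hW : (Fintype.card Γ + 1) ^ (W + 1) ≤ Wc) (v : TV N (Option Bool × BCtl S Γ W)) :
    bpsh psh P₀ ((Fintype.card Γ + 1) ^ W) (Fintype.card Γ) Wc (kB kS v) =
      oc (vpush (tact (bact ua W) P₀) v) := by
  classical
  have hrs := dt6_rs h v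
  have hbx := dt6_bx (kS := kS) v
  have hdir := dt6_dir (kS := kS) hc P₀ v
  have hcod := dt6_cod h Wc hW v
  obtain ⟨D, hD⟩ : ∃ D, D = (if (v.1 : ℕ) % P₀ = 0 then none else v.2.2.1) := ⟨_, rfl⟩
  rw [← hD] at hdir
  rcases hl : v.2.2.2.2 with ⟨l, hlen⟩
  rw [hl] at hbx hcod
  simp only at hbx hcod
  unfold bpsh vpush
  cases hu : ua v.2.2.2.1 with
  | stay s' =>
    obtain ⟨g1, g2, g3⟩ := h.stay _ _ hu
    have n3 : ¬ bDoPush psh P₀ ((Fintype.card Γ + 1) ^ W) (Fintype.card Γ) Wc (kB kS v) := by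
      intro hh
      apply hh.1.1
      rw [hrs, g1]
    have hb : bact ua W v.2.2.2 = .stay (s', v.2.2.2.2) := dt6_bs _ _ _ hu
    have ht : tact (bact ua W) P₀ v.1 v.2.2 = .stay (D, (s', v.2.2.2.2)) := by
      unfold tact
      rw [hb, hD]
    rw [if_neg n3, ht]
    rfl
  | push s' z =>
    obtain ⟨g1, g2, g3⟩ := h.push _ _ _ hu
    have g1' : psh (kS v.2.2.2.1) ≠ 0 := by
      rw [g1]
      exact Nat.succ_ne_zero _
    have hcz := hcod z g1
    by_cases hfit : (z :: l).length ≤ W
    · have n3 : ¬ bDoPush psh P₀ ((Fintype.card Γ + 1) ^ W) (Fintype.card Γ) Wc (kB kS v) := by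
        intro hh
        have h5 := hh.1.2
        rw [hcz] at h5
        exact (dt6_full l z).1 h5 hfit
      have hb : bact ua W v.2.2.2 = .stay (s', ⟨z :: l, hfit⟩) := by
        have hv : v.2.2.2 = (v.2.2.2.1, ⟨l, hlen⟩) := Prod.ext rfl hl
        rw [hv]
        exact dt6_bf _ _ _ _ _ hu hfit
      have ht : tact (bact ua W) P₀ v.1 v.2.2 = .stay (D, (s', ⟨z :: l, hfit⟩)) := by
        unfold tact
        rw [hb, hD]
      rw [if_neg n3, ht]
      rfl
    · have hlW : l.length = W := by
        simp only [List.length_cons] at hfit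
        omega
      have n1 : wPush psh ((Fintype.card Γ + 1) ^ W) (Fintype.card Γ) Wc (kB kS v) := by
        unfold wPush
        rw [hcz, hrs]
        exact ⟨g1', (dt6_full l z).2 hfit⟩
      obtain ⟨q1, q2⟩ := dt6_split l z hlW
      have hdl : (z :: l).dropLast.length ≤ W := by
        simp only [List.length_dropLast, List.length_cons]
        omega
      have hb : bact ua W v.2.2.2 = .push (s', ⟨(z :: l).dropLast, hdl⟩)
          ((z :: l).getLast (List.cons_ne_nil _ _)) := by
        have hv : v.2.2.2 = (v.2.2.2.1, ⟨l, hlen⟩) := Prod.ext rfl hl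
        rw [hv]
        exact dt6_bp _ _ _ _ _ hu hfit hdl
      by_cases hDf : D = some false
      · have n3 : ¬ bDoPush psh P₀ ((Fintype.card Γ + 1) ^ W) (Fintype.card Γ) Wc (kB kS v) := by
          intro hh
          apply hh.2
          rw [hdir, hDf]
          rfl
        have ht : tact (bact ua W) P₀ v.1 v.2.2 = .stay (D, v.2.2.2) := by
          unfold tact
          rw [hb]
          simp only [← hD, if_pos hDf]
        rw [if_neg n3, ht]
        rfl
      · have n3 : bDoPush psh P₀ ((Fintype.card Γ + 1) ^ W) (Fintype.card Γ) Wc (kB kS v) := by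
          refine ⟨n1, ?_⟩
          rw [hdir, Ne, dt6_d2]
          exact hDf
        have ht : tact (bact ua W) P₀ v.1 v.2.2 =
            .push (some true, (s', ⟨(z :: l).dropLast, hdl⟩))
              ((z :: l).getLast (List.cons_ne_nil _ _)) := by
          unfold tact
          rw [hb]
          simp only [← hD, if_neg hDf]
        rw [if_pos n3, ht, hcz, q2]
        have h6 := oc_lt (some ((z :: l).getLast (List.cons_ne_nil _ _)))
        have h7 : Fintype.card Γ + 1 ≤ (Fintype.card Γ + 1) ^ (W + 1) :=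
          Nat.le_self_pow (Nat.succ_ne_zero _) _
        simp only
        omega
  | pop f =>
    obtain ⟨g1, g2, g3⟩ := h.pop _ _ hu
    have n3 : ¬ bDoPush psh P₀ ((Fintype.card Γ + 1) ^ W) (Fintype.card Γ) Wc (kB kS v) := by
      intro hh
      apply hh.1.1
      rw [hrs, g1]
    rw [if_neg n3]
    cases l with
    | nil =>
      have hb : bact ua W v.2.2.2 = .pop (fun z => (f z, ⟨[], Nat.zero_le _⟩)) := by
        have hv : v.2.2.2 = (v.2.2.2.1, ⟨[], hlen⟩) := Prod.ext rfl hl
        rw [hv]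
        exact dt6_bn _ _ _ hu
      by_cases hDt : D = some true
      · have ht : tact (bact ua W) P₀ v.1 v.2.2 = .stay (D, v.2.2.2) := by
          unfold tact
          rw [hb]
          simp only [← hD, if_pos hDt]
        rw [ht]
        rfl
      · have ht : tact (bact ua W) P₀ v.1 v.2.2 =
            .pop (fun z => (some false, (f z, ⟨[], Nat.zero_le _⟩))) := by
          unfold tact
          rw [hb]
          simp only [← hD, if_neg hDt]
        rw [ht]
        rfl
    | cons z ys =>
      have hys : ys.length ≤ W := by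
        simp only [List.length_cons] at hlen
        omega
      have hb : bact ua W v.2.2.2 = .stay (f (some z), ⟨ys, hys⟩) := by
        have hv : v.2.2.2 = (v.2.2.2.1, ⟨z :: ys, hlen⟩) := Prod.ext rfl hl
        rw [hv]
        exact dt6_bc _ _ _ _ _ _ hu
      have ht : tact (bact ua W) P₀ v.1 v.2.2 = .stay (D, (f (some z), ⟨ys, hys⟩)) := by
        unfold tact
        rw [hb, hD]
      rw [ht]
      rfl

/-- Piece DT-6. -/
theorem bpop_eq (hc : 1 ≤ c) (h : NumOK ua kS adv psh dpop) (P₀ : ℕ)
    (v : TV N (Option Bool × BCtl S Γ W)) :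
    bDoPop dpop P₀ (kB kS v) ↔ vpop (tact (bact ua W) P₀) v = true := by
  have hrs := dt6_rs h v
  have hbx := dt6_bx (kS := kS) v
  have hdir := dt6_dir (kS := kS) hc P₀ v
  obtain ⟨D, hD⟩ : ∃ D, D = (if (v.1 : ℕ) % P₀ = 0 then none else v.2.2.1) := ⟨_, rfl⟩
  rw [← hD] at hdir
  rcases hl : v.2.2.2.2 with ⟨l, hlen⟩
  rw [hl] at hbx
  simp only at hbx
  unfold bDoPop wPop vpop
  rw [hrs, hbx, hdir, Ne, dt6_d1]
  cases hu : ua v.2.2.2.1 with
  | stay s' =>
    obtain ⟨g1, g2, g3⟩ := h.stay _ _ hu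
    have hb : bact ua W v.2.2.2 = .stay (s', v.2.2.2.2) := dt6_bs _ _ _ hu
    have ht : tact (bact ua W) P₀ v.1 v.2.2 = .stay (D, (s', v.2.2.2.2)) := by
      unfold tact
      rw [hb, hD]
    rw [ht]
    constructor
    · intro hh
      exact absurd hh.1.1 g2
    · intro hh
      simp at hh
  | push s' z =>
    obtain ⟨g1, g2, g3⟩ := h.push _ _ _ hu
    constructor
    · intro hh
      exact absurd hh.1.1 g2
    · intro hh
      exfalso
      have hv : v.2.2.2 = (v.2.2.2.1, ⟨l, hlen⟩) := Prod.ext rfl hl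
      by_cases hfit : (z :: l).length ≤ W
      · have hb : bact ua W v.2.2.2 = .stay (s', ⟨z :: l, hfit⟩) := by
          rw [hv]
          exact dt6_bf _ _ _ _ _ hu hfit
        have ht : tact (bact ua W) P₀ v.1 v.2.2 = .stay (D, (s', ⟨z :: l, hfit⟩)) := by
          unfold tact
          rw [hb, hD]
        rw [ht] at hh
        simp at hh
      · have hdl : (z :: l).dropLast.length ≤ W := by
          simp only [List.length_dropLast, List.length_cons]
          omega
        have hb : bact ua W v.2.2.2 = .push (s', ⟨(z :: l).dropLast, hdl⟩)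
            ((z :: l).getLast (List.cons_ne_nil _ _)) := by
          rw [hv]
          exact dt6_bp _ _ _ _ _ hu hfit hdl
        by_cases hDf : D = some false
        · have ht : tact (bact ua W) P₀ v.1 v.2.2 = .stay (D, v.2.2.2) := by
            unfold tact
            rw [hb]
            simp only [← hD, if_pos hDf]
          rw [ht] at hh
          simp at hh
        · have ht : tact (bact ua W) P₀ v.1 v.2.2 =
              .push (some true, (s', ⟨(z :: l).dropLast, hdl⟩))
                ((z :: l).getLast (List.cons_ne_nil _ _)) := by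
            unfold tact
            rw [hb]
            simp only [← hD, if_neg hDf]
          rw [ht] at hh
          simp at hh
  | pop f =>
    obtain ⟨g1, g2, g3⟩ := h.pop _ _ hu
    cases l with
    | nil =>
      have hb : bact ua W v.2.2.2 = .pop (fun z => (f z, ⟨[], Nat.zero_le _⟩)) := by
        have hv : v.2.2.2 = (v.2.2.2.1, ⟨[], hlen⟩) := Prod.ext rfl hl
        rw [hv]
        exact dt6_bn _ _ _ hu
      by_cases hDt : D = some true
      · have ht : tact (bact ua W) P₀ v.1 v.2.2 = .stay (D, v.2.2.2) := by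
          unfold tact
          rw [hb]
          simp only [← hD, if_pos hDt]
        rw [ht]
        constructor
        · intro hh
          exact absurd hDt hh.2
        · intro hh
          simp at hh
      · have ht : tact (bact ua W) P₀ v.1 v.2.2 =
            .pop (fun z => (some false, (f z, ⟨[], Nat.zero_le _⟩))) := by
          unfold tact
          rw [hb]
          simp only [← hD, if_neg hDt]
        rw [ht]
        constructor
        · intro _
          rfl
        · intro _
          exact ⟨⟨g2, rfl⟩, hDt⟩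
    | cons z ys =>
      obtain ⟨q1, q2, q3⟩ := dt6_cons ys z
      have hys : ys.length ≤ W := by
        simp only [List.length_cons] at hlen
        omega
      have hb : bact ua W v.2.2.2 = .stay (f (some z), ⟨ys, hys⟩) := by
        have hv : v.2.2.2 = (v.2.2.2.1, ⟨z :: ys, hlen⟩) := Prod.ext rfl hl
        rw [hv]
        exact dt6_bc _ _ _ _ _ _ hu
      have ht : tact (bact ua W) P₀ v.1 v.2.2 = .stay (D, (f (some z), ⟨ys, hys⟩)) := by
        unfold tact
        rw [hb, hD]
      rw [ht]
      constructor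
      · intro hh
        exact absurd hh.1.2 q3
      · intro hh
        simp at hh

end

end Pool.Agent.Helper17.TV
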