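import Pool.Agent.Helper17.TV.BNum
import Pool.Agent.Helper68.UL.Phi0FL
import Pool.Agent.Helper17.UL.MachBd

set_option autoImplicit false

/-!
Deep turns: bounds and computability of the numeric form of the timed buffered machine.
-/

namespace Pool.Agent.Helper17.TV

open Pool.Agent.Helper17.SL Pool.Agent.Helper17.UL Pool.Agent.Helper17.TU Pool.Agent.Helper6

section bd

variable {c N P0 Θ G Wc B : ℕ} {adv : (Fin (c + 2) → ℕ) → ℕ → Fin (c + 2) → ℕ}
  {psh : (Fin (c + 2) → ℕ) → ℕ} {dpop : (Fin (c + 2) → ℕ) → Prop}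

/-- Piece DT-7. -/
theorem badv_lt (ha : ∀ x y, (∀ i, x i < B) → y < B → ∀ i, adv x y i < B) (hN : N < B)
    (hΘ : Θ < B) (hΘ0 : 0 < Θ) (h2 : 2 < B) (x : Fin (c + 1 + 2) → ℕ) (y : ℕ)
    (hx : ∀ i, x i < B) (hy : y < B) (i : Fin (c + 1 + 2)) :
    badv adv psh dpop N P0 Θ G Wc x y i < B := by
  unfold badv
  split_ifs
  · exact (Nat.mod_lt _ hΘ0).trans hΘ
  · exact lt_of_le_of_lt (Nat.div_le_self _ _) (hx _)
  · exact hx _
  · exact lt_of_le_of_lt (min_le_right _ _) hN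
  · exact lt_of_le_of_lt (min_le_right _ _) hN
  · exact lt_of_le_of_lt (min_le_right _ _) hN
  · exact hx _
  · omega
  · omega
  · unfold bDir
    split_ifs
    · omega
    · exact hx _
  · exact hx _
  · refine ha _ _ ?_ (lt_of_le_of_lt (Nat.mod_le _ _) (hx _)) _
    intro j
    unfold rs
    split_ifs
    · exact hx _
    · omega
  · refine ha _ _ ?_ hy _
    intro j
    unfold rs
    split_ifs
    · exact hx _
    · omega

/-- Piece DT-7. -/
theorem bpsh_lt (hG : G < B) (x : Fin (c + 1 + 2) → ℕ) : bpsh psh P0 Θ G Wc x < B := by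
  unfold bpsh
  split_ifs
  · exact lt_of_le_of_lt (min_le_right _ _) (lt_of_le_of_lt (min_le_left _ _) hG)
  · omega

end bd

section dt7

variable {β V : Type} [Finite V] {f : List β → (V → ℕ) → ℕ}

theorem dt7_cst (G : ℕ) : IsL β V (fun w _ => G + 1 ≤ w.length + 1) := by
  refine IsL.congr (isL_comp (U := Unit) (isL_const (G + 1) ())
    (fun _ => FL.const (V := V) (G + 1))) ?_
  intro w x _
  show G + 1 ≤ w.length + 1 ↔ min (G + 1) (w.length + 1) = G + 1
  omega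

theorem dt7_div (hf : FL β V f) (G : ℕ) : FL β V (fun w x => f w x / (G + 1)) := by
  refine FL.congr (FL.ite (dt7_cst G) (FL.div hf (FL.const (G + 1))) FL.zero) ?_
  intro w x hx
  have h := hf.bd w x hx
  show f w x / (G + 1) = if G + 1 ≤ w.length + 1 then f w x / min (G + 1) (w.length + 1) else 0
  split_ifs with h1
  · rw [min_eq_left h1]
  · exact Nat.div_eq_of_lt (by omega)

theorem dt7_mod (hf : FL β V f) (G : ℕ) : FL β V (fun w x => f w x % (G + 1)) := by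
  refine FL.congr (FL.ite (dt7_cst G) (FL.mod hf (FL.const (G + 1))) hf) ?_
  intro w x hx
  have h := hf.bd w x hx
  show f w x % (G + 1) =
    if G + 1 ≤ w.length + 1 then f w x % min (G + 1) (w.length + 1) else f w x
  split_ifs with h1
  · rw [min_eq_left h1]
  · exact Nat.mod_eq_of_lt (by omega)

theorem dt7_rs {c : ℕ} (i : Fin (c + 2)) :
    FL β (Fin (c + 1 + 2)) (fun _ x => rs x i) := by
  by_cases h : 3 ≤ (i : ℕ)
  · refine FL.congr (FL.proj (⟨i, by omega⟩ : Fin (c + 1 + 2))) ?_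
    intro w x _
    exact if_pos h
  · refine FL.congr FL.zero ?_
    intro w x _
    exact if_neg h

end dt7

section fl

variable {β : Type} {c : ℕ} {adv : List β → (Fin (c + 2) → ℕ) → ℕ → Fin (c + 2) → ℕ}
  {psh : List β → (Fin (c + 2) → ℕ) → ℕ} {dpop : List β → (Fin (c + 2) → ℕ) → Prop}
  {N P0 Θ : List β → ℕ}
  (hadv : ∀ i, FL β (Fin (c + 2) ⊕ Unit)
    (fun w z => adv w (z ∘ Sum.inl) (z (Sum.inr ())) i))
  (hpsh : FL β (Fin (c + 2)) (fun w x => psh w x))
  (hpop : IsL β (Fin (c + 2)) (fun w x => dpop w x))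
  (hN : FL β Empty (fun w _ => N w)) (hP0 : FL β Empty (fun w _ => P0 w))
  (hΘ : FL β Empty (fun w _ => Θ w)) (G : ℕ)

include hpsh in
theorem dt7_psh : FL β (Fin (c + 1 + 2)) (fun w x => psh w (rs x)) :=
  FL.comp hpsh (g := fun i _ x => rs x i) (fun i => dt7_rs i)

include hpop in
theorem dt7_pop : IsL β (Fin (c + 1 + 2)) (fun w x => dpop w (rs x)) :=
  isL_comp hpop (g := fun i _ x => rs x i) (fun i => dt7_rs i)

include hpsh in
theorem dt7_cod : FL β (Fin (c + 1 + 2)) (fun w x => bcod (psh w) G (w.length + 1) x) := by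
  refine FL.congr (FL.add (dt7_psh hpsh) (FL.mul (FL.const (G + 1)) (FL.proj bx))) ?_
  intro w x _
  unfold bcod
  rw [min_mul_cap]

include hP0 in
theorem dt7_dir : FL β (Fin (c + 1 + 2)) (fun w x => bDir (P0 w) x) :=
  FL.ite (isL_eq (FL.mod (FL.proj 0) (FL.ofEmpty hP0)) FL.zero) FL.zero
    (FL.proj (⟨2, by omega⟩ : Fin (c + 1 + 2)))

include hP0 in
theorem dt7_isDir (m : ℕ) : IsL β (Fin (c + 1 + 2)) (fun w x => bDir (P0 w) x = m) :=
  isL_comp (U := Unit) (isL_const m ()) (fun _ => dt7_dir hP0)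

include hpsh hΘ in
theorem dt7_wPush : IsL β (Fin (c + 1 + 2)) (fun w x =>
    wPush (psh w) (Θ w) G (w.length + 1) x) :=
  IsL.and (IsL.not (isL_eq (dt7_psh hpsh) FL.zero)) (isL_le (FL.ofEmpty hΘ) (dt7_cod hpsh G))

include hpop in
theorem dt7_wPop : IsL β (Fin (c + 1 + 2)) (fun w x => wPop (dpop w) x) :=
  IsL.and (dt7_pop hpop) (IsL.isZero bx)

include hpsh hP0 hΘ in
theorem dt7_doPush : IsL β (Fin (c + 1 + 2)) (fun w x =>
    bDoPush (psh w) (P0 w) (Θ w) G (w.length + 1) x) :=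
  IsL.and (dt7_wPush hpsh hΘ G) (IsL.not (dt7_isDir hP0 2))

include hpsh hpop hP0 hΘ in
theorem dt7_blk : IsL β (Fin (c + 1 + 2)) (fun w x =>
    bBlk (psh w) (dpop w) (P0 w) (Θ w) G (w.length + 1) x) :=
  IsL.or (IsL.and (dt7_wPush hpsh hΘ G) (dt7_isDir hP0 2))
    (IsL.and (dt7_wPop hpop) (dt7_isDir hP0 1))

include hpsh hP0 hΘ in
/-- Piece DT-7. -/
theorem bpsh_FL : FL β (Fin (c + 1 + 2)) (fun w x =>
    bpsh (psh w) (P0 w) (Θ w) G (w.length + 1) x) := by
  classical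
  refine FL.congr (FL.ite (dt7_doPush hpsh hP0 hΘ G)
    (FL.min' (FL.div (dt7_cod hpsh G) (FL.ofEmpty hΘ)) (FL.const G)) FL.zero) ?_
  intro w x _
  unfold bpsh
  split_ifs <;> rfl

include hpop hP0 in
/-- Piece DT-7. -/
theorem bpop_isL : IsL β (Fin (c + 1 + 2)) (fun w x => bDoPop (dpop w) (P0 w) x) :=
  IsL.and (dt7_wPop hpop) (IsL.not (dt7_isDir hP0 1))

include hadv hpsh hpop hN hP0 hΘ in
/-- Piece DT-7. -/
theorem badv_FL (i : Fin (c + 1 + 2)) :
    FL β (Fin (c + 1 + 2) ⊕ Unit) (fun w z =>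
      min (badv (adv w) (psh w) (dpop w) (N w) (P0 w) (Θ w) G (w.length + 1) (z ∘ Sum.inl)
        (z (Sum.inr ())) i) (w.length + 1)) := by
  classical
  have lft : ∀ {S : List β → (Fin (c + 1 + 2) → ℕ) → Prop},
      IsL β (Fin (c + 1 + 2)) S →
      IsL β (Fin (c + 1 + 2) ⊕ Unit) (fun w z => S w (z ∘ Sum.inl)) := fun h =>
    IsL.lift h (Sum.inl : Fin (c + 1 + 2) → Fin (c + 1 + 2) ⊕ Unit) Sum.inl_injective
  have hx : ∀ j : Fin (c + 1 + 2),
      FL β (Fin (c + 1 + 2) ⊕ Unit) (fun _ z => z (Sum.inl j)) := fun j => FL.proj _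
  have hy : FL β (Fin (c + 1 + 2) ⊕ Unit) (fun _ z => z (Sum.inr ())) := FL.proj _
  have hN' : FL β (Fin (c + 1 + 2) ⊕ Unit) (fun w _ => N w) := FL.ofEmpty hN
  have hΘ' : FL β (Fin (c + 1 + 2) ⊕ Unit) (fun w _ => Θ w) := FL.ofEmpty hΘ
  have hPu := lft (dt7_doPush hpsh hP0 hΘ G)
  have hPo := lft (bpop_isL hpop hP0)
  have hBl := lft (dt7_blk hpsh hpop hP0 hΘ G)
  have hdp := lft (dt7_pop hpop)
  have hps : IsL β (Fin (c + 1 + 2) ⊕ Unit) (fun w z => psh w (rs (z ∘ Sum.inl)) ≠ 0) :=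
    lft (IsL.not (isL_eq (dt7_psh hpsh) FL.zero))
  have hb0 : IsL β (Fin (c + 1 + 2) ⊕ Unit) (fun _ z => z (Sum.inl bx) ≠ 0) :=
    IsL.not (IsL.isZero _)
  have hco : FL β (Fin (c + 1 + 2) ⊕ Unit) (fun w z =>
      bcod (psh w) G (w.length + 1) (z ∘ Sum.inl)) := FL.inl (U := Unit) (dt7_cod hpsh G)
  have hD : FL β (Fin (c + 1 + 2) ⊕ Unit) (fun w z => bDir (P0 w) (z ∘ Sum.inl)) :=
    FL.inl (U := Unit) (dt7_dir hP0)
  by_cases hb : (i : ℕ) = c + 2
  · refine FL.congr (FL.ite (IsL.and hps (IsL.not hBl)) (FL.mod hco hΘ')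
      (FL.ite hdp (dt7_div (hx i) G) (hx i))) ?_
    intro w z hz
    have h1 := hz (Sum.inl i)
    have h2 := hco.bd w z hz
    have h3 := Nat.mod_le (bcod (psh w) G (w.length + 1) (z ∘ Sum.inl)) (Θ w)
    have h4 := Nat.div_le_self (z (Sum.inl i)) (G + 1)
    simp only [badv, dif_pos hb, Function.comp_apply]
    split_ifs <;> omega
  by_cases h0 : (i : ℕ) = 0
  · refine FL.congr (FL.min' (hx 0).succ hN') ?_
    intro w z hz
    have h1 := hN'.bd w z hz
    simp only [badv, dif_neg hb, if_pos h0, Function.comp_apply]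
    omega
  by_cases h1 : (i : ℕ) = 1
  · refine FL.congr (FL.ite hPu (FL.min' (hx 1).succ hN')
      (FL.ite hPo (FL.min' (hx 1).pred hN') (hx 1))) ?_
    intro w z hz
    have h2 := hN'.bd w z hz
    have h3 := hz (Sum.inl 1)
    simp only [badv, dif_neg hb, if_neg h0, if_pos h1, Function.comp_apply]
    split_ifs <;> omega
  by_cases h2 : (i : ℕ) = 2
  · refine FL.congr (FL.ite hPu FL.one (FL.ite hPo (FL.const 2) hD)) ?_
    intro w z hz
    have h3 := hD.bd w z hz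
    simp only [badv, dif_neg hb, if_neg h0, if_neg h1, if_pos h2]
    split_ifs <;> omega
  · have hyy : FL β (Fin (c + 1 + 2) ⊕ Unit) (fun w z =>
        if dpop w (rs (z ∘ Sum.inl)) ∧ z (Sum.inl bx) ≠ 0 then z (Sum.inl bx) % (G + 1)
          else z (Sum.inr ())) := FL.ite (IsL.and hdp hb0) (dt7_mod (hx bx) G) hy
    have hrs : ∀ j : Fin (c + 2), FL β (Fin (c + 1 + 2) ⊕ Unit) (fun _ z =>
        rs (z ∘ Sum.inl) j) := fun j => FL.inl (U := Unit) (dt7_rs j)
    have hA : FL β (Fin (c + 1 + 2) ⊕ Unit) (fun w z => adv w (rs (z ∘ Sum.inl))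
        (if dpop w (rs (z ∘ Sum.inl)) ∧ z (Sum.inl bx) ≠ 0 then z (Sum.inl bx) % (G + 1)
          else z (Sum.inr ())) ⟨i, by omega⟩) := by
      refine FL.congr (FL.comp (hadv ⟨i, by omega⟩) (g := fun s w z => match s with
        | Sum.inl j => rs (z ∘ Sum.inl) j
        | Sum.inr _ => if dpop w (rs (z ∘ Sum.inl)) ∧ z (Sum.inl bx) ≠ 0 then
            z (Sum.inl bx) % (G + 1) else z (Sum.inr ())) ?_) ?_
      · rintro (j | j)
        · exact hrs j
        · exact hyy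
      · intro w z _
        rfl
    refine FL.congr (FL.ite hBl (hx i) hA) ?_
    intro w z hz
    have h3 := hz (Sum.inl i)
    have h4 := hA.bd w z hz
    simp only [badv, dif_neg hb, if_neg h0, if_neg h1, if_neg h2, Function.comp_apply]
    have e : ∀ a b : ℕ, a ≤ b → min a b = a := fun a b h => min_eq_left h
    by_cases hB : bBlk (psh w) (dpop w) (P0 w) (Θ w) G (w.length + 1) (z ∘ Sum.inl)
    · rw [if_pos hB]
      exact e _ _ h3
    · rw [if_neg hB]
      exact e _ _ h4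

end fl

end Pool.Agent.Helper17.TV
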