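import Pool.Agent.Helper17.TV.BNumEq

set_option autoImplicit false

/-!
Deep turns: the block length is large enough.
-/

namespace Pool.Agent.Helper17.TV

open Pool.Agent.Helper17.SL Pool.Agent.Helper17.UL Pool.Agent.Helper17.TU

private theorem dt12_inj {Γ : Type} [Fintype Γ] (l l' : List Γ) (h : bufc l = bufc l') :
    l = l' := by
  induction l generalizing l' with
  | nil =>
    cases l' with
    | nil => rfl
    | cons y l' =>
      exfalso
      change 0 = oc (some y) + (Fintype.card Γ + 1) * bufc l' at h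
      have h1 : oc (some y) = fc y + 1 := rfl
      omega
  | cons x l ih =>
    cases l' with
    | nil =>
      exfalso
      change oc (some x) + (Fintype.card Γ + 1) * bufc l = 0 at h
      have h1 : oc (some x) = fc x + 1 := rfl
      omega
    | cons y l' =>
      change oc (some x) + (Fintype.card Γ + 1) * bufc l =
        oc (some y) + (Fintype.card Γ + 1) * bufc l' at h
      have h1 := oc_lt (some x)
      have h2 := oc_lt (some y)
      have h3 : oc (some x) = oc (some y) := by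
        have := congrArg (fun z => z % (Fintype.card Γ + 1)) h
        simpa only [Nat.add_mul_mod_self_left, Nat.mod_eq_of_lt h1, Nat.mod_eq_of_lt h2] using this
      have h4 : bufc l = bufc l' := by
        rw [h3] at h
        exact Nat.eq_of_mul_eq_mul_left (Nat.succ_pos _) (Nat.add_left_cancel h)
      rw [ih l' h4, Option.some_inj.1 (oc_inj h3)]

/-- Piece DT-12. `bufc` is injective on lists of length `≤ W` (digits `≠ 0`) and `bufc_lt`. -/
theorem card_pend_le (Γ : Type) [Fintype Γ] (W : ℕ) [Fintype (Pend Γ W)] :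
    Fintype.card (Pend Γ W) ≤ (Fintype.card Γ + 1) ^ W := by
  have h1 : ∀ l : Pend Γ W, bufc l.1 < (Fintype.card Γ + 1) ^ W := fun l =>
    (bufc_lt l.1).trans_le (Nat.pow_le_pow_right (Nat.succ_pos _) l.2)
  have h2 := Fintype.card_le_of_injective
    (fun l : Pend Γ W => (⟨bufc l.1, h1 l⟩ : Fin ((Fintype.card Γ + 1) ^ W))) (by
      intro l l' h
      exact Subtype.ext (dt12_inj _ _ (congrArg Fin.val h)))
  rwa [Fintype.card_fin] at h2

/-- Piece DT-12. Compare `block_bound` in `TU/Core.lean`. With `c1 = card Q * (card (Pend Γ R) *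
(card Γ + 1))`, `G = card Γ`: the number of controls is at most
`c1 * (n + 2) ^ k * (G + 1) ^ y ≤ 2 ^ ((c1 + k + G) * y)`. -/
theorem block_bound2 {Q Γ : Type} [Fintype Q] [Fintype Γ] (k n R y t : ℕ) [Fintype (Pend Γ R)]
    [Fintype (BCtl (UCtl Q Γ k n R) Γ y)] (hy : 1 ≤ y) (hn : n + 2 ≤ 2 ^ y)
    (ht : 2 * t ≤ 2 ^ y) (κ : ℕ)
    (hκ : 2 * (Fintype.card Q * (Fintype.card (Pend Γ R) * (Fintype.card Γ + 1)) + k +
      Fintype.card Γ + 2) + 3 ≤ κ) :
    2 * t * ((2 * t * Fintype.card (BCtl (UCtl Q Γ k n R) Γ y) + 2) *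
      Fintype.card (BCtl (UCtl Q Γ k n R) Γ y)) ≤ 2 ^ (κ * y) := by
  haveI : Finite (Pend Γ y) := (List.finite_length_le Γ y).to_subtype
  letI : Fintype (Pend Γ y) := Fintype.ofFinite _
  obtain ⟨c1, hc1⟩ : ∃ c1, c1 = Fintype.card Q * (Fintype.card (Pend Γ R) *
    (Fintype.card Γ + 1)) := ⟨_, rfl⟩
  obtain ⟨G, hG⟩ : ∃ G, G = Fintype.card Γ := ⟨_, rfl⟩
  rw [← hc1, ← hG] at hκ
  have hM : Fintype.card (BCtl (UCtl Q Γ k n R) Γ y) =
      c1 * (n + 2) ^ k * Fintype.card (Pend Γ y) := by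
    have h1 : Fintype.card (BCtl (UCtl Q Γ k n R) Γ y) =
        Fintype.card (UCtl Q Γ k n R) * Fintype.card (Pend Γ y) := by
      rw [← Nat.card_eq_fintype_card, ← Nat.card_eq_fintype_card, ← Nat.card_eq_fintype_card,
        Nat.card_prod]
    rw [h1]
    congr 1
    simp only [Fintype.card_prod, Fintype.card_fun, Fintype.card_fin, Fintype.card_option]
    rw [hc1]
    ring
  obtain ⟨M, hMd⟩ : ∃ M, M = Fintype.card (BCtl (UCtl Q Γ k n R) Γ y) := ⟨_, rfl⟩
  rw [← hMd] at hM ⊢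
  have hp : Fintype.card (Pend Γ y) ≤ 2 ^ (G * y) := by
    refine (card_pend_le Γ y).trans ?_
    rw [← hG, pow_mul]
    exact Nat.pow_le_pow_left (Nat.lt_two_pow_self (n := G)) y
  have hME : M ≤ 2 ^ ((c1 + k + G) * y) := by
    have e1 : c1 ≤ 2 ^ (c1 * y) :=
      (Nat.lt_two_pow_self (n := c1)).le.trans
        (Nat.pow_le_pow_right (by norm_num) (Nat.le_mul_of_pos_right _ hy))
    have e2 : (n + 2) ^ k ≤ 2 ^ (k * y) := by
      rw [mul_comm k y, pow_mul]
      exact Nat.pow_le_pow_left hn k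
    rw [hM, add_mul, add_mul, pow_add, pow_add]
    exact Nat.mul_le_mul (Nat.mul_le_mul e1 e2) hp
  obtain ⟨E, hE⟩ : ∃ E, E = (c1 + k + G) * y := ⟨_, rfl⟩
  rw [← hE] at hME
  have h2 : 2 * t * M + 2 ≤ 2 ^ (y + E + 1) := by
    have e1 : 2 * t * M ≤ 2 ^ (y + E) := by
      rw [pow_add]
      exact Nat.mul_le_mul ht hME
    have e2 : 2 ^ 1 ≤ 2 ^ (y + E) := Nat.pow_le_pow_right (by norm_num) (by omega)
    rw [pow_succ]
    omega
  calc 2 * t * ((2 * t * M + 2) * M) ≤ 2 ^ y * (2 ^ (y + E + 1) * 2 ^ E) :=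
        Nat.mul_le_mul ht (Nat.mul_le_mul h2 hME)
    _ = 2 ^ (2 * y + 2 * E + 1) := by
        rw [← pow_add, ← pow_add]
        congr 1
        ring
    _ ≤ 2 ^ (κ * y) := by
        refine Nat.pow_le_pow_right (by norm_num) ?_
        calc 2 * y + 2 * E + 1 ≤ 2 * y + 2 * ((c1 + k + G) * y) + y := by rw [hE]; omega
          _ = (2 * (c1 + k + G) + 3) * y := by ring
          _ ≤ κ * y := Nat.mul_le_mul_right _ (by omega)

end Pool.Agent.Helper17.TV
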