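import Pool.Agent.Helper17.TU.UMach

set_option autoImplicit false

/-!
Deep turns: the buffered machine. The top of the stack is kept in a buffer of length at most `W`;
a symbol is pushed on the real stack only when the buffer is full, and popped only when the buffer
is empty.
-/

namespace Pool.Agent.Helper17.TV

open Pool.Agent.Helper17.SL Pool.Agent.Helper17.TU

variable {S Γ : Type}

/-- Controls of the buffered machine: control and buffer (top first). -/
abbrev BCtl (S Γ : Type) (W : ℕ) : Type := S × Pend Γ W

/-- The buffered machine. Each step corresponds to one step of the machine `ua`. -/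
def bact (ua : S → TAct S Γ) (W : ℕ) (s : BCtl S Γ W) : TAct (BCtl S Γ W) Γ :=
  match ua s.1 with
  | .stay s' => .stay (s', s.2)
  | .push s' y =>
    if h : (y :: s.2.1).length ≤ W then .stay (s', ⟨y :: s.2.1, h⟩)
    else .push (s', ⟨(y :: s.2.1).dropLast, by
      have := s.2.2
      simp only [List.length_dropLast, List.length_cons]
      omega⟩) ((y :: s.2.1).getLast (List.cons_ne_nil _ _))
  | .pop k =>
    match s.2 with
    | ⟨[], _⟩ => .pop (fun z => (k z, ⟨[], Nat.zero_le _⟩))
    | ⟨y :: ys, h⟩ => .stay (k (some y), ⟨ys, by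
      simp only [List.length_cons] at h
      omega⟩)

private theorem dt1_step (ua : S → TAct S Γ) (W : ℕ) (c : BCtl S Γ W × List Γ)
    (d : S × List Γ) (h1 : c.1.1 = d.1) (h2 : c.1.2.1 ++ c.2 = d.2) :
    ((bact ua W c.1).app c.2).1.1 = ((ua d.1).app d.2).1 ∧
    ((bact ua W c.1).app c.2).1.2.1 ++ ((bact ua W c.1).app c.2).2 = ((ua d.1).app d.2).2 := by
  obtain ⟨⟨s, ⟨b, hb⟩⟩, l⟩ := c
  obtain ⟨s', l'⟩ := d
  simp only at h1 h2
  subst h1
  subst h2
  unfold bact
  cases hu : ua s with
  | stay s' => simp [TAct.app]
  | push s' y =>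
    simp only
    split_ifs with h
    · simp [TAct.app]
    · simp only [TAct.app, true_and]
      have := List.dropLast_append_getLast (l := y :: b) (List.cons_ne_nil _ _)
      calc (y :: b).dropLast ++ (y :: b).getLast (List.cons_ne_nil _ _) :: l
          = ((y :: b).dropLast ++ [(y :: b).getLast (List.cons_ne_nil _ _)]) ++ l := by simp
        _ = (y :: b) ++ l := by rw [this]
        _ = _ := rfl
  | pop k =>
    cases b with
    | nil => simp [TAct.app]
    | cons y ys => simp [TAct.app]

/-- Piece DT-1. The buffered machine follows `ua`; the buffer followed by the real stack is the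
stack of `ua`. -/
theorem brun (ua : S → TAct S Γ) (W : ℕ) (s0 : S) (j : ℕ) :
    (urun (bact ua W) ((s0, ⟨[], Nat.zero_le _⟩), []) j).1.1 = (urun ua (s0, []) j).1 ∧
    (urun (bact ua W) ((s0, ⟨[], Nat.zero_le _⟩), []) j).1.2.1 ++
      (urun (bact ua W) ((s0, ⟨[], Nat.zero_le _⟩), []) j).2 = (urun ua (s0, []) j).2 := by
  induction j with
  | zero => exact ⟨rfl, rfl⟩
  | succ j ih => exact dt1_step ua W _ _ ih.1 ih.2

/-- Piece DT-1. Before a real push the buffer is full; after it the buffer is full and the stack
has grown. -/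
theorem bact_push (ua : S → TAct S Γ) (W : ℕ) (c : BCtl S Γ W × List Γ)
    (h : (bact ua W c.1).kind = some true) :
    c.1.2.1.length = W ∧ (((bact ua W c.1).app c.2).1.2.1).length = W ∧
      ((bact ua W c.1).app c.2).2.length = c.2.length + 1 := by
  obtain ⟨⟨s, ⟨b, hb⟩⟩, l⟩ := c
  unfold bact at h ⊢
  cases hu : ua s with
  | stay s' => simp [hu, TAct.kind] at h
  | push s' y =>
    simp only [hu] at h ⊢
    split_ifs at h ⊢ with hW
    · simp [TAct.kind] at h
    · simp only [List.length_cons, not_le] at hW
      have e : b.length = W := by omega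
      refine ⟨e, ?_, rfl⟩
      simp only [TAct.app, List.length_dropLast, List.length_cons]
      exact e
  | pop k =>
    cases b with
    | nil => simp [hu, TAct.kind] at h
    | cons y ys => simp [hu, TAct.kind] at h

/-- Piece DT-1. Before and after a real pop the buffer is empty. -/
theorem bact_pop (ua : S → TAct S Γ) (W : ℕ) (c : BCtl S Γ W × List Γ)
    (h : (bact ua W c.1).kind = some false) :
    c.1.2.1 = [] ∧ ((bact ua W c.1).app c.2).1.2.1 = [] ∧
      ((bact ua W c.1).app c.2).2 = c.2.tail := by
  obtain ⟨⟨s, ⟨b, hb⟩⟩, l⟩ := c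
  unfold bact at h ⊢
  cases hu : ua s with
  | stay s' => simp [hu, TAct.kind] at h
  | push s' y =>
    simp only [hu] at h
    split_ifs at h with hW <;> simp [TAct.kind] at h
  | pop k =>
    cases b with
    | nil => simp [TAct.app]
    | cons y ys => simp [hu, TAct.kind] at h

/-- Piece DT-1. Other steps do not change the real stack. -/
theorem bact_stay (ua : S → TAct S Γ) (W : ℕ) (c : BCtl S Γ W × List Γ)
    (h : (bact ua W c.1).kind = none) : ((bact ua W c.1).app c.2).2 = c.2 := by
  cases hb : bact ua W c.1 with
  | stay s => rfl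
  | push s y => simp [hb, TAct.kind] at h
  | pop k => simp [hb, TAct.kind] at h

end Pool.Agent.Helper17.TV
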