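import Pool.Agent.Helper17.TU.PrmCh

set_option autoImplicit false

/-!
Deep turns: choice of the length of the prefix and of the number of scales.
-/

namespace Pool.Agent.Helper17.TV

open Pool.Agent.Helper17.UL Pool.Agent.Helper17.TU

/-- An integer of binary length `l + 1` with given remainder modulo `l + 1`. -/
private theorem dt10_int (l y : ℕ) (hl : 3 ≤ l) (hy : y ≤ l) :
    ∃ j : ℕ, 2 ^ l ≤ j ∧ j < 2 ^ (l + 1) ∧ Nat.log 2 j = l ∧ j % (l + 1) = y := by
  have h0 : 2 * l + 1 < 2 ^ l := by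
    clear hy
    induction l, hl using Nat.le_induction with
    | base => norm_num
    | succ k hk ih =>
      rw [pow_succ]
      omega
  obtain ⟨P, hP⟩ : ∃ P, P = 2 ^ l := ⟨_, rfl⟩
  have h1 := Nat.div_add_mod P (l + 1)
  have h2 := Nat.mod_lt P (by omega : 0 < l + 1)
  have e1 : (l + 1) * (P / (l + 1) + 1) = (l + 1) * (P / (l + 1)) + (l + 1) := by ring
  have e2 : 2 ^ (l + 1) = 2 * P := by rw [hP, pow_succ]; ring
  obtain ⟨j, hj⟩ : ∃ j, j = y + (l + 1) * (P / (l + 1) + 1) := ⟨_, rfl⟩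
  have hj1 : 2 ^ l ≤ j := by omega
  have hj2 : j < 2 ^ (l + 1) := by omega
  refine ⟨j, hj1, hj2, ?_, ?_⟩
  · exact (Nat.log_eq_iff (Or.inr ⟨by norm_num, by omega⟩)).mpr ⟨hj1, hj2⟩
  · rw [hj, Nat.add_mul_mod_self_left]
    exact Nat.mod_eq_of_lt (by omega)

/-- Piece DT-10. Let `Λ = log (n + t + 16)`, `S = Λ + h`, `ρ = log t / log S`, `X = S (1 + ρ)`,
`L = Nat.log 2 (n + m)`, `l = L - 1`. Take `y = Nat.log 2 (n + t + 16) + h + 2` (then `y ≤ 3 S`,
`S ≤ y`) and `j` in `[2 ^ l, 2 ^ (l + 1))` with `j % (l + 1) = y`; then `Nat.log 2 j = l`,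
`j ≤ n + m`. For `C` large (say `16 + 4 K0 + 40 C0`): `l ≥ 16 C0 X`, `j ≥ m / 4` etc. For the last
claim (compare `choice_complete` in `TU/PrmCh.lean`): if the minimum in `eE` is `qCap y`, use
`2 t ≤ 2 ^ y ≤ qM y ^ qCap y` (`prmE_exact`); otherwise `le_qM_pow` with `z = qZ y`,
`2 (Nat.log 2 (2 t) + 1) ≤ z E'`, `E' + 1 ≤ 4 ρ + 4`, `(E' + 1) C0 y ≤ 12 C0 X`. -/
theorem choice2 (C0 K0 : ℕ) (hC0 : 1 ≤ C0) : ∃ C : ℝ, 0 < C ∧ ∀ n t h m : ℕ, 1 ≤ t →
    Real.exp (C * ((Real.log (n + t + 16) + h) *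
      (1 + Real.log t / Real.log (Real.log (n + t + 16) + h)))) ≤ m →
    ∃ j y : ℕ, K0 ≤ j ∧ n + 16 ≤ j ∧ j ≤ n + m ∧ y = j % (Nat.log 2 j + 1) ∧ 4 ≤ y ∧
      C0 * y ≤ Nat.log 2 j ∧ n + 2 ≤ 2 ^ y ∧ 2 * t ≤ 2 ^ y ∧ h < y ∧
      2 * t ≤ qM y ^ eE C0 y j := by
  refine ⟨4 * K0 + 12 * C0 + 16, by positivity, fun n t h m ht hm => ?_⟩
  have hlog2 : (0.6931471803 : ℝ) < Real.log 2 := Real.log_two_gt_d9
  have hlog2' : Real.log 2 < (0.6931471808 : ℝ) := Real.log_two_lt_d9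
  obtain ⟨Λ, hΛ⟩ : ∃ Λ, Λ = Real.log (n + t + 16) := ⟨_, rfl⟩
  rw [← hΛ] at hm
  have hnR : (0 : ℝ) ≤ n := Nat.cast_nonneg _
  have hhR : (0 : ℝ) ≤ h := Nat.cast_nonneg _
  have htR : (1 : ℝ) ≤ t := by exact_mod_cast ht
  have hC0R : (1 : ℝ) ≤ C0 := by exact_mod_cast hC0
  have hK0R : (0 : ℝ) ≤ K0 := Nat.cast_nonneg _
  have hΛ27 : (2.77 : ℝ) ≤ Λ := by
    have h1 : Real.log (16 : ℝ) ≤ Λ := by
      rw [hΛ]
      exact Real.log_le_log (by norm_num) (by linarith)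
    have h2 : Real.log (16 : ℝ) = 4 * Real.log 2 := by
      rw [show (16 : ℝ) = (2 : ℝ) ^ 4 by norm_num, Real.log_pow]
      norm_num
    rw [h2] at h1
    linarith
  obtain ⟨S, hS⟩ : ∃ S, S = Λ + h := ⟨_, rfl⟩
  rw [← hS] at hm
  have hSΛ : Λ ≤ S := by rw [hS]; linarith
  have hlogt : 0 ≤ Real.log t := Real.log_nonneg htR
  have hlS : 0 < Real.log S := Real.log_pos (by linarith)
  obtain ⟨ρ, hρ⟩ : ∃ ρ, ρ = Real.log t / Real.log S := ⟨_, rfl⟩
  rw [← hρ] at hm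
  have hρ0 : 0 ≤ ρ := by rw [hρ]; exact div_nonneg hlogt hlS.le
  have hρS : ρ * Real.log S = Real.log t := by
    rw [hρ, div_mul_cancel₀ _ hlS.ne']
  obtain ⟨X, hX⟩ : ∃ X, X = S * (1 + ρ) := ⟨_, rfl⟩
  rw [← hX] at hm
  have hXS : S ≤ X := by
    rw [hX]
    exact le_mul_of_one_le_right (by linarith) (by linarith)
  have hXΛ : Λ ≤ X := hSΛ.trans hXS
  have hX27 : (2.77 : ℝ) ≤ X := hΛ27.trans hXΛ
  -- the length
  obtain ⟨C, hCdef⟩ : ∃ C : ℝ, C = 4 * K0 + 12 * C0 + 16 := ⟨_, rfl⟩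
  rw [← hCdef] at hm
  have hC16 : 16 ≤ C := by rw [hCdef]; linarith
  have hm1 : C * X + 1 ≤ m := (Real.add_one_le_exp _).trans hm
  have hCX : C ≤ C * X := le_mul_of_one_le_right (by linarith) (by linarith)
  have hmK : (4 * (K0 : ℝ)) + 16 ≤ m := by
    have : 4 * (K0 : ℝ) + 16 ≤ C := by rw [hCdef]; linarith
    linarith
  have hmK' : 4 * K0 + 16 ≤ m := by exact_mod_cast hmK
  have hmn : 4 * (n + 16) ≤ m := by
    have h1 : Real.exp (2 * Λ) ≤ m := by
      refine le_trans (Real.exp_le_exp.mpr ?_) hm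
      calc 2 * Λ ≤ C * Λ := mul_le_mul_of_nonneg_right (by linarith) (by linarith)
        _ ≤ C * X := mul_le_mul_of_nonneg_left hXΛ (by linarith)
    have h2 : Real.exp (2 * Λ) = ((n : ℝ) + t + 16) ^ 2 := by
      rw [two_mul, Real.exp_add, hΛ, Real.exp_log (by linarith)]
      ring
    rw [h2] at h1
    have h3 : (4 : ℝ) * (n + 16) ≤ m := by nlinarith
    exact_mod_cast h3
  obtain ⟨len, hlen⟩ : ∃ len, len = n + m := ⟨_, rfl⟩
  rw [← hlen]
  have hlen0 : len ≠ 0 := by omega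
  have hlenm : (m : ℝ) ≤ len := by
    rw [hlen]
    push_cast
    linarith
  obtain ⟨L, hL⟩ : ∃ L, L = Nat.log 2 len := ⟨_, rfl⟩
  have hexplen : Real.exp (C * X) ≤ len := hm.trans hlenm
  have hL1 : C * X + 1 ≤ L := by
    have h1 : C * X ≤ ((L : ℝ) + 1) * Real.log 2 := by
      rcases real_lt_log2 len with h | h
      · rw [← hL] at h
        have h1 := Real.log_le_log (Real.exp_pos _) hexplen
        rw [Real.log_exp] at h1
        linarith
      · exact absurd h hlen0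
    have h3 : 16 * 2.77 ≤ C * X := mul_le_mul hC16 hX27 (by norm_num) (by linarith)
    have h4 : (0 : ℝ) ≤ (L : ℝ) + 1 := by positivity
    have h5 : ((L : ℝ) + 1) * Real.log 2 ≤ ((L : ℝ) + 1) * 0.6931471808 :=
      mul_le_mul_of_nonneg_left hlog2'.le h4
    linarith
  have hL16 : 17 ≤ L := by
    have : (17 : ℝ) ≤ L := by linarith
    exact_mod_cast this
  obtain ⟨l, hl⟩ : ∃ l, L = l + 1 := ⟨L - 1, by omega⟩
  have hl1 : C * X ≤ l := by
    rw [hl] at hL1
    push_cast at hL1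
    linarith
  -- the exponent `y`
  obtain ⟨a, ha⟩ : ∃ a, a = Nat.log 2 (n + t + 16) := ⟨_, rfl⟩
  have ha4 : 4 ≤ a := by
    rw [ha]
    exact Nat.le_log_of_pow_le (by norm_num) (by omega)
  have haΛ : (a : ℝ) * Real.log 2 ≤ Λ := by
    have h1 := log2_le_real (n + t + 16) (by omega)
    rw [ha]
    refine h1.trans ?_
    rw [hΛ]
    push_cast
    exact le_refl _
  have ha3 : (a : ℝ) + 2 ≤ 3 * Λ := by
    have h0 : (0 : ℝ) ≤ (a : ℝ) := Nat.cast_nonneg _
    have h1 : (a : ℝ) * 0.6931471803 ≤ (a : ℝ) * Real.log 2 :=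
      mul_le_mul_of_nonneg_left hlog2.le h0
    linarith
  have hpow : 2 * (n + t + 16) ≤ 2 ^ (a + 2) := by
    have h1 : n + t + 16 < 2 ^ (a + 1) := by
      rw [ha]
      exact Nat.lt_pow_succ_log_self (by norm_num) _
    have h3 : 2 ^ (a + 2) = 2 * 2 ^ (a + 1) := by
      rw [show a + 2 = (a + 1) + 1 by ring, pow_succ]
      ring
    omega
  obtain ⟨y, hy⟩ : ∃ y, y = a + h + 2 := ⟨_, rfl⟩
  have hyS : (y : ℝ) ≤ 3 * S := by
    rw [hy, hS]
    push_cast
    linarith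
  have hy0 : (0 : ℝ) ≤ y := Nat.cast_nonneg _
  have hpowy : 2 * (n + t + 16) ≤ 2 ^ y :=
    hpow.trans (Nat.pow_le_pow_right (by norm_num) (by omega))
  have hSy : S ≤ y := by
    have h1 : Λ ≤ Real.log ((2 : ℝ) ^ (a + 2)) := by
      rw [hΛ]
      apply Real.log_le_log (by linarith)
      have : n + t + 16 ≤ 2 ^ (a + 2) := by omega
      exact_mod_cast this
    rw [Real.log_pow] at h1
    push_cast at h1
    have h2 : ((a : ℝ) + 2) * Real.log 2 ≤ ((a : ℝ) + 2) * 1 :=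
      mul_le_mul_of_nonneg_left (by linarith) (by positivity)
    rw [hS, hy]
    push_cast
    linarith
  have hCy : C0 * y ≤ l := by
    have h1 : ((C0 * y : ℕ) : ℝ) ≤ l := by
      rw [Nat.cast_mul]
      calc (C0 : ℝ) * y ≤ C0 * (3 * S) := mul_le_mul_of_nonneg_left hyS (by linarith)
        _ = (3 * C0) * S := by ring
        _ ≤ C * S := mul_le_mul_of_nonneg_right (by rw [hCdef]; linarith) (by linarith)
        _ ≤ C * X := mul_le_mul_of_nonneg_left hXS (by linarith)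
        _ ≤ l := hl1
    exact_mod_cast h1
  have hyl : y ≤ l := le_trans (Nat.le_mul_of_pos_left y (by omega)) hCy
  obtain ⟨j, hj1, hj2, hj3, hj4⟩ := dt10_int l y (by omega) hyl
  have hlen1 : 2 ^ L ≤ len := by
    rw [hL]
    exact Nat.pow_log_le_self 2 hlen0
  have hlen2 : len < 2 ^ (L + 1) := by
    rw [hL]
    exact Nat.lt_pow_succ_log_self (by norm_num) _
  have hjl : j ≤ len := by
    rw [hl] at hlen1
    omega
  have hlj : len < 4 * j := by
    have e : 2 ^ (L + 1) = 4 * 2 ^ l := by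
      rw [hl, show l + 1 + 1 = l + 2 by ring, pow_add]
      ring
    omega
  have hcapy : 2 ^ y ≤ qM y ^ qCap y :=
    (prmE_exact 1 1 y 0 (by norm_num) (by norm_num) (by omega) (Nat.zero_le _)).2.1
  refine ⟨j, y, by omega, by omega, hjl, by rw [hj3, hj4], by omega, by rw [hj3]; exact hCy,
    by omega, by omega, by omega, ?_⟩
  -- the number of scales
  rcases le_total (qCap y) (Nat.log 2 j / (C0 * y) - 1) with hd | hd
  · have : eE C0 y j = qCap y := min_eq_left hd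
    rw [this]
    exact le_trans (by omega) hcapy
  · have hE : eE C0 y j = Nat.log 2 j / (C0 * y) - 1 := min_eq_right hd
    rw [hE]
    apply le_qM_pow y (2 * t) _ (by omega)
    obtain ⟨z, hz⟩ : ∃ z, z = qZ y := ⟨_, rfl⟩
    rw [← hz]
    have hz2 : 2 ≤ z := by
      rw [hz]
      exact Nat.le_log_of_pow_le (by norm_num) (by omega)
    have hz2R : (2 : ℝ) ≤ z := by exact_mod_cast hz2
    have hlogS : Real.log S ≤ 2 * (z : ℝ) * Real.log 2 := by
      have h1 : Real.log S ≤ Real.log y := Real.log_le_log (by linarith) hSy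
      rcases real_lt_log2 y with h | h
      · have h3 : ((Nat.log 2 y : ℝ) + 1) * Real.log 2 ≤ 2 * (z : ℝ) * Real.log 2 := by
          apply mul_le_mul_of_nonneg_right _ (by linarith)
          rw [hz] at hz2R ⊢
          unfold qZ at hz2R ⊢
          linarith
        linarith
      · omega
    obtain ⟨k, hk⟩ : ∃ k, k = Nat.log 2 t := ⟨_, rfl⟩
    have hk2 : Nat.log 2 (2 * t) = k + 1 := by
      rw [hk, mul_comm]
      exact Nat.log_mul_base (by norm_num) (by omega)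
    rw [hk2]
    have hkR : (k : ℝ) * Real.log 2 ≤ Real.log t := by
      rw [hk]; exact log2_le_real t ht
    have hkz : (k : ℝ) ≤ 2 * ρ * z := by
      have h1 : (k : ℝ) * Real.log 2 ≤ (2 * ρ * z) * Real.log 2 := by
        calc (k : ℝ) * Real.log 2 ≤ Real.log t := hkR
          _ = ρ * Real.log S := hρS.symm
          _ ≤ ρ * (2 * (z : ℝ) * Real.log 2) := mul_le_mul_of_nonneg_left hlogS hρ0
          _ = (2 * ρ * z) * Real.log 2 := by ring
      exact le_of_mul_le_mul_right h1 (by linarith)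
    obtain ⟨E', hE'⟩ : ∃ E', E' = 2 * (k + 1 + 1) / z + 1 := ⟨_, rfl⟩
    have hE1 : 2 * (k + 1 + 1) ≤ z * E' := by
      have := Nat.lt_mul_div_succ (2 * (k + 1 + 1)) (by omega : 0 < z)
      rw [hE']
      exact this.le
    have hE2 : z * (E' + 1) ≤ 2 * (k + 1 + 1) + 2 * z := by
      have h1 := Nat.div_mul_le_self (2 * (k + 1 + 1)) z
      have h2 : z * (2 * (k + 1 + 1) / z + 1 + 1) = 2 * (k + 1 + 1) / z * z + 2 * z := by ring
      rw [hE', h2]
      omega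
    have hE3 : ((E' : ℝ) + 1) ≤ 4 * ρ + 4 := by
      have h1 : (z : ℝ) * ((E' : ℝ) + 1) ≤ 2 * ((k : ℝ) + 1 + 1) + 2 * z := by
        exact_mod_cast hE2
      have h2 : (z : ℝ) * ((E' : ℝ) + 1) ≤ z * (4 * ρ + 4) := by
        have e1 : (z : ℝ) * (4 * ρ + 4) = 2 * (2 * ρ * z) + 4 * z := by ring
        rw [e1]
        linarith
      exact le_of_mul_le_mul_left h2 (by linarith)
    have hE4 : E' + 1 ≤ Nat.log 2 j / (C0 * y) := by
      rw [Nat.le_div_iff_mul_le (Nat.mul_pos (by omega) (by omega)), hj3]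
      have h1 : (((E' + 1) * (C0 * y) : ℕ) : ℝ) ≤ l := by
        push_cast
        have h2 : (C0 : ℝ) * y ≤ C0 * (3 * S) := mul_le_mul_of_nonneg_left hyS (by linarith)
        calc ((E' : ℝ) + 1) * (C0 * y) ≤ (4 * ρ + 4) * (C0 * (3 * S)) := by
              apply mul_le_mul hE3 h2 (by positivity) (by positivity)
          _ = (12 * C0) * X := by rw [hX]; ring
          _ ≤ C * X := by
              apply mul_le_mul_of_nonneg_right _ (by linarith)
              rw [hCdef]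
              linarith
          _ ≤ l := hl1
      exact_mod_cast h1
    calc 2 * (k + 1 + 1) ≤ z * E' := hE1
      _ ≤ z * (Nat.log 2 j / (C0 * y) - 1) := Nat.mul_le_mul_left _ (by omega)

end Pool.Agent.Helper17.TV
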