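import Pool.Agent.Helper17.TU.NumEq
import Pool.Agent.Helper68.UL.Phi0FL
import Pool.Agent.Helper17.UL.MachBd

set_option autoImplicit false
set_option linter.unusedSectionVars false

/-!
Deep turns: numeric form of the function for blocks, for a general numeric machine.
-/

namespace Pool.Agent.Helper17.TV

open Pool.Agent.Helper17.SL Pool.Agent.Helper17.UL Pool.Agent.Helper17.TU Pool.Agent.Helper6

section defs

variable {c : ℕ} (adv : (Fin (c + 2) → ℕ) → ℕ → Fin (c + 2) → ℕ)
  (psh : (Fin (c + 2) → ℕ) → ℕ) (dpop : (Fin (c + 2) → ℕ) → Prop) (P0 W : ℕ)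

open Classical in
/-- One step of the search for the symbol at height `η`. -/
noncomputable def gsymStep (η : ℕ) (q : Fin (c + 2) ⊕ Unit → ℕ) : Fin (c + 2) ⊕ Unit → ℕ :=
  if q (Sum.inr ()) ≠ 0 then q
  else if q (Sum.inl 1) + 1 = η ∧ psh (fun i => q (Sum.inl i)) ≠ 0 then
    Sum.elim (fun i => q (Sum.inl i)) (fun _ => psh (fun i => q (Sum.inl i)))
  else Sum.elim (adv (fun i => q (Sum.inl i)) 0) (fun _ => 0)

/-- Code of the symbol at height `η` which is pushed in the block of `g`. -/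
noncomputable def gsymAt (g : Fin (c + 2) → ℕ) (η : ℕ) : ℕ :=
  ((gsymStep adv psh η)^[P0] (Sum.elim g (fun _ => 0))) (Sum.inr ())

open Classical in
/-- One step of the iteration inside a block. -/
noncomputable def gbstep (g x : Fin (c + 2) → ℕ) (a : CI c → ℕ) : CI c → ℕ :=
  fun q =>
  if a .ft ≠ 0 then a q
  else if blk P0 (x 0) ≤ a (.cur 0) then
    (match q with
      | .ft => min 2 W
      | .fx i => a (.cur i)
      | .fu i => if a .bt = 0 then a (.cur i) else a (.best i)
      | q => a q)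
  else if dpop (fun i => a (.cur i)) ∧ 0 < a (.cur 1) ∧ a (.cur 1) ≤ g 1 then
    (match q with
      | .ft => 1
      | .fx i => a (.cur i)
      | .fu _ => 0
      | q => a q)
  else
    (match q with
      | .cur i => adv (fun i => a (.cur i))
          (if dpop (fun i => a (.cur i)) ∧ 0 < a (.cur 1) then
            gsymAt adv psh P0 g (a (.cur 1)) else 0) i
      | .bt => 1
      | .best i => if a .bt = 0 ∨ a (.cur 1) ≤ a (.best 1) then a (.cur i) else a (.best i)
      | q => a q)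

/-- Numeric form of `phiB`, with `cnt` iterations. -/
noncomputable def phiG (cnt : ℕ) (g x : Fin (c + 2) → ℕ) (q : RI c) : ℕ :=
  match q with
  | .tag => ((gbstep adv psh dpop P0 W g x)^[cnt] (nbinit x)) .ft
  | .x i => ((gbstep adv psh dpop P0 W g x)^[cnt] (nbinit x)) (.fx i)
  | .u i => ((gbstep adv psh dpop P0 W g x)^[cnt] (nbinit x)) (.fu i)

end defs

section eq

variable {S Γ : Type} [Fintype Γ] {c N P₀ W : ℕ} {stp : TStp S Γ}
  {kv : TV N S → Fin (c + 2) → ℕ} {adv : (Fin (c + 2) → ℕ) → ℕ → Fin (c + 2) → ℕ}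
  {psh : (Fin (c + 2) → ℕ) → ℕ} {dpop : (Fin (c + 2) → ℕ) → Prop}
  (h0v : ∀ v, kv v 0 = (v.1 : ℕ)) (h1v : ∀ v, kv v 1 = (v.2.1 : ℕ))
  (hadv : ∀ v y, kv (vadv stp v y) = adv (kv v) (oc y))
  (hpsh : ∀ v, psh (kv v) = oc (vpush stp v))
  (hpop : ∀ v, dpop (kv v) ↔ vpop stp v = true) (hW : 2 ≤ W)

/-- Numeric state of the search. -/
noncomputable def gen_tk (kv : TV N S → Fin (c + 2) → ℕ) (q : TV N S × Option Γ) :
    Fin (c + 2) ⊕ Unit → ℕ := Sum.elim (kv q.1) (fun _ => oc q.2)

include h0v h1v hadv hpsh hpop hW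

theorem gen_step (η : ℕ)
    (q : TV N S × Option Γ) :
    gsymStep adv psh η (gen_tk kv q) =
      gen_tk kv (symStep stp η q) := by
  obtain ⟨v, y⟩ := q
  have e1 : ∀ i, (gen_tk kv (v, y) : Fin (c + 2) ⊕ Unit → ℕ) (Sum.inl i) = kv v i :=
    fun i => rfl
  have e2 : (gen_tk kv (v, y) : Fin (c + 2) ⊕ Unit → ℕ) (Sum.inr ()) = oc y := rfl
  unfold gsymStep symStep
  simp only [e1, e2]
  have e3 : (fun i => kv v i) = kv v := rfl
  simp only [hpsh, h1v]
  cases y with
  | some y =>
    have h1 : oc (some y) ≠ 0 := by simp [oc]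
    rw [if_pos h1, if_pos (by simp)]
  | none =>
    have h1 : ¬ (oc (none : Option Γ) ≠ 0) := by simp [oc]
    rw [if_neg h1, if_neg (show ¬ ((v, (none : Option Γ)).2.isSome = true) by simp)]
    by_cases h2 : (v.2.1 : ℕ) + 1 = η ∧
        (vpush stp v).isSome = true
    · rw [if_pos h2, if_pos]
      · rfl
      · refine ⟨h2.1, ?_⟩
        intro h3
        rw [oc_eq_zero] at h3
        rw [h3] at h2
        simp at h2
    · rw [if_neg h2, if_neg]
      · unfold gen_tk
        simp only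
        rw [hadv]
        rfl
      · rintro ⟨h3, h4⟩
        apply h2
        refine ⟨h3, ?_⟩
        rw [Ne, oc_eq_zero] at h4
        exact Option.isSome_iff_ne_none.mpr h4

theorem gen_iter (η : ℕ) (j : ℕ)
    (q : TV N S × Option Γ) :
    (gsymStep adv psh η)^[j] (gen_tk kv q) =
      gen_tk kv ((symStep stp η)^[j] q) := by
  induction j generalizing q with
  | zero => rfl
  | succ j ih =>
    rw [Function.iterate_succ_apply, Function.iterate_succ_apply, gen_step h0v h1v hadv hpsh hpop hW, ih]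

theorem gen_symAt 
    (g : TV N S) (η : ℕ) :
    gsymAt adv psh P₀ (kv g) η =
      oc (symAt stp P₀ g η) := by
  unfold gsymAt symAt
  exact congrFun (gen_iter h0v h1v hadv hpsh hpop hW η P₀ (g, none)) (Sum.inr ())

/-- Numeric state of the iteration. -/
noncomputable def gen_cBS (kv : TV N S → Fin (c + 2) → ℕ) (q : BS (TV N S)) :
    CI c → ℕ
  | .cur i => kv q.cur i
  | .bt => if q.best.isSome then 1 else 0
  | .best i => match q.best with
    | none => 0
    | some v => kv v i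
  | .ft => cRes kv q.fin .tag
  | .fx i => cRes kv q.fin (.x i)
  | .fu i => cRes kv q.fin (.u i)
  | _ => 0

theorem gen_bstep 
    (g x : TV N S) (q : BS (TV N S)) :
    gbstep adv psh dpop P₀ W (kv g) (kv x) (gen_cBS kv q) =
      gen_cBS kv (bstep stp P₀ g x q) := by
  obtain ⟨cu, b, f⟩ := q
  have e1 : ∀ i, (gen_cBS kv ⟨cu, b, f⟩ : CI c → ℕ) (.cur i) = kv cu i := fun i => rfl
  have hpo := hpop cu
  cases f with
  | popped y =>
    have h1 : (gen_cBS kv ⟨cu, b, .popped y⟩ : CI c → ℕ) .ft ≠ 0 := by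
      simp [gen_cBS, cRes, nPopped]
    funext r
    unfold gbstep bstep
    rw [if_pos h1]
  | done y z =>
    have h1 : (gen_cBS kv ⟨cu, b, .done y z⟩ : CI c → ℕ) .ft ≠ 0 := by
      simp [gen_cBS, cRes]
    funext r
    unfold gbstep bstep
    rw [if_pos h1]
  | none =>
    have h1 : ¬ ((gen_cBS kv ⟨cu, b, .none⟩ : CI c → ℕ) .ft ≠ 0) := by
      simp [gen_cBS, cRes]
    funext r
    unfold gbstep bstep
    rw [if_neg h1]
    have c0 : (gen_cBS kv ⟨cu, b, .none⟩ : CI c → ℕ) (.cur 0) = (cu.1 : ℕ) := h0v cu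
    have c1 : (gen_cBS kv ⟨cu, b, .none⟩ : CI c → ℕ) (.cur 1) = (cu.2.1 : ℕ) := h1v cu
    have ec : (fun i => (gen_cBS kv ⟨cu, b, .none⟩ : CI c → ℕ) (.cur i)) = kv cu := rfl
    have eg : kv g 1 = (g.2.1 : ℕ) := h1v g
    have ex : kv x 0 = (x.1 : ℕ) := h0v x
    by_cases h2 : blk P₀ (x.1 : ℕ) ≤ (cu.1 : ℕ)
    · have h2' : blk P₀ (kv x 0) ≤ (gen_cBS kv ⟨cu, b, .none⟩ : CI c → ℕ) (.cur 0) := by
        rw [c0, ex]
        exact h2
      rw [if_pos h2', if_pos h2]
      cases r with
      | ft => simp only [gen_cBS, cRes]; omega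
      | fx i => rfl
      | fu i =>
        cases b with
        | none => simp [gen_cBS, cRes]
        | some b => simp [gen_cBS, cRes]
      | _ => rfl
    · have h2' : ¬ (blk P₀ (kv x 0) ≤ (gen_cBS kv ⟨cu, b, .none⟩ : CI c → ℕ) (.cur 0)) := by
        rw [c0, ex]
        exact h2
      rw [if_neg h2', if_neg h2]
      by_cases h3 : vpop stp cu = true ∧ 0 < (cu.2.1 : ℕ) ∧
          (cu.2.1 : ℕ) ≤ (g.2.1 : ℕ)
      · have h3' : dpop (fun i => (gen_cBS kv ⟨cu, b, .none⟩ : CI c → ℕ) (.cur i)) ∧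
            0 < (gen_cBS kv ⟨cu, b, .none⟩ : CI c → ℕ) (.cur 1) ∧
            (gen_cBS kv ⟨cu, b, .none⟩ : CI c → ℕ) (.cur 1) ≤ kv g 1 := by
          rw [c1, eg]
          exact ⟨hpo.mpr h3.1, h3.2.1, h3.2.2⟩
        rw [if_pos h3', if_pos h3]
        cases r with
        | ft => simp [gen_cBS, cRes, nPopped]
        | fx i => simp [gen_cBS, cRes, nPopped]
        | fu i => simp [gen_cBS, cRes, nPopped]
        | _ => rfl
      · have h3' : ¬ (dpop (fun i => (gen_cBS kv ⟨cu, b, .none⟩ : CI c → ℕ) (.cur i)) ∧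
            0 < (gen_cBS kv ⟨cu, b, .none⟩ : CI c → ℕ) (.cur 1) ∧
            (gen_cBS kv ⟨cu, b, .none⟩ : CI c → ℕ) (.cur 1) ≤ kv g 1) := by
          rw [c1, eg]
          exact fun h4 => h3 ⟨hpo.mp h4.1, h4.2.1, h4.2.2⟩
        rw [if_neg h3', if_neg h3]
        cases r with
        | cur i =>
          by_cases h5 : vpop stp cu = true ∧ 0 < (cu.2.1 : ℕ)
          · have h5' : dpop (fun i => (gen_cBS kv ⟨cu, b, .none⟩ : CI c → ℕ) (.cur i)) ∧
                0 < (gen_cBS kv ⟨cu, b, .none⟩ : CI c → ℕ) (.cur 1) := by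
              rw [c1]
              exact ⟨hpo.mpr h5.1, h5.2⟩
            simp only
            rw [if_pos h5', if_pos h5, c1, gen_symAt h0v h1v hadv hpsh hpop hW]
            show adv (kv cu) _ i = kv _ i
            rw [hadv]
          · have h5' : ¬ (dpop (fun i => (gen_cBS kv ⟨cu, b, .none⟩ : CI c → ℕ) (.cur i)) ∧
                0 < (gen_cBS kv ⟨cu, b, .none⟩ : CI c → ℕ) (.cur 1)) := by
              rw [c1]
              exact fun h6 => h5 ⟨hpo.mp h6.1, h6.2⟩
            simp only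
            rw [if_neg h5', if_neg h5]
            show adv (kv cu) _ i = kv _ i
            rw [hadv]
            rfl
        | bt =>
          cases b with
          | none => simp [gen_cBS, better]
          | some b =>
            by_cases h5 : tht cu ≤ tht b <;> simp [gen_cBS, better, h5]
        | best i =>
          cases b with
          | none => simp [gen_cBS, better]
          | some b =>
            simp only [gen_cBS, better, tht, h1v]
            by_cases h5 : (cu.2.1 : ℕ) ≤ (b.2.1 : ℕ)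
            · simp [h5]
            · simp [h5]
        | _ => rfl

theorem gen_biter 
    (g x : TV N S) (j : ℕ)
    (q : BS (TV N S)) :
    (gbstep adv psh dpop P₀ W (kv g) (kv x))^[j] (gen_cBS kv q) =
      gen_cBS kv ((bstep stp P₀ g x)^[j] q) := by
  induction j generalizing q with
  | zero => rfl
  | succ j ih =>
    rw [Function.iterate_succ_apply, Function.iterate_succ_apply, gen_bstep h0v h1v hadv hpsh hpop hW, ih]

theorem phiG_kv 
    (g x : TV N S) :
    phiG adv psh dpop P₀ W (P₀ + 1) (kv g) (kv x) =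
      cRes kv (phiB stp P₀ g x) := by
  have h0 : (nbinit (kv x) : CI c → ℕ) = gen_cBS kv ⟨x, none, .none⟩ := by
    funext r
    cases r <;> rfl
  have h1 := gen_biter (P₀ := P₀) h0v h1v hadv hpsh hpop hW g x (P₀ + 1) ⟨x, none, .none⟩
  rw [← h0] at h1
  funext r
  unfold phiG phiB
  cases r with
  | tag => exact congrFun h1 .ft
  | x i => exact congrFun h1 (.fx i)
  | u i => exact congrFun h1 (.fu i)

end eq

section bd

variable {c B P0 W : ℕ} {adv : (Fin (c + 2) → ℕ) → ℕ → Fin (c + 2) → ℕ}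
  {psh : (Fin (c + 2) → ℕ) → ℕ} {dpop : (Fin (c + 2) → ℕ) → Prop}
  (ha : ∀ x y, (∀ i, x i < B) → y < B → ∀ i, adv x y i < B)
  (hp : ∀ x, (∀ i, x i < B) → psh x < B) (h2 : 2 < B)

include ha hp h2

theorem gsymAt_lt (g : Fin (c + 2) → ℕ) (hg : ∀ i, g i < B) (η : ℕ) :
    gsymAt adv psh P0 g η < B := by
  have key : ∀ m : ℕ, ∀ v, ((gsymStep adv psh η)^[m] (Sum.elim g (fun _ => 0))) v < B := by
    intro m
    induction m with
    | zero =>
      rintro (v | v)
      · exact hg v
      · show 0 < B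
        omega
    | succ m ih =>
      rw [Function.iterate_succ_apply']
      generalize (gsymStep adv psh η)^[m] (Sum.elim g (fun _ => 0)) = q at ih
      intro v
      unfold gsymStep
      split_ifs
      · exact ih v
      · rcases v with v | v
        · exact ih _
        · exact hp _ (fun i => ih _)
      · rcases v with v | v
        · exact ha _ _ (fun i => ih _) (by omega) v
        · show 0 < B
          omega
  exact key _ _

theorem phiG_lt (cnt : ℕ) (g x : Fin (c + 2) → ℕ) (hg : ∀ i, g i < B)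
    (hx : ∀ i, x i < B) (q : RI c) : phiG adv psh dpop P0 W cnt g x q < B := by
  have key : ∀ m : ℕ, ∀ v, ((gbstep adv psh dpop P0 W g x)^[m] (nbinit x)) v < B := by
    intro m
    induction m with
    | zero =>
      intro v
      cases v with
      | cur i => exact hx i
      | _ => show 0 < B; omega
    | succ m ih =>
      rw [Function.iterate_succ_apply']
      generalize (gbstep adv psh dpop P0 W g x)^[m] (nbinit x) = a at ih
      intro v
      unfold gbstep
      have hb1 : 1 < B := by omega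
      have hb0 : 0 < B := by omega
      split_ifs <;> cases v <;>
        first
        | exact ih _
        | exact lt_of_le_of_lt (min_le_left _ _) h2
        | exact hb0
        | exact hb1
        | exact ha _ _ (fun i => ih _) (gsymAt_lt ha hp h2 g hg _) _
        | exact ha _ _ (fun i => ih _) hb0 _
  cases q with
  | tag => exact key _ _
  | x i => exact key _ _
  | u i => exact key _ _

end bd

section fl

variable {β : Type} {c : ℕ} {adv : List β → (Fin (c + 2) → ℕ) → ℕ → Fin (c + 2) → ℕ}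
  {psh : List β → (Fin (c + 2) → ℕ) → ℕ} {dpop : List β → (Fin (c + 2) → ℕ) → Prop}
  {P0 : List β → ℕ}
  (hadv : ∀ i, FL β (Fin (c + 2) ⊕ Unit)
    (fun w z => adv w (z ∘ Sum.inl) (z (Sum.inr ())) i))
  (hpsh : FL β (Fin (c + 2)) (fun w x => psh w x))
  (hpop : IsL β (Fin (c + 2)) (fun w x => dpop w x))
  (hP0 : FL β Empty (fun w _ => P0 w))

include hadv hpsh

open Classical in
theorem gfl_step_FL 
    (u : Fin (c + 2) ⊕ Unit) :
    FL β ((Fin (c + 2) ⊕ Unit) ⊕ (Fin (c + 2) ⊕ Unit)) (fun w z =>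
      gsymStep (adv w) (psh w) (z (Sum.inr (Sum.inr ()))) (fun v => z (Sum.inl v)) u) := by
  have hpu : FL β ((Fin (c + 2) ⊕ Unit) ⊕ (Fin (c + 2) ⊕ Unit)) (fun w z =>
      psh w (fun i => z (Sum.inl (Sum.inl i)))) :=
    FL.comp hpsh
      (g := fun i _ z => z (Sum.inl (Sum.inl i))) (fun _ => FL.proj _)
  have hc1 : IsL β ((Fin (c + 2) ⊕ Unit) ⊕ (Fin (c + 2) ⊕ Unit))
      (fun _ z => z (Sum.inl (Sum.inr ())) ≠ 0) := IsL.not (IsL.isZero _)
  have hc2 : IsL β ((Fin (c + 2) ⊕ Unit) ⊕ (Fin (c + 2) ⊕ Unit))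
      (fun w z => z (Sum.inl (Sum.inl 1)) + 1 = z (Sum.inr (Sum.inr ())) ∧
        psh w (fun i => z (Sum.inl (Sum.inl i))) ≠ 0) :=
    IsL.and (IsL.succ _ _) (IsL.not (isL_eq hpu FL.zero))
  rcases u with i | u
  · have hna : FL β ((Fin (c + 2) ⊕ Unit) ⊕ (Fin (c + 2) ⊕ Unit)) (fun w z =>
        adv w (fun j => z (Sum.inl (Sum.inl j))) 0 i) := by
      refine FL.congr (FL.comp (hadv i) (g := fun s _ z => match s with
        | Sum.inl j => z (Sum.inl (Sum.inl j))
        | Sum.inr _ => 0) ?_) ?_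
      · rintro (s | s)
        · exact FL.proj _
        · exact FL.zero
      · intro w z _
        rfl
    refine FL.congr (FL.ite hc1 (FL.proj (Sum.inl (Sum.inl i)))
      (FL.ite hc2 (FL.proj (Sum.inl (Sum.inl i))) hna)) ?_
    intro w z _
    simp only [gsymStep]
    split_ifs <;> rfl
  · refine FL.congr (FL.ite hc1 (FL.proj (Sum.inl (Sum.inr ())))
      (FL.ite hc2 hpu FL.zero)) ?_
    intro w z _
    simp only [gsymStep]
    split_ifs <;> rfl

include hP0 in
theorem gfl_symAt :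
    FL β (Fin (c + 2) ⊕ Unit) (fun w z =>
      gsymAt (adv w) (psh w) (P0 w) (z ∘ Sum.inl) (z (Sum.inr ()))) := by
  have h := FL.iter (U := Fin (c + 2) ⊕ Unit) (V := Fin (c + 2) ⊕ Unit)
    (F := fun u w z => gsymStep (adv w) (psh w) (z (Sum.inr (Sum.inr ())))
      (fun v => z (Sum.inl v)) u) (gfl_step_FL hadv hpsh)
    (init := fun u _ z => match u with
      | Sum.inl i => z (Sum.inl i)
      | Sum.inr _ => 0)
    (by
      rintro (i | i)
      · exact FL.proj _
      · exact FL.zero)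
    (c := fun w _ => P0 w) (FL.ofEmpty hP0) (Sum.inr ())
  refine FL.congr h ?_
  intro w z _
  have e : (fun u : Fin (c + 2) ⊕ Unit => (match u with
      | Sum.inl i => z (Sum.inl i)
      | Sum.inr _ => 0 : ℕ)) = Sum.elim (z ∘ Sum.inl) (fun _ => 0) := by
    funext u
    rcases u with u | u <;> rfl
  rw [e]
  rfl

include hpop hP0

open Classical in
theorem gfl_bstep_FL 
    (u : CI c) :
    FL β (CI c ⊕ (Fin (c + 2) ⊕ Fin (c + 2))) (fun w z =>
      gbstep (adv w) (psh w) (dpop w) (P0 w) (w.length + 1) (fun i => z (Sum.inr (Sum.inl i)))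
        (fun i => z (Sum.inr (Sum.inr i))) (fun v => z (Sum.inl v)) u) := by
  have hP : FL β (CI c ⊕ (Fin (c + 2) ⊕ Fin (c + 2)))
      (fun w _ => P0 w) := FL.ofEmpty hP0
  have hc1 : IsL β (CI c ⊕ (Fin (c + 2) ⊕ Fin (c + 2)))
      (fun _ z => z (Sum.inl .ft) ≠ 0) := IsL.not (IsL.isZero _)
  have hx0 : FL β (CI c ⊕ (Fin (c + 2) ⊕ Fin (c + 2)))
      (fun _ z => z (Sum.inr (Sum.inr 0))) := FL.proj _
  have ha0 : FL β (CI c ⊕ (Fin (c + 2) ⊕ Fin (c + 2)))
      (fun _ z => z (Sum.inl (.cur 0))) := FL.proj _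
  have ha1 : FL β (CI c ⊕ (Fin (c + 2) ⊕ Fin (c + 2)))
      (fun _ z => z (Sum.inl (.cur 1))) := FL.proj _
  have hb1 : FL β (CI c ⊕ (Fin (c + 2) ⊕ Fin (c + 2)))
      (fun _ z => z (Sum.inl (.best 1))) := FL.proj _
  have hg1 : FL β (CI c ⊕ (Fin (c + 2) ⊕ Fin (c + 2)))
      (fun _ z => z (Sum.inr (Sum.inl 1))) := FL.proj _
  have hc2 : IsL β (CI c ⊕ (Fin (c + 2) ⊕ Fin (c + 2)))
      (fun w z => blk (P0 w) (z (Sum.inr (Sum.inr 0))) ≤ z (Sum.inl (.cur 0))) := by
    refine IsL.congr (IsL.or (isL_eq hP FL.zero) (isL_lt (hx0.div hP) (ha0.div hP))) ?_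
    intro w z _
    unfold blk
    rcases Nat.eq_zero_or_pos (P0 w) with h0 | h0
    · rw [h0]
      simp
    · rw [Nat.lt_iff_add_one_le, Nat.le_div_iff_mul_le h0]
      constructor
      · intro h
        exact Or.inr h
      · rintro (h | h)
        · omega
        · exact h
  have hdp : IsL β (CI c ⊕ (Fin (c + 2) ⊕ Fin (c + 2)))
      (fun w z => dpop w (fun i => z (Sum.inl (.cur i)))) :=
    isL_comp hpop
      (g := fun i _ z => z (Sum.inl (CI.cur i))) (fun _ => FL.proj _)
  have hpos : IsL β (CI c ⊕ (Fin (c + 2) ⊕ Fin (c + 2)))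
      (fun _ z => 0 < z (Sum.inl (.cur 1))) := isL_lt FL.zero ha1
  have hc3 : IsL β (CI c ⊕ (Fin (c + 2) ⊕ Fin (c + 2)))
      (fun w z => dpop w (fun i => z (Sum.inl (.cur i))) ∧
        0 < z (Sum.inl (.cur 1)) ∧ z (Sum.inl (.cur 1)) ≤ z (Sum.inr (Sum.inl 1))) :=
    IsL.and hdp (IsL.and hpos (isL_le ha1 hg1))
  have hbt : IsL β (CI c ⊕ (Fin (c + 2) ⊕ Fin (c + 2)))
      (fun _ z => z (Sum.inl .bt) = 0) := IsL.isZero _
  have hp : ∀ v : CI c, FL β (CI c ⊕ (Fin (c + 2) ⊕ Fin (c + 2)))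
      (fun _ z => z (Sum.inl v)) := fun v => FL.proj _
  have hbest : IsL β (CI c ⊕ (Fin (c + 2) ⊕ Fin (c + 2)))
      (fun _ z => z (Sum.inl .bt) = 0 ∨ z (Sum.inl (.cur 1)) ≤ z (Sum.inl (.best 1))) :=
    IsL.or hbt (isL_le ha1 hb1)
  have hns : FL β (CI c ⊕ (Fin (c + 2) ⊕ Fin (c + 2)))
      (fun w z => gsymAt (adv w) (psh w) (P0 w) (fun i => z (Sum.inr (Sum.inl i)))
        (z (Sum.inl (.cur 1)))) := by
    refine FL.congr (FL.comp (gfl_symAt hadv hpsh hP0) (g := fun s _ z => match s with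
      | Sum.inl j => z (Sum.inr (Sum.inl j))
      | Sum.inr _ => z (Sum.inl (CI.cur 1))) ?_) ?_
    · rintro (s | s)
      · exact FL.proj _
      · exact FL.proj _
    · intro w z _
      rfl
  have hy : FL β (CI c ⊕ (Fin (c + 2) ⊕ Fin (c + 2)))
      (fun w z => if dpop w (fun i => z (Sum.inl (.cur i))) ∧
          0 < z (Sum.inl (.cur 1)) then
          gsymAt (adv w) (psh w) (P0 w) (fun i => z (Sum.inr (Sum.inl i))) (z (Sum.inl (.cur 1)))
        else 0) := FL.ite (IsL.and hdp hpos) hns FL.zero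
  have hna : ∀ i : Fin (c + 2),
      FL β (CI c ⊕ (Fin (c + 2) ⊕ Fin (c + 2)))
      (fun w z => adv w (fun j => z (Sum.inl (.cur j)))
        (if dpop w (fun i => z (Sum.inl (.cur i))) ∧
          0 < z (Sum.inl (.cur 1)) then
          gsymAt (adv w) (psh w) (P0 w) (fun i => z (Sum.inr (Sum.inl i))) (z (Sum.inl (.cur 1)))
        else 0) i) := by
    intro i
    refine FL.congr (FL.comp (hadv i) (g := fun s w z => match s with
      | Sum.inl j => z (Sum.inl (CI.cur j))
      | Sum.inr _ => (if dpop w (fun i => z (Sum.inl (.cur i))) ∧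
          0 < z (Sum.inl (.cur 1)) then
          gsymAt (adv w) (psh w) (P0 w) (fun i => z (Sum.inr (Sum.inl i))) (z (Sum.inl (.cur 1)))
        else 0)) ?_) ?_
    · rintro (s | s)
      · exact FL.proj _
      · exact hy
    · intro w z _
      rfl
  cases u with
  | ph =>
    refine FL.congr (hp .ph) ?_
    intro w z _
    simp only [gbstep]
    split_ifs <;> rfl
  | cur i =>
    refine FL.congr (FL.ite hc1 (hp (.cur i)) (FL.ite hc2 (hp (.cur i))
      (FL.ite hc3 (hp (.cur i)) (hna i)))) ?_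
    intro w z _
    rfl
  | bt =>
    refine FL.congr (FL.ite hc1 (hp .bt) (FL.ite hc2 (hp .bt)
      (FL.ite hc3 (hp .bt) FL.one))) ?_
    intro w z _
    rfl
  | best i =>
    refine FL.congr (FL.ite hc1 (hp (.best i)) (FL.ite hc2 (hp (.best i))
      (FL.ite hc3 (hp (.best i)) (FL.ite hbest (hp (.cur i)) (hp (.best i)))))) ?_
    intro w z _
    simp only [gbstep]
  | ft =>
    refine FL.congr (FL.ite hc1 (hp .ft) (FL.ite hc2 (FL.const 2)
      (FL.ite hc3 FL.one (hp .ft)))) ?_
    intro w z _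
    rfl
  | fx i =>
    refine FL.congr (FL.ite hc1 (hp (.fx i)) (FL.ite hc2 (hp (.cur i))
      (FL.ite hc3 (hp (.cur i)) (hp (.fx i))))) ?_
    intro w z _
    rfl
  | fu i =>
    refine FL.congr (FL.ite hc1 (hp (.fu i)) (FL.ite hc2
      (FL.ite hbt (hp (.cur i)) (hp (.best i))) (FL.ite hc3 FL.zero (hp (.fu i))))) ?_
    intro w z _
    simp only [gbstep]
  | len =>
    refine FL.congr (hp .len) ?_
    intro w z _
    simp only [gbstep]
    split_ifs <;> rfl
  | et =>
    refine FL.congr (hp .et) ?_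
    intro w z _
    simp only [gbstep]
    split_ifs <;> rfl
  | en i =>
    refine FL.congr (hp (.en i)) ?_
    intro w z _
    simp only [gbstep]
    split_ifs <;> rfl

theorem gfl_iter_FL 
    {cnt : List β → ℕ} (hc : FL β Empty (fun w _ => cnt w))
    (v : CI c) :
    FL β (Fin (c + 2) ⊕ Fin (c + 2)) (fun w z =>
      ((gbstep (adv w) (psh w) (dpop w) (P0 w) (w.length + 1) (z ∘ Sum.inl) (z ∘ Sum.inr))^[cnt w]
        (nbinit (z ∘ Sum.inr))) v) := by
  have h := FL.iter (U := CI c) (V := Fin (c + 2) ⊕ Fin (c + 2))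
    (F := fun u w z => gbstep (adv w) (psh w) (dpop w) (P0 w) (w.length + 1) (fun i => z (Sum.inr (Sum.inl i)))
        (fun i => z (Sum.inr (Sum.inr i))) (fun v => z (Sum.inl v)) u)
    (gfl_bstep_FL hadv hpsh hpop hP0)
    (init := fun u _ z => nbinit (fun i => z (Sum.inr i)) u)
    (by
      intro u
      cases u with
      | cur i => exact FL.proj _
      | ph => exact FL.zero
      | bt => exact FL.zero
      | best i => exact FL.zero
      | ft => exact FL.zero
      | fx i => exact FL.zero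
      | fu i => exact FL.zero
      | len => exact FL.zero
      | et => exact FL.zero
      | en i => exact FL.zero)
    (c := fun w _ => cnt w) (FL.ofEmpty hc) v
  exact h

theorem phiG_FL 
    {cnt : List β → ℕ} (hc : FL β Empty (fun w _ => cnt w))
    (q : RI c) :
    FL β (Fin (c + 2) ⊕ Fin (c + 2)) (fun w z =>
      phiG (adv w) (psh w) (dpop w) (P0 w) (w.length + 1) (cnt w) (z ∘ Sum.inl) (z ∘ Sum.inr) q) := by
  cases q with
  | tag => exact gfl_iter_FL hadv hpsh hpop hP0 hc .ft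
  | x i => exact gfl_iter_FL hadv hpsh hpop hP0 hc (.fx i)
  | u i => exact gfl_iter_FL hadv hpsh hpop hP0 hc (.fu i)

end fl

end Pool.Agent.Helper17.TV
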