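import Pool.Agent.Helper17.TV.AnsB
import Pool.Agent.Helper17.TV.BlockB
import Pool.Agent.Helper17.TV.BNumFL
import Pool.Agent.Helper17.TV.Gen
import Pool.Agent.Helper17.TU.NumBd
import Pool.Agent.Helper17.TU.NumFL
import Pool.Agent.Helper17.TU.DigEval
import Pool.Agent.Helper17.TU.PhiTFL
import Pool.Agent.Helper17.TU.PrmFL1

set_option autoImplicit false

/-!
Deep turns: assembly for general parameter functions.
-/

namespace Pool.Agent.Helper17.TV

open Pool.Agent.Helper17.SL Pool.Agent.Helper17.UL Pool.Agent.Helper17.TU Pool.Agent.Helper6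

/-- `(G + 1) ^ (y + 1) ≤ 2 ^ (κ y)`. -/
theorem theta_le (G κ y : ℕ) (hy : 1 ≤ y) (hκ : 2 * G ≤ κ) :
    (G + 1) ^ (y + 1) ≤ 2 ^ (κ * y) := by
  have h1 : G + 1 ≤ 2 ^ G := Nat.lt_two_pow_self
  calc (G + 1) ^ (y + 1) ≤ (2 ^ G) ^ (y + 1) := Nat.pow_le_pow_left h1 _
    _ = 2 ^ (G * (y + 1)) := by rw [← pow_mul]
    _ ≤ 2 ^ (κ * y) := by
        refine Nat.pow_le_pow_right (by norm_num) ?_
        calc G * (y + 1) ≤ G * (2 * y) := Nat.mul_le_mul_left _ (by omega)
          _ = 2 * G * y := by ring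
          _ ≤ κ * y := Nat.mul_le_mul_right _ hκ

/-- The core. -/
theorem core2 {α Q Γ : Type} [Fintype α] [Fintype Q] [Fintype Γ] {k : ℕ}
    (δ : PDTrans α Q Γ k) (q₀ : Q) (F : Set Q) :
    ∃ κ K : ℕ, 0 < κ ∧ 0 < K ∧ ∀ (yF eF : List (Option α) → ℕ) (Good : List (Option α) → Prop),
      GoodE κ K yF eF Good →
      ∃ Rr : List (Option α) → Prop, IsL (Option α) Empty (fun w _ => Rr w) ∧
      ∀ (u : List α) (m : ℕ), Good (padW u m) → u.length + 2 ≤ 2 ^ yF (padW u m) →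
        (Rr (padW u m) → ∃ T, AcceptsIn δ q₀ F T u) ∧
        ∀ h t, 2 * t ≤ 2 ^ yF (padW u m) →
          2 * t ≤ qM (yF (padW u m)) ^ eF (padW u m) → h < yF (padW u m) →
          AcceptsDeep δ q₀ F h t u → Rr (padW u m) := by
  classical
  -- the longest word pushed
  obtain ⟨R, hR1, hR⟩ : ∃ R, 1 ≤ R ∧ ∀ q v X, (δ q v X).2.2.length ≤ R := by
    refine ⟨Finset.univ.sup (fun x : Q × (Fin k → Bool × Option α) × Option Γ =>
      (δ x.1 x.2.1 x.2.2).2.2.length) + 1, by omega, fun q v X => ?_⟩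
    exact (Finset.le_sup (f := fun x : Q × (Fin k → Bool × Option α) × Option Γ =>
      (δ x.1 x.2.1 x.2.2).2.2.length) (Finset.mem_univ (q, v, X))).trans (Nat.le_succ _)
  haveI : Finite (Pend Γ R) := (List.finite_length_le Γ R).to_subtype
  letI : Fintype (Pend Γ R) := Fintype.ofFinite _
  let Fb : Q → Bool := fun q => decide (q ∈ F)
  obtain ⟨κ, hκ⟩ : ∃ κ, κ = 2 * (Fintype.card Q * (Fintype.card (Pend Γ R) *
      (Fintype.card Γ + 1)) + k + Fintype.card Γ + 2) + 3 + Fintype.card Q +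
    Fintype.card (Pend Γ R) + 12 := ⟨_, rfl⟩
  obtain ⟨K, hK⟩ : ∃ K, K = Fintype.card (CI (k + 4 + 1)) := ⟨_, rfl⟩
  have hκ0 : 0 < κ := by omega
  have hK0 : 0 < K := by
    rw [hK]
    haveI : Nonempty (CI (k + 4 + 1)) := ⟨CI.ph⟩
    exact Fintype.card_pos
  refine ⟨κ, K, hκ0, hK0, fun yF eF Good hGE => ?_⟩
  let nW : List (Option α) → ℕ := fun w => (w.takeWhile Option.isSome).length
  have hnW : FL (Option α) Empty (fun w _ => nW w) := lead_FL
  obtain ⟨⟨gM, fM, eM⟩, ⟨gm, fm, em⟩, ⟨gbb, fbb, ebb⟩, ⟨gd, fd, ed⟩, ⟨gq, fq, eq'⟩,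
    ⟨gf, ff, ef⟩, ⟨gr, fr, er⟩, ⟨gt, ft, et⟩, ⟨gn, fn, en⟩, ⟨gB, fB, eB⟩, ⟨gP, fP, eP⟩,
    ⟨gC, fC, eC⟩, ⟨gN, fN, eN⟩⟩ := flg_params' hκ0 hK0 hGE
  obtain ⟨gE, fE, eE'⟩ := id hGE.eF
  obtain ⟨G, hG'⟩ : ∃ G, G = Fintype.card Γ := ⟨_, rfl⟩
  have hThG : FLG Good (fun w => (G + 1) ^ yF w) := by
    refine (FLG.const (G + 1) fun w hw => ?_).pow hGE.yF fun w hw => ?_
    · have := hGE.len w hw
      omega
    · have h1 := (trn19_pow_le hκ0 hGE hw).2.1
      have h2 := theta_le G κ (yF w) (by have := hGE.y4 w hw; omega) (by omega)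
      have h3 : (G + 1) ^ yF w ≤ (G + 1) ^ (yF w + 1) :=
        Nat.pow_le_pow_right (by omega) (by omega)
      omega
  obtain ⟨gT, fT, eT⟩ := hThG
  -- the scheme
  let p : List (Option α) → Prm := fun w => ⟨gB w, gbb w, gM w, gm w, gt w⟩
  have hp : PrmFL (Option α) p := ⟨fB, fbb, fM, fm, ft⟩
  let advW : List (Option α) → (Fin (k + 4 + 1 + 2) → ℕ) → ℕ → Fin (k + 4 + 1 + 2) → ℕ :=
    fun w x y i => min (badv (nadv δ Fb R (npW gN gP nW w)) (npush (Γ := Γ) R (npW gN gP nW w))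
      (nDoPop δ Fb R (npW gN gP nW w)) (gN w) (gP w) (gT w) G (w.length + 1) x y i)
      (w.length + 1)
  let pshW : List (Option α) → (Fin (k + 4 + 1 + 2) → ℕ) → ℕ :=
    fun w => bpsh (npush (Γ := Γ) (k := k) R (npW gN gP nW w)) (gP w) (gT w) G (w.length + 1)
  let popW : List (Option α) → (Fin (k + 4 + 1 + 2) → ℕ) → Prop :=
    fun w => bDoPop (nDoPop δ Fb R (npW gN gP nW w)) (gP w)
  have hadvFL : ∀ i, FL (Option α) (Fin (k + 4 + 1 + 2) ⊕ Unit)
      (fun w z => advW w (z ∘ Sum.inl) (z (Sum.inr ())) i) := fun i =>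
    badv_FL (fun i => nadv_FL δ Fb R fN fP hnW i) (npush_FL R fP) (nDoPop_isL δ Fb R fP)
      fN fP fT G i
  have hpshFL : FL (Option α) (Fin (k + 4 + 1 + 2)) (fun w x => pshW w x) :=
    bpsh_FL (npush_FL R fP) fP fT G
  have hpopFL : IsL (Option α) (Fin (k + 4 + 1 + 2)) (fun w x => popW w x) :=
    bpop_isL (nDoPop_isL δ Fb R fP) fP
  let phi0W : List (Option α) → (Fin (k + 4 + 1 + 2) → ℕ) → (Fin (k + 4 + 1 + 2) → ℕ) →
      RI (k + 4 + 1) → ℕ := fun w g x q =>
    phiG (advW w) (pshW w) (popW w) (gP w) (w.length + 1) (gC w) g x q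
  have hphiFL : ∀ q : RI (k + 4 + 1),
      FL (Option α) (Fin (k + 4 + 1 + 2) ⊕ Fin (k + 4 + 1 + 2))
      (fun w z => phi0W w (z ∘ Sum.inl) (z ∘ Sum.inr) q) := fun q =>
    phiG_FL hadvFL hpshFL hpopFL fP fC q
  obtain ⟨S, hS, hagree⟩ := PhiT_FL p hp gP fP phi0W hphiFL
  let A0 : List (Option α) → Fin (k + 4 + 1 + 2) → ℕ := fun w i =>
    min (b0 k q₀ Γ R i) (w.length + 1)
  have hA0 : ∀ i, FL (Option α) Empty (fun w _ => A0 w i) := fun i => FL.const _
  have ha0 : ∀ v : NI (k + 4 + 1), FL (Option α) Empty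
      (fun w _ => mkN 1 (gE w) 0 0 0 (A0 w) (A0 w) v) := by
    intro v
    cases v with
    | tag => exact FL.one
    | d => exact fE
    | i => exact FL.zero
    | l => exact FL.zero
    | s => exact FL.zero
    | g j => exact hA0 j
    | x j => exact hA0 j
  obtain ⟨out, hout, heval⟩ := uniform_evalq S hS fd fq ff fr fn ha0
  obtain ⟨ps, hps⟩ : ∃ ps, ps = pos (RI.x (⟨3, by omega⟩ : Fin (k + 4 + 1 + 2))) := ⟨_, rfl⟩
  have hpsK : ps ≤ K := by
    rw [hps, hK]
    exact ((Fintype.equivFin _ _).isLt.le).trans card_RI_le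
  refine ⟨fun w => tabF Fb (out w / min (gB w ^ (min ps (w.length + 1)))
    (w.length + 1) % gB w) = 1, tabF_isL Fb ((hout.div (fB.pow (FL.const ps))).mod fB), ?_⟩
  intro u m hgood hn2
  obtain ⟨w, hw⟩ : ∃ w, w = padW u m := ⟨_, rfl⟩
  rw [← hw] at hgood hn2 ⊢
  have hlen : w.length = u.length + m := by rw [hw, padW_length]
  have hnw : nW w = u.length := by rw [hw]; exact padW_lead u m
  -- values of the parameters
  obtain ⟨y, hy⟩ : ∃ y, y = yF w := ⟨_, rfl⟩
  obtain ⟨E, hE⟩ : ∃ E, E = eF w := ⟨_, rfl⟩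
  have hy4 : 4 ≤ y := by rw [hy]; exact hGE.y4 w hgood
  have hcap : E ≤ qCap y := by rw [hy, hE]; exact hGE.cap w hgood
  have hsz : ∀ s ∈ sizesE κ K y E, s ≤ w.length := by rw [hy, hE]; exact hGE.sz w hgood
  rw [← hy] at hn2
  rw [← hy, ← hE]
  have hlenK := hGE.len w hgood
  obtain ⟨x1, x2, x3, x4, x5, x6, x7, x8, x9, x10, x11, x12, x13, x14⟩ :=
    prmE_exact κ K y E hκ0 hK0 hy4 hcap
  have s1 : qr κ K y ^ qn κ K y E ≤ w.length := hsz _ (by simp [sizesE])
  have s2 : qf κ K y ^ qd κ K y ≤ w.length := hsz _ (by simp [sizesE])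
  have s3 : qf κ K y ^ 2 ≤ w.length := hsz _ (by simp [sizesE])
  have s4 : qq y ^ (2 * qd κ K y) ≤ w.length := hsz _ (by simp [sizesE])
  have s5 : qB κ y + 2 ^ (κ * y) * qM y ^ (E + 1) ≤ w.length := hsz _ (by simp [sizesE])
  have s6 : 4 * qM y + 6 ≤ w.length := hsz _ (by simp [sizesE])
  have s7 : qr κ K y ≤ w.length := hsz _ (by simp [sizesE])
  have EM : gM w = qM y := by rw [eM w hgood, hy]
  have Em : gm w = 4 * qM y + 6 := by rw [em w hgood, hy]
  have Ebb : gbb w = qZ y * qd κ K y := by rw [ebb w hgood, hy]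
  have Ed : gd w = qd κ K y := by rw [ed w hgood, hy]
  have Eq' : gq w = qq y := by rw [eq' w hgood, hy]
  have Ef : gf w = qf κ K y := by rw [ef w hgood, hy]
  have Er : gr w = qr κ K y := by rw [er w hgood, hy]
  have Et : gt w = qt κ K y := by rw [et w hgood, hy]
  have En : gn w = qn κ K y E := by rw [en w hgood, hy, hE]
  have EB : gB w = qB κ y := by rw [eB w hgood, hy]
  have EP : gP w = 2 ^ (κ * y) := by rw [eP w hgood, hy]
  have EC : gC w = 2 ^ (κ * y) + 1 := by rw [eC w hgood, hy]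
  have EN : gN w = 2 ^ (κ * y) * qM y ^ E := by rw [eN w hgood, hy, hE]
  have EE : gE w = E := by rw [eE' w hgood, hE]
  have ET : gT w = (G + 1) ^ y := by rw [eT w hgood, hy]
  have hpw : p w = ⟨qB κ y, qZ y * qd κ K y, qM y, 4 * qM y + 6, qt κ K y⟩ := by
    simp only [p, EM, Em, EB, Ebb, Et]
  have hP0 : 0 < 2 ^ (κ * y) := by positivity
  have hBlen : qB κ y ≤ w.length := (Nat.le_add_right _ _).trans s5
  have hNOK : NOK Q Γ u.length R (2 ^ (κ * y) * qM y ^ E) (qB κ y) := by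
    refine ⟨x3, ?_, ?_, ?_, ?_, ?_⟩ <;> omega
  have hNP : NPOK u u.length (2 ^ (κ * y) * qM y ^ E) (2 ^ (κ * y)) (qB κ y)
      (npW gN gP nW w) := by
    refine ⟨EN, EP, hnw, fun z => ?_, ?_⟩
    · show oc ((w[z - 1]?).join) = oc (u[z - 1]?)
      rw [hw, padW_get]
    · show qB κ y ≤ w.length + 1
      omega
  have hbK : 2 ^ (qZ y * qd κ K y) = qB κ y ^ Fintype.card (CI (k + 4 + 1)) := by
    rw [← hK]; exact x13
  have hmr : 4 * qM y + 6 ≤ qr κ K y := Nat.le_add_left _ _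
  have hA0w : A0 w = b0 k q₀ Γ R := by
    funext i
    have := b0_lt hNOK (k := k) q₀ i
    exact min_eq_left (by omega)
  -- the function for blocks
  have hPlen : 2 ^ (κ * y) ≤ w.length := by
    have h1 : 1 ≤ qM y ^ (E + 1) := Nat.one_le_pow _ _ x1
    have h2 : 2 ^ (κ * y) ≤ 2 ^ (κ * y) * qM y ^ (E + 1) := Nat.le_mul_of_pos_right _ h1
    omega
  have hPB : 2 ^ (κ * y) < qB κ y := by
    have h1 : 1 ≤ qM y ^ E := Nat.one_le_pow _ _ x1
    have h2 : 2 ^ (κ * y) ≤ 2 ^ (κ * y) * qM y ^ E := Nat.le_mul_of_pos_right _ h1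
    omega
  have hTh1 : (G + 1) ^ (y + 1) ≤ 2 ^ (κ * y) := theta_le G κ y (by omega) (by omega)
  have hTh0 : (G + 1) ^ y ≤ (G + 1) ^ (y + 1) := Nat.pow_le_pow_right (by omega) (by omega)
  have hThB : (G + 1) ^ y < qB κ y := by omega
  have hphilt : ∀ g x q, (∀ j, g j < qB κ y) → (∀ j, x j < qB κ y) →
      phi0W w g x q < qB κ y := fun g x q hg hx =>
    phiG_lt (adv := advW w) (psh := pshW w) (dpop := popW w)
      (fun x y' hx hy' i => lt_of_le_of_lt (min_le_left _ _) <| badv_lt (fun x y hx hy i =>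
          nadv_lt hNOK δ Fb (npW gN gP nW w) EN hnw x y hx hy i)
        (by rw [EN]; exact x3) (by rw [ET]; exact hThB) (by rw [ET]; positivity) hNOK.h2
        x y' hx hy' i)
      (fun x _ => bpsh_lt (by have := hNOK.hG; omega) x) hNOK.h2 (gC w) g x hg hx q
  have hnum := numOK δ Fb hNOK hNP
  have hphi0 : ∀ g x : TV (2 ^ (κ * y) * qM y ^ E)
      (Option Bool × BCtl (UCtl Q Γ k u.length R) Γ y),
      phi0W w (kB kU g) (kB kU x) =
        cRes (kB kU) (phiB (tact (bact (uact δ Fb u) y) (2 ^ (κ * y))) (2 ^ (κ * y)) g x) := by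
    intro g x
    show phiG (advW w) (pshW w) (popW w) (gP w) (w.length + 1) (gC w) (kB kU g) (kB kU x) = _
    rw [EC, EP]
    refine phiG_kv (stp := tact (bact (uact δ Fb u) y) (2 ^ (κ * y))) (kv := kB kU)
      (fun v => ?_) (fun v => ?_) (fun v z => ?_) (fun v => ?_) (fun v => ?_) (by omega) g x
    · simp [kB]
    · simp [kB]
    · have h1 := badv_eq (N := 2 ^ (κ * y) * qM y ^ E) (W := y) (by omega) hnum (2 ^ (κ * y))
        (w.length + 1) (by rw [← hG']; omega) v z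
      funext i
      have h2 := kB_lt hNOK (W := y) (by rw [← hG']; exact hThB.le)
        (vadv (tact (bact (uact δ Fb u) y) (2 ^ (κ * y))) v z) i
      rw [h1] at h2 ⊢
      simp only [advW, EN, EP, ET, hG'] at h2 ⊢
      rw [min_eq_left (by omega)]
    · have h1 := bpsh_eq (N := 2 ^ (κ * y) * qM y ^ E) (W := y) (by omega) hnum (2 ^ (κ * y))
        (w.length + 1) (by rw [← hG']; omega) v
      rw [← h1]
      simp only [pshW, EP, ET, hG']
    · have h1 := bpop_eq (N := 2 ^ (κ * y) * qM y ^ E) (W := y) (by omega) hnum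
        (2 ^ (κ * y)) v
      rw [← h1]
      simp only [popW, EP]
  -- agreement
  have hag := hagree w E (qr κ K y) (by rw [hpw]; exact hNOK.h2) (by rw [hpw]; exact x1)
    (by rw [hpw]; exact Nat.succ_pos _) (by rw [hpw]; exact x6) (by rw [hpw]; exact hbK)
    (fun g x q hg hx => by
      rw [hpw] at hg hx ⊢
      exact hphilt g x q hg hx)
    (by
      rw [hpw]
      show 2 ^ (2 * (qZ y * qd κ K y)) ≤ w.length
      have : 2 ^ (2 * (qZ y * qd κ K y)) = qq y ^ (2 * qd κ K y) := by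
        unfold qq
        rw [← pow_mul]
        congr 1
        ring
      rw [this]
      exact s4)
    (by rw [hpw, EP]; exact s5)
    (by
      rw [hpw]
      have : 4 * qM y + 4 ≤ w.length := by omega
      exact this) s7
  have hok := PhiT_ok (p w) (gP w) (phi0W w) (D := E) (r := qr κ K y)
    (by rw [hpw]; exact Nat.pos_of_ne_zero (by unfold qB; positivity))
    (by rw [hpw]; exact Nat.succ_pos _)
    (by rw [hpw]; exact hmr) (by rw [hpw]; exact x14)
  have hG : PhiG (p w) E (qr κ K y)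
      (mkN 1 E 0 0 0 (b0 k q₀ Γ R) (b0 k q₀ Γ R)) := by
    refine ⟨by norm_num [mkN], le_rfl, Nat.zero_le _, ?_, ?_, fun j => ?_⟩
    · simp only [mkN]; omega
    · simp only [mkN]; positivity
    · rw [hpw]
      exact ⟨b0_lt hNOK q₀ j, b0_lt hNOK q₀ j⟩
  have hdep : PhiDep (p w) (mkN 1 E 0 0 0 (b0 k q₀ Γ R) (b0 k q₀ Γ R)) =
      E * (p w).Del := dep_mk1 _ _ _ _ _ _ _
  have hDel : E * (p w).Del + 1 = qn κ K y E := by rw [hpw]; rfl
  have hM2 : 2 ≤ qM y := Nat.le_add_left 2 _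
  have hEw : E ≤ w.length := by
    have h1 : E < 2 ^ E := Nat.lt_two_pow_self
    have h2 : 2 ^ E ≤ qM y ^ E := Nat.pow_le_pow_left hM2 E
    have h3 : qM y ^ E ≤ qM y ^ (E + 1) := Nat.pow_le_pow_right (by omega) (by omega)
    have h4 : qM y ^ (E + 1) ≤ 2 ^ (κ * y) * qM y ^ (E + 1) := Nat.le_mul_of_pos_left _ hP0
    omega
  have hev := heval w (PhiG (p w) E (qr κ K y)) (PhiDep (p w)) (qZ y * qd κ K y)
    (by rw [Eq', Ed]; exact x12)
    (by rw [Er]; have := hag.ok hok; rwa [hpw] at this ⊢)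
    (by
      rintro a ⟨h1, h2, h3, h4, h5, h6⟩ v
      rw [hpw] at h3 h5 h6
      simp only at h3 h5 h6
      have h7 : 2 ^ (qZ y * qd κ K y) ≤ w.length := by
        rw [x12]
        exact (Nat.pow_le_pow_right (by omega) (by omega)).trans s4
      cases v with
      | tag => omega
      | d => omega
      | i => omega
      | l => omega
      | s => omega
      | g j => have := (h6 j).1; omega
      | x j => have := (h6 j).2; omega)
    (by rw [EE, hA0w]; exact hG)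
    (by rw [EE, hA0w, En, hdep, hDel])
    (by rw [Ef]; exact x7) (by rw [Eq']; exact x9) (by rw [Eq', Ef]; exact x10)
    (by rw [Ed, Eq', Ef]; exact x8)
    (by rw [Ef, Er]; exact Nat.le_add_right _ _)
    (by rw [Er, En]; exact s1) (by rw [Ef, Ed]; exact s2) (by rw [Ef]; exact s3)
    (by rw [Eq', Ed]; exact s4)
  rw [EE, hA0w, En] at hev
  have hval := hag.val_eq hok (qn κ K y E) _ hG (by rw [hdep]; omega)
  rw [hval] at hev
  have hans := answerB (W := y) δ q₀ Fb u (P₀ := 2 ^ (κ * y)) (E := E) (p w) hP0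
    (by rw [hpw]; exact x1) (by rw [hpw]; exact hNOK) (by rw [hpw, ← hG']; exact hThB.le)
    (by rw [hpw]; exact x6) (by rw [hpw])
    (by rw [hpw]; exact hbK)
    (r := qr κ K y) (by rw [hpw]; exact hmr) (by rw [hpw]; exact x14) (phi0W w)
    (by rw [hpw]; exact hphi0) (qn κ K y E) (by omega)
  have hF : {q | Fb q = true} = F := by ext q; simp [Fb]
  have hps1 : min ps (w.length + 1) = ps := by
    apply min_eq_left
    omega
  have hqB2 : 2 ≤ qB κ y := by have := hNOK.h2; omega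
  have hps2 : min (qB κ y ^ ps) (w.length + 1) = qB κ y ^ ps := by
    apply min_eq_left
    have h1 : qB κ y ^ ps ≤ qB κ y ^ K := Nat.pow_le_pow_right (by omega) hpsK
    have h7 : 2 ^ (qZ y * qd κ K y) ≤ w.length := by
      rw [x12]
      exact (Nat.pow_le_pow_right (by omega) (by omega)).trans s4
    rw [← x13] at h1
    omega
  have hkey : (tabF Fb (out w / min (gB w ^ (min ps (w.length + 1)))
      (w.length + 1) % gB w) = 1) ↔
      Fb ((trun (tact (bact (uact (n := u.length) (R := R) δ Fb u) y) (2 ^ (κ * y)))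
        ((none, binit Γ k u.length R y q₀), []) (2 ^ (κ * y) * qM y ^ E)).1.2.1.1) = true := by
    rw [hpw] at hans
    simp only at hans
    rw [← hans, EB, hps1, hps2, hev, hpw, EP]
    simp only [decI, hps]
  refine ⟨fun h => ?_, fun h t ht1 ht2 hh hacc => ?_⟩
  · have h1 := deep_sound δ q₀ Fb u rfl hR _ _ (hkey.mp h)
    rw [hF] at h1
    exact h1
  · refine hkey.mpr ?_
    rw [← hF] at hacc
    haveI : Finite (Pend Γ y) := (List.finite_length_le Γ y).to_subtype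
    letI : Fintype (Pend Γ y) := Fintype.ofFinite _
    refine deep_complete δ q₀ Fb u rfl hR h t hh hacc hP0 ?_ _ ?_
    · exact block_bound2 k u.length R y t (by omega) hn2 ht1 κ (by omega)
    · rw [mul_comm (2 * t)]
      exact Nat.mul_le_mul_left _ ht2

end Pool.Agent.Helper17.TV
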