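import Pool.Agent.Helper17.SL.Defs

set_option autoImplicit false

/-!
Two-way multihead deterministic pushdown automata which accept with few deep turns.
-/

namespace Pool.Agent.Helper17.TV

open Pool.Agent.Helper17.SL

/-- The height of the stack after `m` moves on the word `w`. -/
def height {α Q Γ : Type} {k : ℕ} (δ : PDTrans α Q Γ k) (q₀ : Q) (w : List α) (m : ℕ) : ℕ :=
  ((pdStep δ w)^[m] (q₀, fun _ => 0, [])).2.2.length

/-- The automaton reaches a state of `F` on the word `w`, and up to this moment the height of the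
stack has at most `t` pieces which are monotone up to fluctuations of size `h`: there are times
`0 = τ 0 ≤ τ 1 ≤ … ≤ τ t` such that the state at time `τ t` belongs to `F`, and within each
`[τ i, τ (i + 1)]` the height never falls by more than `h` below an earlier value, or never rises
by more than `h` above an earlier value. -/
def AcceptsDeep {α Q Γ : Type} {k : ℕ} (δ : PDTrans α Q Γ k) (q₀ : Q) (F : Set Q) (h t : ℕ)
    (w : List α) : Prop :=
  ∃ τ : ℕ → ℕ, τ 0 = 0 ∧ Monotone τ ∧ ((pdStep δ w)^[τ t] (q₀, fun _ => 0, [])).1 ∈ F ∧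
    ∀ i < t,
      (∀ m m', τ i ≤ m → m ≤ m' → m' ≤ τ (i + 1) →
        height δ q₀ w m ≤ height δ q₀ w m' + h) ∨
      (∀ m m', τ i ≤ m → m ≤ m' → m' ≤ τ (i + 1) →
        height δ q₀ w m' ≤ height δ q₀ w m + h)

end Pool.Agent.Helper17.TV
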