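import Pool.Agent.Helper17.TU.Unpad1
import Pool.Agent.Helper17.UL.Ans
import Pool.Agent.Helper7.UL.Lead

set_option autoImplicit false

/-!
Deep turns: multihead automata can work on an initial part of the word.
-/

namespace Pool.Agent.Helper17.TV

open Pool.Agent.Helper6 Pool.Agent.Helper17.UL Relation

/-- A letter of an initial part. -/
private theorem dt9_let {β V : Type} [Finite V] (v e : V) (o : Option β) :
    IsL β V (fun w z => (w.take (z v))[z e - 1]? = o) := by
  have hlt : IsL β V (fun _ z => ¬ z v = 0 ∧ z e ≤ z v) :=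
    IsL.and (IsL.not (IsL.isZero v)) (isL_le (FL.proj e) (FL.proj v))
  match o with
  | none =>
    refine IsL.congr (IsL.or (IsL.not hlt) (IsL.sym e (fun s => s.2 = none))) ?_
    intro w z _
    rw [List.getElem?_take]
    simp only [rd]
    by_cases h : z e - 1 < z v
    · rw [if_pos h]
      constructor
      · exact Or.inr
      · rintro (h1 | h1)
        · exfalso
          apply h1
          omega
        · exact h1
    · rw [if_neg h]
      constructor
      · intro _
        left
        omega
      · intro _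
        rfl
  | some a =>
    refine IsL.congr (IsL.and hlt (IsL.sym e (fun s => s.2 = some a))) ?_
    intro w z _
    rw [List.getElem?_take]
    simp only [rd]
    by_cases h : z e - 1 < z v
    · rw [if_pos h]
      constructor
      · intro h1
        exact ⟨by omega, h1⟩
      · rintro ⟨_, h1⟩
        exact h1
    · rw [if_neg h]
      constructor
      · intro h1
        exact absurd h1 (by simp)
      · rintro ⟨h1, _⟩
        exfalso
        omega

/-- What a head sees on an initial part. -/
private theorem dt9_rd {β V : Type} [Finite V] (v e : V) (s : Bool × Option β) :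
    IsL β V (fun w z => rd (w.take (z v)) (z e) = s) := by
  obtain ⟨b, o⟩ := s
  refine IsL.congr (IsL.and (IsL.iff (IsL.const (b = true)) (IsL.isZero e))
    (dt9_let v e o)) ?_
  intro w z _
  simp only [rd, Prod.mk.injEq]
  refine and_congr ?_ Iff.rfl
  rw [Bool.eq_iff_iff, decide_eq_true_iff]
  exact Iff.comm

/-- The movement of a head on an initial part. -/
private theorem dt9_mv {β V : Type} [Finite V] (v e e' : V) (d : Fin 3) :
    IsL β V (fun w z => z e' = mv (w.take (z v)).length d (z e)) := by
  match d with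
  | 0 =>
    refine IsL.congr (IsL.mvGraph 0 e e') ?_
    intro w z _
    simp only [mv_zero]
  | 1 =>
    refine IsL.congr (IsL.mvGraph 1 e e') ?_
    intro w z _
    simp only [mv_one]
  | 2 =>
    refine IsL.congr (isL_eq (FL.proj e') (FL.min' (FL.succ (FL.proj e))
      (FL.succ (FL.proj v)))) ?_
    intro w z _
    simp only [mv_two, List.length_take]
    omega

/-- The step on an initial part. -/
private def dt9_E {β P : Type} {k : ℕ} (η : FDTrans β P k) (w : List β)
    (p : Unit → ℕ) (q q' : P × (Fin k → ℕ)) : Prop :=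
  q' = fdStep η (w.take (p ())) q

private theorem dt9_isLE {β P : Type} [Finite β] {k : ℕ} (η : FDTrans β P k) (a b : P) :
    IsL β (Unit ⊕ (Fin k ⊕ Fin k)) (fun w z =>
      dt9_E η w (z ∘ Sum.inl) (a, z ∘ Sum.inr ∘ Sum.inl) (b, z ∘ Sum.inr ∘ Sum.inr)) := by
  have h1 : IsL β (Unit ⊕ (Fin k ⊕ Fin k)) (fun w z =>
      ∃ s : Fin k → Bool × Option β, (∀ j, rd (w.take (z (Sum.inl ())))
        (z (Sum.inr (Sum.inl j))) = s j) ∧
        ((η a s).1 = b ∧ ∀ j, z (Sum.inr (Sum.inr j)) =
          mv (w.take (z (Sum.inl ()))).length ((η a s).2 j) (z (Sum.inr (Sum.inl j))))) := by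
    refine IsL.bigOr (fun s => IsL.and ?_ (IsL.and (IsL.const _) ?_))
    · exact IsL.bigAnd (fun j => dt9_rd _ _ (s j))
    · exact IsL.bigAnd (fun j => dt9_mv _ _ _ _)
  refine IsL.congr h1 ?_
  intro w z _
  constructor
  · intro h
    refine ⟨_, fun j => rfl, ?_, ?_⟩
    · exact (congrArg Prod.fst h).symm
    · intro j
      exact congrFun (congrArg Prod.snd h) j
  · rintro ⟨s, hs, h2, h3⟩
    have hs' : s = fun j => rd (w.take (z (Sum.inl ()))) (z (Sum.inr (Sum.inl j))) := by
      funext j
      exact (hs j).symm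
    subst hs'
    refine Prod.ext ?_ ?_
    · exact h2.symm
    · funext j
      exact h3 j

/-- Piece DT-9. -/
theorem take_isL {β : Type} [Fintype β] {R : List β → Prop}
    (h : IsL β Empty (fun w _ => R w)) : IsL β Unit (fun w z => R (w.take (z ()))) := by
  classical
  obtain ⟨k, P, _, η, p₀, G, hη⟩ := h.toAutomaton
  have hη' : ∀ w : List β, R w ↔ FDAccepts η p₀ G w := hη
  have hgood : ∀ (w : List β) (p : Unit → ℕ) (q : P × (Fin k → ℕ)), Good w q →
      Good w (fdStep η (w.take (p ())) q) := by
    intro w p q hq v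
    have hv := hq v
    have h1 : ∀ (d : Fin 3) (x : ℕ), x ≤ w.length + 1 →
        mv (w.take (p ())).length d x ≤ w.length + 1 := by
      intro d x hx
      have h2 : (w.take (p ())).length ≤ w.length := by
        rw [List.length_take]
        exact min_le_right _ _
      match d with
      | 0 => simp only [mv_zero]; omega
      | 1 => simp only [mv_one]; omega
      | 2 => simp only [mv_two]; omega
    exact h1 _ _ hv
  have hdtc := fun g : P => IsL.dtcCtl (E := dt9_E η) (dt9_isLE η)
    (fun w p q d _ hq hE => by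
      have hE' : d = fdStep η (w.take (p ())) q := hE
      rw [hE']
      exact hgood w p q hq)
    (fun w p q d d' _ _ h1 h2 => by
      have h1' : d = fdStep η (w.take (p ())) q := h1
      have h2' : d' = fdStep η (w.take (p ())) q := h2
      rw [h1', h2']) p₀ g
  have h2 : IsL β Unit (fun w x => ∃ g : G, ∃ t : Fin k ⊕ Fin k → ℕ,
      (∀ u, t u ≤ w.length + 1) ∧ ((∀ v, Sum.elim x t (Sum.inr (Sum.inl v)) = 0) ∧
        ReflTransGen (dt9_E η w (Sum.elim x t ∘ Sum.inl))
          (p₀, Sum.elim x t ∘ Sum.inr ∘ Sum.inl)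
          (g.1, Sum.elim x t ∘ Sum.inr ∘ Sum.inr))) := by
    refine IsL.bigOr (fun g => ?_)
    have h3 : IsL β (Unit ⊕ (Fin k ⊕ Fin k)) (fun w z =>
        (∀ v, z (Sum.inr (Sum.inl v)) = 0) ∧
        ReflTransGen (dt9_E η w (z ∘ Sum.inl))
          (p₀, z ∘ Sum.inr ∘ Sum.inl) (g.1, z ∘ Sum.inr ∘ Sum.inr)) :=
      IsL.and (IsL.bigAnd (fun v => IsL.isZero _)) (hdtc g.1)
    exact IsL.ex h3
  refine IsL.congr h2 ?_
  intro w x _
  rw [hη']
  constructor
  · rintro ⟨m, hm⟩
    have key : ∀ m : ℕ, Good w ((fdStep η (w.take (x ())))^[m] (p₀, fun _ => 0)) ∧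
        ReflTransGen (dt9_E η w x) (p₀, fun _ => 0)
          ((fdStep η (w.take (x ())))^[m] (p₀, fun _ => 0)) := by
      intro m
      induction m with
      | zero => exact ⟨fun _ => Nat.zero_le _, ReflTransGen.refl⟩
      | succ m ih =>
        rw [Function.iterate_succ_apply']
        exact ⟨hgood w x _ ih.1, ReflTransGen.tail ih.2 rfl⟩
    obtain ⟨g1, g2⟩ := key m
    refine ⟨⟨_, hm⟩, Sum.elim (fun _ => 0) _, ?_, fun v => rfl, g2⟩
    rintro (v | v)
    · exact Nat.zero_le _
    · exact g1 v
  · rintro ⟨g, t, _, h3, h4⟩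
    have key : ∀ d : P × (Fin k → ℕ),
        ReflTransGen (dt9_E η w (Sum.elim x t ∘ Sum.inl))
          (p₀, Sum.elim x t ∘ Sum.inr ∘ Sum.inl) d →
        ∃ m : ℕ, d = (fdStep η (w.take (x ())))^[m] (p₀, fun _ => 0) := by
      intro d hd
      induction hd with
      | refl =>
        refine ⟨0, ?_⟩
        have e1 : (Sum.elim x t ∘ Sum.inr ∘ Sum.inl : Fin k → ℕ) = fun _ => 0 := by
          funext v
          exact h3 v
        rw [e1]
        rfl
      | tail _ hs ih =>
        obtain ⟨m, hm⟩ := ih
        refine ⟨m + 1, ?_⟩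
        rw [Function.iterate_succ_apply', ← hm]
        exact hs
    obtain ⟨m, hm⟩ := key _ h4
    refine ⟨m, ?_⟩
    rw [← hm]
    exact g.2

/-- Piece DT-9. -/
theorem prefix_isL {α : Type} [Fintype α] {R : List (Option α) → Prop}
    (h : IsL (Option α) Empty (fun w _ => R w)) :
    IsL (Option α) Empty (fun w _ => ∃ j, (w.takeWhile Option.isSome).length ≤ j ∧
      j ≤ w.length ∧ R (w.take j)) := by
  have h1 : IsL (Option α) (Empty ⊕ Unit) (fun w z =>
      (w.takeWhile Option.isSome).length ≤ z (Sum.inr ()) ∧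
      (z (Sum.inr ()) < w.length + 1 ∧ R (w.take (z (Sum.inr ()))))) := by
    refine IsL.and (isL_le (FL.comp lead_FL (g := fun u => u.elim) (fun u => u.elim))
      (FL.proj _)) (IsL.and (isL_lt (FL.proj _) FL.len) ?_)
    exact isL_comp (U := Unit) (R := fun w x => R (w.take (x ()))) (take_isL h)
      (g := fun _ _ z => z (Sum.inr ())) (fun _ => FL.proj _)
  refine isL_ex1 h1 ?_
  intro w x _
  constructor
  · rintro ⟨j, h2, h3, h4⟩
    exact ⟨j, by omega, h2, by simp only [Sum.elim_inr]; omega, h4⟩
  · rintro ⟨j, _, h2, h3, h4⟩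
    simp only [Sum.elim_inr] at h2 h3 h4
    exact ⟨j, h2, by omega, h4⟩

/-- Piece DT-9. -/
theorem padW_take {α : Type} (u : List α) (m j : ℕ) (h1 : u.length ≤ j)
    (h2 : j ≤ u.length + m) : (padW u m).take j = padW u (j - u.length) := by
  unfold padW
  rw [List.take_append, List.take_of_length_le (by simpa using h1), List.take_replicate,
    List.length_map, min_eq_left (by omega)]

end Pool.Agent.Helper17.TV
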