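import Pool.Agent.Helper17.TU.PrmFL0
import Pool.Agent.Helper17.TU.PrmSz
import Pool.Agent.Helper17.TU.PrmCh

set_option autoImplicit false

/-!
Deep turns: the good padded words; the parameter `y` is read from the length of the word.
-/

namespace Pool.Agent.Helper17.TV

open Pool.Agent.Helper6 Pool.Agent.Helper17.UL Pool.Agent.Helper17.TU

/-- The parameter read from the length. -/
def yP (len : ℕ) : ℕ := len % (Nat.log 2 len + 1)

/-- The good padded words. -/
def Good2 {α : Type} (C0 K0 : ℕ) (w : List (Option α)) : Prop :=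
  K0 ≤ w.length ∧ (w.takeWhile Option.isSome).length + 16 ≤ w.length ∧
    4 ≤ yP w.length ∧ C0 * yP w.length ≤ Nat.log 2 w.length ∧
    (w.takeWhile Option.isSome).length + 2 ≤ 2 ^ yP w.length

section

variable {α : Type} [Fintype α] (C0 K0 : ℕ)

theorem yP_FL {β : Type} : FL β Empty (fun w _ => yP w.length) := by
  have hlen : FL β Empty (fun w _ => w.length) := FL.pred FL.len
  refine FL.congr (FL.mod hlen (FL.succ (FL.log2 hlen))) fun w x _ => ?_
  unfold yP
  have := Nat.log_le_self 2 w.length
  rw [min_eq_left (by omega)]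

theorem good2_isL (hK0 : 40 ≤ K0) :
    IsL (Option α) Empty (fun w _ => Good2 (α := α) C0 K0 w) := by
  have hy := yP_FL (β := Option α)
  have hlen : FL (Option α) Empty (fun w _ => w.length) := FL.pred FL.len
  have hmul : FL (Option α) Empty (fun w _ =>
      min (min C0 (w.length + 1) * yP w.length) (w.length + 1)) := FL.mul (FL.const C0) hy
  have h1 : IsL (Option α) Empty (fun w _ => min K0 (w.length + 1) < w.length + 1) :=
    isL_lt (FL.const K0) FL.len
  have h2 : IsL (Option α) Empty (fun w _ => min ((w.takeWhile Option.isSome).length +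
      min 16 (w.length + 1)) (w.length + 1) < w.length + 1) :=
    isL_lt (FL.add (lead_FL (α := α)) (FL.const 16)) FL.len
  have h3 : IsL (Option α) Empty (fun w _ => min 4 (w.length + 1) ≤ yP w.length) :=
    isL_le (FL.const 4) hy
  have h4 : IsL (Option α) Empty (fun w _ =>
      min (min C0 (w.length + 1) * yP w.length) (w.length + 1) ≤ Nat.log 2 w.length) :=
    isL_le hmul (FL.log2 hlen)
  have h5 : IsL (Option α) Empty (fun w _ => min ((w.takeWhile Option.isSome).length +
      min 2 (w.length + 1)) (w.length + 1) ≤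
      min (min 2 (w.length + 1) ^ yP w.length) (w.length + 1)) :=
    isL_le (FL.add (lead_FL (α := α)) (FL.const 2)) (FL.pow (FL.const 2) hy)
  refine (h1.and (h2.and (h3.and (h4.and h5)))).congr fun w x _ => ?_
  unfold Good2
  have e1 : min K0 (w.length + 1) < w.length + 1 ↔ K0 ≤ w.length := by omega
  have e2 : min ((w.takeWhile Option.isSome).length + min 16 (w.length + 1))
      (w.length + 1) < w.length + 1 ↔
      (w.takeWhile Option.isSome).length + 16 ≤ w.length := by omega
  rw [e1, e2]
  refine and_congr_right fun g1 => and_congr_right fun g2 => ?_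
  have e3 : min 4 (w.length + 1) = 4 := min_eq_left (by omega)
  have e4 : min 2 (w.length + 1) = 2 := min_eq_left (by omega)
  rw [e3, e4]
  refine and_congr_right fun g3 => ?_
  have hl : Nat.log 2 w.length ≤ w.length := Nat.log_le_self 2 _
  refine and_congr ?_ ?_
  · generalize yP w.length = y at g3
    generalize Nat.log 2 w.length = l at hl
    rcases Nat.le_total C0 (w.length + 1) with h | h
    · rw [min_eq_left h]
      omega
    · rw [min_eq_right h]
      have e3 : w.length + 1 ≤ (w.length + 1) * y := Nat.le_mul_of_pos_right _ (by omega)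
      have e4 : C0 ≤ C0 * y := Nat.le_mul_of_pos_right _ (by omega)
      rw [min_eq_right e3]
      constructor
      · intro h7; omega
      · intro h7; omega
  · have e5 : min ((w.takeWhile Option.isSome).length + 2) (w.length + 1) =
        (w.takeWhile Option.isSome).length + 2 := min_eq_left (by omega)
    rw [e5]
    generalize 2 ^ yP w.length = z
    omega

theorem good2_eE (hC0 : 1 ≤ C0) (hK0 : 40 ≤ K0) : FLG (Good2 (α := α) C0 K0)
    (fun w => eE C0 (yP w.length) w.length) := by
  have hy := yP_FL (β := Option α)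
  have hlen : FL (Option α) Empty (fun w _ => w.length) := FL.pred FL.len
  have hmul : FL (Option α) Empty (fun w _ =>
      min (min C0 (w.length + 1) * yP w.length) (w.length + 1)) := FL.mul (FL.const C0) hy
  have hcap : FL (Option α) Empty (fun w _ => min (min 2 (w.length + 1) *
      min (yP w.length / Nat.log 2 (yP w.length) + min 1 (w.length + 1)) (w.length + 1))
        (w.length + 1)) :=
    FL.mul (FL.const 2) (FL.add (FL.div hy (FL.log2 hy)) (FL.const 1))
  have hdiv : FL (Option α) Empty (fun w _ => Nat.log 2 w.length /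
      min (min C0 (w.length + 1) * yP w.length) (w.length + 1) - 1) :=
    FL.pred (FL.div (FL.log2 hlen) hmul)
  have hE := FL.min' hcap hdiv
  refine ⟨fun w => min (min (min 2 (w.length + 1) *
      min (yP w.length / Nat.log 2 (yP w.length) + min 1 (w.length + 1)) (w.length + 1))
        (w.length + 1)) (Nat.log 2 w.length /
      min (min C0 (w.length + 1) * yP w.length) (w.length + 1) - 1), hE, fun w hw => ?_⟩
  obtain ⟨g1, g2, g3, g4, g5⟩ := hw
  have hl : Nat.log 2 w.length ≤ w.length := Nat.log_le_self 2 _
  unfold eE qCap qZ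
  beta_reduce
  generalize yP w.length = y at g3 g4
  have e4 : C0 ≤ C0 * y := Nat.le_mul_of_pos_right _ (by omega)
  have e5 : y ≤ C0 * y := Nat.le_mul_of_pos_left _ (by omega)
  have e6 : y / Nat.log 2 y ≤ y := Nat.div_le_self _ _
  have e7 : Nat.log 2 w.length / (C0 * y) ≤ Nat.log 2 w.length := Nat.div_le_self _ _
  have f1 : min C0 (w.length + 1) = C0 := min_eq_left (by omega)
  have f2 : min (C0 * y) (w.length + 1) = C0 * y := min_eq_left (by omega)
  have f3 : min 2 (w.length + 1) = 2 := min_eq_left (by omega)
  have f4 : min 1 (w.length + 1) = 1 := min_eq_left (by omega)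
  have f5 : min (y / Nat.log 2 y + 1) (w.length + 1) = y / Nat.log 2 y + 1 :=
    min_eq_left (by omega)
  rw [f1, f2, f3, f4, f5]
  omega

theorem goodE_good2 (κ K : ℕ) (hC0 : 1 ≤ C0) (hK0 : κ + K + 40 ≤ K0)
    (hsz : ∀ y E : ℕ, 4 ≤ y → ∀ s ∈ sizesE κ K y E, s ≤ 2 ^ (C0 * y * (E + 1))) :
    GoodE κ K (fun w : List (Option α) => yP w.length)
      (fun w => eE C0 (yP w.length) w.length) (Good2 (α := α) C0 K0) := by
  refine ⟨fun w hw => hw.2.2.1, fun w _ => min_le_left _ _,
    fun w hw s hs => ?_, fun w hw => ?_, ⟨_, yP_FL, fun w _ => rfl⟩,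
    good2_eE C0 K0 hC0 (by omega)⟩
  · obtain ⟨g1, g2, g3, g4, g5⟩ := hw
    have h7 := hsz _ _ g3 s hs
    have h8 := eE_good C0 _ w.length (Nat.mul_pos hC0 (by omega)) g4
    calc s ≤ _ := h7
      _ ≤ 2 ^ Nat.log 2 w.length := Nat.pow_le_pow_right (by norm_num) h8
      _ ≤ w.length := Nat.pow_log_le_self 2 (by omega)
  · have := hw.1
    omega

end

end Pool.Agent.Helper17.TV
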