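import Pool.Agent.Helper17.TU.Unpad2

set_option autoImplicit false

/-!
Deep turns: the number of blanks is polynomial for polylogarithmic `t` and logarithmic `h`.
-/

namespace Pool.Agent.Helper17.TV

open Pool.Agent.Helper17.TU

/-- Piece DT-11. Compare `polylog_pad'` in `TU/Unpad2.lean`: `S = log (n + t + 16) + h ≤
(2 c + 2) log (n + 16)`, `log S ≥ log (log (n + 16)) > 1`, `log t ≤ c log S`. -/
theorem polylog_pad2 (C : ℝ) (hC : 0 < C) (c : ℕ) : ∃ c' : ℕ, 1 ≤ c' ∧ ∀ n t h : ℕ, 1 ≤ t →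
    (t : ℝ) ≤ Real.log (n + 16) ^ c → (h : ℝ) ≤ c * Real.log (n + 16) →
    Real.exp (C * ((Real.log (n + t + 16) + h) *
      (1 + Real.log t / Real.log (Real.log (n + t + 16) + h)))) ≤
      (((n + 2) ^ c' - (n + 2) : ℕ) : ℝ) := by
  obtain ⟨D, hD⟩ := exists_nat_ge (C * ((2 * (c : ℝ) + 2) * 4 * (1 + c)))
  refine ⟨D + 2, by omega, ?_⟩
  intro n t h ht htl hh
  have hn0 : (0 : ℝ) ≤ n := Nat.cast_nonneg n
  have hh0 : (0 : ℝ) ≤ h := Nat.cast_nonneg h
  have ht1 : (1 : ℝ) ≤ t := by exact_mod_cast ht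
  have hc0 : (0 : ℝ) ≤ c := Nat.cast_nonneg c
  have h16 := trn22_log16
  have he : (1 : ℝ) < Real.exp 1 := by
    have := Real.add_one_lt_exp (x := (1 : ℝ)) one_ne_zero
    linarith
  have hl1 : Real.log 16 ≤ Real.log (n + 16) := Real.log_le_log (by norm_num) (by linarith)
  have hL1 : Real.log (n + 16) ≤ Real.log (n + t + 16) :=
    Real.log_le_log (by positivity) (by linarith)
  have hl0 : 0 < Real.log (n + 16) := by linarith
  have hL0 : 0 < Real.log (n + t + 16) := by linarith
  obtain ⟨S, hS⟩ : ∃ S, S = Real.log (n + t + 16) + h := ⟨_, rfl⟩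
  rw [← hS]
  have hSL : Real.log (n + 16) ≤ S := by rw [hS]; linarith
  have hS0 : 0 < S := by linarith
  -- the double logarithm
  have hLL : 1 < Real.log S := by
    rw [Real.lt_log_iff_exp_lt hS0]
    linarith
  have hq : Real.log t / Real.log S ≤ c := by
    rw [div_le_iff₀ (by linarith)]
    have h1 : Real.log t ≤ Real.log (Real.log (n + 16) ^ c) :=
      Real.log_le_log (by linarith) htl
    rw [Real.log_pow] at h1
    have h2 : Real.log (Real.log (n + 16)) ≤ Real.log S := Real.log_le_log hl0 hSL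
    have h3 := mul_le_mul_of_nonneg_left h2 hc0
    linarith
  -- the size of `L`
  have hle : Real.log (n + 16) ≤ n + 16 := by
    have := Real.log_le_sub_one_of_pos (x := (n : ℝ) + 16) (by positivity)
    linarith
  have hL2 : Real.log (n + t + 16) ≤ (c + 2) * Real.log (n + 16) := by
    have h1 : (t : ℝ) ≤ ((n : ℝ) + 16) ^ c := htl.trans (pow_le_pow_left₀ hl0.le hle c)
    have h2 : (1 : ℝ) ≤ ((n : ℝ) + 16) ^ c := one_le_pow₀ (by linarith)
    have h3 : (n : ℝ) + t + 16 ≤ ((n : ℝ) + 16) ^ (c + 2) := by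
      rw [pow_add]
      nlinarith [mul_nonneg hn0 (by linarith : (0 : ℝ) ≤ ((n : ℝ) + 16) ^ c)]
    calc Real.log (n + t + 16) ≤ Real.log (((n : ℝ) + 16) ^ (c + 2)) :=
          Real.log_le_log (by positivity) h3
      _ = (c + 2) * Real.log (n + 16) := by
          rw [Real.log_pow]
          push_cast
          ring
  have hS2 : S ≤ (2 * c + 2) * Real.log (n + 16) := by
    rw [hS]
    linarith
  have hl2 : Real.log (n + 16) ≤ 4 * Real.log (n + 2) := by
    have h1 : (n : ℝ) + 16 ≤ ((n : ℝ) + 2) ^ 4 := by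
      nlinarith [pow_nonneg hn0 2, pow_nonneg hn0 3, pow_nonneg hn0 4]
    calc Real.log (n + 16) ≤ Real.log (((n : ℝ) + 2) ^ 4) :=
          Real.log_le_log (by positivity) h1
      _ = 4 * Real.log (n + 2) := by
          rw [Real.log_pow]
          norm_num
  have hl3 : 0 ≤ Real.log ((n : ℝ) + 2) := Real.log_nonneg (by linarith)
  have hexp : C * (S * (1 + Real.log t / Real.log S)) ≤ D * Real.log (n + 2) := by
    have h1 : S * (1 + Real.log t / Real.log S) ≤
        ((2 * c + 2) * (4 * Real.log (n + 2))) * (1 + c) := by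
      apply mul_le_mul _ (by linarith) _ (by positivity)
      · exact hS2.trans (mul_le_mul_of_nonneg_left hl2 (by positivity))
      · have : 0 ≤ Real.log t := Real.log_nonneg ht1
        positivity
    calc C * (S * (1 + Real.log t / Real.log S))
        ≤ C * (((2 * c + 2) * (4 * Real.log (n + 2))) * (1 + c)) :=
          mul_le_mul_of_nonneg_left h1 hC.le
      _ = (C * ((2 * (c : ℝ) + 2) * 4 * (1 + c))) * Real.log (n + 2) := by ring
      _ ≤ D * Real.log (n + 2) := mul_le_mul_of_nonneg_right hD hl3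
  have hfin : Real.exp (D * Real.log (n + 2)) = (((n + 2) ^ D : ℕ) : ℝ) := by
    rw [← Real.log_pow, Real.exp_log (by positivity)]
    push_cast
    ring
  calc Real.exp (C * (S * (1 + Real.log t / Real.log S)))
      ≤ Real.exp (D * Real.log (n + 2)) := Real.exp_le_exp.2 hexp
    _ = (((n + 2) ^ D : ℕ) : ℝ) := hfin
    _ ≤ (((n + 2) ^ (D + 2) - (n + 2) : ℕ) : ℝ) :=
        Nat.cast_le.2 (trn22_nat (n + 2) D (by omega))

end Pool.Agent.Helper17.TV
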