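import Pool.Agent.Helper17.TV.Core2
import Pool.Agent.Helper17.TV.Prm2
import Pool.Agent.Helper17.TV.Choice2
import Pool.Agent.Helper17.TV.Unpad3
import Pool.Agent.Helper17.TV.Prefix

set_option autoImplicit false

/-!
Deep turns: the theorems.
-/

namespace Pool.Agent.Helper17.TV

open Pool.Agent.Helper17.SL Pool.Agent.Helper17.UL Pool.Agent.Helper17.TU Pool.Agent.Helper6

theorem AcceptsDeep.succ {α Q Γ : Type} {k : ℕ} {δ : PDTrans α Q Γ k} {q₀ : Q} {F : Set Q}
    {h t : ℕ} {u : List α} (H : AcceptsDeep δ q₀ F h t u) : AcceptsDeep δ q₀ F h (t + 1) u := by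
  obtain ⟨τ, h0, hm, hF, hp⟩ := H
  refine ⟨fun i => τ (min i t), by simpa using h0, fun a b hab => hm (min_le_min_right t hab),
    by simpa using hF, fun i hi => ?_⟩
  rcases Nat.lt_or_ge i t with h' | h'
  · have e1 : min i t = i := min_eq_left h'.le
    have e2 : min (i + 1) t = i + 1 := min_eq_left h'
    simp only [e1, e2]
    exact hp i h'
  · have e1 : min i t = t := min_eq_right h'
    have e2 : min (i + 1) t = t := min_eq_right (by omega)
    simp only [e1, e2]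
    refine Or.inl fun m m' h1 h2 h3 => ?_
    have : m = m' := by omega
    rw [this]
    exact Nat.le_add_right _ _

theorem AcceptsDeep.acceptsIn {α Q Γ : Type} {k : ℕ} {δ : PDTrans α Q Γ k} {q₀ : Q}
    {F : Set Q} {h t : ℕ} {u : List α} (H : AcceptsDeep δ q₀ F h t u) :
    ∃ T, AcceptsIn δ q₀ F T u := by
  obtain ⟨τ, _, _, hF, _⟩ := H
  exact ⟨τ t, τ t, le_rfl, hF⟩

theorem deep_turns {α Q Γ : Type} [Fintype α] [Fintype Q] [Fintype Γ] {k : ℕ}
    (δ : PDTrans α Q Γ k) (q₀ : Q) (F : Set Q) :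
    ∃ (C : ℝ) (Rr : List (Option α) → Prop), 0 < C ∧
      IsL (Option α) Empty (fun w _ => Rr w) ∧
      (∀ (u : List α) (m : ℕ), Rr (padW u m) → ∃ T, AcceptsIn δ q₀ F T u) ∧
      ∀ (u : List α) (t h m : ℕ), 1 ≤ t →
        Real.exp (C * ((Real.log (u.length + t + 16) + h) *
          (1 + Real.log t / Real.log (Real.log (u.length + t + 16) + h)))) ≤ m →
        AcceptsDeep δ q₀ F h t u → Rr (padW u m) := by
  obtain ⟨κ, K, hκ, hK, hcore⟩ := core2 δ q₀ F
  obtain ⟨C0, hC0, hsz⟩ := prmE_size κ K hκ hK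
  obtain ⟨C, hC, hch⟩ := choice2 C0 (κ + K + 40) hC0
  have hGE := goodE_good2 (α := α) C0 (κ + K + 40) κ K hC0 le_rfl hsz
  obtain ⟨R0, hR0, hans⟩ := hcore _ _ _ hGE
  have hGL := good2_isL (α := α) C0 (κ + K + 40) (by omega)
  refine ⟨C, _, hC, prefix_isL (R := fun w => Good2 C0 (κ + K + 40) w ∧ R0 w)
    (hGL.and hR0), ?_, ?_⟩
  · rintro u m ⟨j, h1, h2, h3, h4⟩
    rw [padW_lead] at h1
    rw [padW_length] at h2
    rw [padW_take u m j h1 h2] at h3 h4
    refine (hans u _ h3 ?_).1 h4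
    have h5 := h3.2.2.2.2
    rw [padW_lead] at h5
    exact h5
  · intro u t h m ht hm hacc
    obtain ⟨j, y, c1, c2, c3, c4, c5, c6, c7, c8, c9, c10⟩ := hch u.length t h m ht hm
    have hlen : (padW u (j - u.length)).length = j := by
      rw [padW_length]
      omega
    have hyj : yP j = y := c4.symm
    have hg : Good2 C0 (κ + K + 40) (padW u (j - u.length)) := by
      refine ⟨by rw [hlen]; exact c1, ?_, ?_, ?_, ?_⟩
      · rw [padW_lead, hlen]
        omega
      · rw [hlen, hyj]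
        exact c5
      · rw [hlen, hyj]
        exact c6
      · rw [padW_lead, hlen, hyj]
        exact c7
    refine ⟨j, ?_, ?_, ?_⟩
    · rw [padW_lead]
      omega
    · rw [padW_length]
      exact c3
    · rw [padW_take u m j (by omega) c3]
      refine ⟨hg, (hans u (j - u.length) hg ?_).2 h t ?_ ?_ ?_ hacc⟩
      · rw [hlen, hyj]
        exact c7
      · rw [hlen, hyj]
        exact c8
      · rw [hlen, hyj]
        exact c10
      · rw [hlen, hyj]
        exact c9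

/-- The theorem in the model of the frozen statements. -/
theorem deep_turns_aut {α Q Γ : Type} [Fintype α] [Fintype Q] [Fintype Γ] {k : ℕ}
    (δ : PDTrans α Q Γ k) (q₀ : Q) (F : Set Q) :
    ∃ (C : ℝ) (k' : ℕ) (P : Type) (_ : Fintype P) (η : FDTrans (Option α) P k') (p₀ : P)
      (G : Set P),
      (∀ (u : List α) (m : ℕ), FDAccepts η p₀ G (padW u m) → ∃ T, AcceptsIn δ q₀ F T u) ∧
      ∀ (u : List α) (t h m : ℕ), 1 ≤ t →
        Real.exp (C * ((Real.log (u.length + t + 16) + h) *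
          (1 + Real.log t / Real.log (Real.log (u.length + t + 16) + h)))) ≤ m →
        AcceptsDeep δ q₀ F h t u → FDAccepts η p₀ G (padW u m) := by
  obtain ⟨C, Rr, _, hR, h1, h2⟩ := deep_turns δ q₀ F
  obtain ⟨k', P, hP, η, p₀, G, hA⟩ := Pool.Agent.Helper6.IsL.toAutomaton hR
  exact ⟨C, k', P, hP, η, p₀, G, fun u m h => h1 u m ((hA _).mpr h),
    fun u t h m ht hm hacc => (hA _).mp (h2 u t h m ht hm hacc)⟩

/-- Polylogarithmically many deep turns, fluctuations of logarithmic size: logarithmic space. -/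
theorem polylog_deep {α Q Γ : Type} [Fintype α] [Fintype Q] [Fintype Γ] {k : ℕ}
    (δ : PDTrans α Q Γ k) (q₀ : Q) (F : Set Q) (c : ℕ)
    (H : ∀ u : List α, (∃ T, AcceptsIn δ q₀ F T u) →
      ∃ t h : ℕ, (t : ℝ) ≤ Real.log (u.length + 16) ^ c ∧
        (h : ℝ) ≤ c * Real.log (u.length + 16) ∧ AcceptsDeep δ q₀ F h t u) :
    ∃ (k' : ℕ) (P : Type) (_ : Fintype P) (η : FDTrans α P k') (p₀ : P) (G : Set P),
      ∀ u : List α, FDAccepts η p₀ G u ↔ ∃ T, AcceptsIn δ q₀ F T u := by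
  obtain ⟨C, Rr, hC, hR, h1, h2⟩ := deep_turns δ q₀ F
  obtain ⟨c', hc', hpad⟩ := polylog_pad2 C hC c
  obtain ⟨k', P, hP, η, p₀, G, hA⟩ := Pool.Agent.Helper6.IsL.toAutomaton (unpad' hR c' hc')
  refine ⟨k', P, hP, η, p₀, G, fun u => ⟨fun hu => h1 u _ ((hA u).mpr hu), fun hu => ?_⟩⟩
  obtain ⟨t, h, ht, hh, hacc⟩ := H u hu
  refine (hA u).mp ?_
  rcases Nat.eq_zero_or_pos t with h0 | h0
  · subst h0
    refine h2 u 1 h _ le_rfl (hpad u.length 1 h le_rfl ?_ hh) hacc.succ
    have hn0 : (0 : ℝ) ≤ (u.length : ℝ) := Nat.cast_nonneg _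
    have h3 : (1 : ℝ) ≤ Real.log ((u.length : ℝ) + 16) := by
      rw [Real.le_log_iff_exp_le (by linarith)]
      have := Real.exp_one_lt_d9
      linarith
    push_cast
    exact one_le_pow₀ h3
  · exact h2 u t h _ h0 (hpad u.length t h h0 ht hh) hacc

end Pool.Agent.Helper17.TV
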