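import Pool.Agent.Helper17.TV.DeepDef
import Pool.Agent.Helper17.TU.UMach

set_option autoImplicit false

/-!
Deep turns: from the height of the stack of the automaton to that of the untimed machine.
-/

namespace Pool.Agent.Helper17.TV

open Pool.Agent.Helper17.SL Pool.Agent.Helper17.TU

variable {α Q Γ : Type} {k n R : ℕ}

/-- The length of the stack of the untimed machine at the time `usig m`. -/
private theorem dt4_at (δ : PDTrans α Q Γ k) (q₀ : Q) (F : Q → Bool) (w : List α)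
    (hn : w.length = n) (hR : ∀ q v X, (δ q v X).2.2.length ≤ R) (m : ℕ)
    (hF : ∀ m' < m, F (prun δ q₀ w m').1 ≠ true) :
    (urun (uact (n := n) (R := R) δ F w) (uinit Γ k n R q₀, []) (usig δ q₀ w m)).2.length =
      height δ q₀ w m - 1 := by
  rw [urun_usig δ q₀ F w hn hR m hF]
  change (prun δ q₀ w m).2.2.tail.length = (prun δ q₀ w m).2.2.length - 1
  rw [List.length_tail]

/-- The lengths of the stack within one move. -/
private theorem dt4_len (δ : PDTrans α Q Γ k) (q₀ : Q) (F : Q → Bool) (w : List α)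
    (hn : w.length = n) (hR : ∀ q v X, (δ q v X).2.2.length ≤ R) (m : ℕ)
    (hF : ∀ m' < m + 1, F (prun δ q₀ w m').1 ≠ true) :
    ∃ l : ℕ, usig δ q₀ w (m + 1) = usig δ q₀ w m + 1 + (l - 1) ∧
      height δ q₀ w (m + 1) = l + (height δ q₀ w m - 1) ∧
      ∀ i ≤ l - 1, (urun (uact (n := n) (R := R) δ F w) (uinit Γ k n R q₀, [])
        (usig δ q₀ w m + 1 + i)).2.length =
        i + (if l = 0 then height δ q₀ w m - 1 - 1 else height δ q₀ w m - 1) := by
  classical
  have h0 := urun_usig δ q₀ F w hn hR m (fun m' hm' => hF m' (by omega))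
  obtain ⟨r, hr⟩ : ∃ r, r = δ (prun δ q₀ w m).1 (fun j => (decide ((prun δ q₀ w m).2.1 j = 0),
      w[(prun δ q₀ w m).2.1 j - 1]?)) (prun δ q₀ w m).2.2.head? := ⟨_, rfl⟩
  have h4 : usig δ q₀ w (m + 1) = usig δ q₀ w m + 1 + (r.2.2.length - 1) := by
    rw [usig, hr]
  have h3 : (prun δ q₀ w (m + 1)).2.2 = r.2.2 ++ (prun δ q₀ w m).2.2.tail := by
    rw [hr]
    unfold prun
    rw [Function.iterate_succ_apply']
    rfl
  refine ⟨r.2.2.length, h4, ?_, ?_⟩
  · change (prun δ q₀ w (m + 1)).2.2.length = r.2.2.length + ((prun δ q₀ w m).2.2.length - 1)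
    rw [h3, List.length_append, List.length_tail]
  · intro i hi
    have h5 := trn7_phase δ q₀ F w hn hR m (hF m (by omega)) h0 r hr i hi
    rw [h5]
    change (((r.2.2.tail.reverse).take i).reverse ++ (if r.2.2 = [] then
      (prun δ q₀ w m).2.2.tail.tail else (prun δ q₀ w m).2.2.tail)).length =
      i + (if r.2.2.length = 0 then (prun δ q₀ w m).2.2.length - 1 - 1
        else (prun δ q₀ w m).2.2.length - 1)
    rw [List.length_append, List.length_reverse, List.length_take, List.length_reverse,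
      List.length_tail, Nat.min_eq_left hi]
    by_cases hne : r.2.2 = []
    · rw [if_pos hne, if_pos (by rw [hne]; rfl), List.length_tail, List.length_tail]
    · rw [if_neg hne, if_neg (by rwa [List.length_eq_zero_iff]), List.length_tail]

/-- Piece DT-4. Within one move the stack of the untimed machine is monotone: it goes from
`H(m) - 1` to `H(m + 1) - 1` (`H` the height of the stack of the automaton; nonincreasing, with one
step, if the move is a pop). See `urun_usig`, `urun_mid`, and `trn7_phase` in `UMach.lean`. -/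
theorem ulen_move (δ : PDTrans α Q Γ k) (q₀ : Q) (F : Q → Bool) (w : List α) (hn : w.length = n)
    (hR : ∀ q v X, (δ q v X).2.2.length ≤ R) (m : ℕ)
    (hF : ∀ m' < m + 1, F (prun δ q₀ w m').1 ≠ true) (j : ℕ) (h1 : usig δ q₀ w m ≤ j)
    (h2 : j ≤ usig δ q₀ w (m + 1)) :
    (height δ q₀ w m ≤ height δ q₀ w (m + 1) →
      height δ q₀ w m - 1 ≤
        (urun (uact (n := n) (R := R) δ F w) (uinit Γ k n R q₀, []) j).2.length ∧
      (urun (uact (n := n) (R := R) δ F w) (uinit Γ k n R q₀, []) j).2.length ≤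
        height δ q₀ w (m + 1) - 1 ∧
      ∀ j', j ≤ j' → j' ≤ usig δ q₀ w (m + 1) →
        (urun (uact (n := n) (R := R) δ F w) (uinit Γ k n R q₀, []) j).2.length ≤
        (urun (uact (n := n) (R := R) δ F w) (uinit Γ k n R q₀, []) j').2.length) ∧
    (height δ q₀ w (m + 1) < height δ q₀ w m → usig δ q₀ w (m + 1) = usig δ q₀ w m + 1) ∧
    (urun (uact (n := n) (R := R) δ F w) (uinit Γ k n R q₀, []) (usig δ q₀ w m)).2.length =
      height δ q₀ w m - 1 := by
  have h0 := dt4_at (n := n) (R := R) δ q₀ F w hn hR m (fun m' hm' => hF m' (by omega))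
  obtain ⟨l, hl1, hl2, hl3⟩ := dt4_len (n := n) (R := R) δ q₀ F w hn hR m hF
  have key : ∀ i, usig δ q₀ w m ≤ i → i ≤ usig δ q₀ w (m + 1) → i ≠ usig δ q₀ w m →
      (urun (uact (n := n) (R := R) δ F w) (uinit Γ k n R q₀, []) i).2.length =
        (i - (usig δ q₀ w m + 1)) +
          (if l = 0 then height δ q₀ w m - 1 - 1 else height δ q₀ w m - 1) := by
    intro i h3 h4 h5
    obtain ⟨t, rfl⟩ : ∃ t, i = usig δ q₀ w m + 1 + t := ⟨i - (usig δ q₀ w m + 1), by omega⟩
    rw [hl3 t (by omega)]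
    congr 1
    omega
  have main : height δ q₀ w m ≤ height δ q₀ w (m + 1) → ∀ i, usig δ q₀ w m ≤ i →
      i ≤ usig δ q₀ w (m + 1) →
      (i = usig δ q₀ w m ∧
        (urun (uact (n := n) (R := R) δ F w) (uinit Γ k n R q₀, []) i).2.length =
          height δ q₀ w m - 1) ∨
      (i ≠ usig δ q₀ w m ∧
        (urun (uact (n := n) (R := R) δ F w) (uinit Γ k n R q₀, []) i).2.length =
          (i - (usig δ q₀ w m + 1)) + (height δ q₀ w m - 1)) := by
    intro hH i h3 h4
    by_cases h5 : i = usig δ q₀ w m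
    · left
      refine ⟨h5, ?_⟩
      rw [h5]
      exact h0
    · right
      refine ⟨h5, ?_⟩
      rw [key i h3 h4 h5]
      by_cases hl : l = 0
      · rw [if_pos hl]
        omega
      · rw [if_neg hl]
  refine ⟨fun hH => ?_, fun hH => ?_, h0⟩
  · have hj := main hH j h1 h2
    refine ⟨?_, ?_, ?_⟩
    · rcases hj with ⟨_, e⟩ | ⟨_, e⟩ <;> omega
    · rcases hj with ⟨_, e⟩ | ⟨_, e⟩ <;> omega
    · intro j' h3 h4
      have hj' := main hH j' (by omega) h4
      rcases hj with ⟨_, e⟩ | ⟨_, e⟩ <;> rcases hj' with ⟨_, e'⟩ | ⟨_, e'⟩ <;> omega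
  · omega

/-- The two kinds of moves. -/
private theorem dt4_cases (δ : PDTrans α Q Γ k) (q₀ : Q) (F : Q → Bool) (w : List α)
    (hn : w.length = n) (hR : ∀ q v X, (δ q v X).2.2.length ≤ R) (m : ℕ)
    (hF : ∀ m' < m + 1, F (prun δ q₀ w m').1 ≠ true) (j : ℕ) (h1 : usig δ q₀ w m ≤ j)
    (h2 : j ≤ usig δ q₀ w (m + 1)) :
    (height δ q₀ w m ≤ height δ q₀ w (m + 1) ∧
      height δ q₀ w m - 1 ≤
        (urun (uact (n := n) (R := R) δ F w) (uinit Γ k n R q₀, []) j).2.length ∧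
      (urun (uact (n := n) (R := R) δ F w) (uinit Γ k n R q₀, []) j).2.length ≤
        height δ q₀ w (m + 1) - 1 ∧
      ∀ j', j ≤ j' → j' ≤ usig δ q₀ w (m + 1) →
        (urun (uact (n := n) (R := R) δ F w) (uinit Γ k n R q₀, []) j).2.length ≤
        (urun (uact (n := n) (R := R) δ F w) (uinit Γ k n R q₀, []) j').2.length) ∨
    (height δ q₀ w (m + 1) < height δ q₀ w m ∧
      usig δ q₀ w (m + 1) = usig δ q₀ w m + 1 ∧
      ((j = usig δ q₀ w m ∧
        (urun (uact (n := n) (R := R) δ F w) (uinit Γ k n R q₀, []) j).2.length =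
          height δ q₀ w m - 1) ∨
      (j = usig δ q₀ w (m + 1) ∧
        (urun (uact (n := n) (R := R) δ F w) (uinit Γ k n R q₀, []) j).2.length =
          height δ q₀ w (m + 1) - 1))) := by
  obtain ⟨ha, hb, hc⟩ := ulen_move (n := n) (R := R) δ q₀ F w hn hR m hF j h1 h2
  rcases Nat.lt_or_ge (height δ q₀ w (m + 1)) (height δ q₀ w m) with hH | hH
  · right
    have hb' := hb hH
    refine ⟨hH, hb', ?_⟩
    rcases Nat.eq_or_lt_of_le h1 with h3 | h3
    · left
      refine ⟨h3.symm, ?_⟩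
      rw [← h3]
      exact hc
    · right
      have h4 : j = usig δ q₀ w (m + 1) := by omega
      refine ⟨h4, ?_⟩
      rw [h4]
      exact dt4_at (n := n) (R := R) δ q₀ F w hn hR (m + 1) hF
  · left
    exact ⟨hH, ha hH⟩

/-- Find the move of a time, closed on the right. -/
private theorem dt4_find (δ : PDTrans α Q Γ k) (q₀ : Q) (w : List α) (a b j : ℕ) (hab : a < b)
    (h1 : usig δ q₀ w a ≤ j) (h2 : j ≤ usig δ q₀ w b) :
    ∃ m, a ≤ m ∧ m < b ∧ usig δ q₀ w m ≤ j ∧ j ≤ usig δ q₀ w (m + 1) := by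
  rcases Nat.eq_or_lt_of_le h2 with h3 | h3
  · refine ⟨b - 1, by omega, by omega, ?_, ?_⟩
    · rw [h3]
      exact trn9_mono δ q₀ w (by omega)
    · rw [Nat.sub_add_cancel (by omega)]
      exact h2
  · obtain ⟨m, h4, h5, h6, h7⟩ := trn9_find δ q₀ w a b j h1 h3
    exact ⟨m, h4, h5, h6, h7.le⟩

/-- Piece DT-4. The pieces of the untimed machine (`T` is the first time with a state of `F`). -/
theorem u_noise (δ : PDTrans α Q Γ k) (q₀ : Q) (F : Q → Bool) (w : List α) (hn : w.length = n)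
    (hR : ∀ q v X, (δ q v X).2.2.length ≤ R) (T : ℕ)
    (hF : ∀ m' < T, F (prun δ q₀ w m').1 ≠ true) (a b h : ℕ) (hab : a ≤ b) (hbT : b ≤ T) :
    ((∀ m m', a ≤ m → m ≤ m' → m' ≤ b → height δ q₀ w m ≤ height δ q₀ w m' + h) →
      ∀ j j', usig δ q₀ w a ≤ j → j ≤ j' → j' ≤ usig δ q₀ w b →
        (urun (uact (n := n) (R := R) δ F w) (uinit Γ k n R q₀, []) j).2.length ≤
        (urun (uact (n := n) (R := R) δ F w) (uinit Γ k n R q₀, []) j').2.length + h) ∧
    ((∀ m m', a ≤ m → m ≤ m' → m' ≤ b → height δ q₀ w m' ≤ height δ q₀ w m + h) →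
      ∀ j j', usig δ q₀ w a ≤ j → j ≤ j' → j' ≤ usig δ q₀ w b →
        (urun (uact (n := n) (R := R) δ F w) (uinit Γ k n R q₀, []) j').2.length ≤
        (urun (uact (n := n) (R := R) δ F w) (uinit Γ k n R q₀, []) j).2.length + h) := by
  have hpos : ∀ j j', usig δ q₀ w a ≤ j → j ≤ j' → j' ≤ usig δ q₀ w b → j ≠ j' → a < b := by
    intro j j' h1 h2 h3 h4
    by_contra hcon
    have h5 : b = a := by omega
    rw [h5] at h3
    omega
  have hfind : ∀ j j', usig δ q₀ w a ≤ j → j ≤ j' → j' ≤ usig δ q₀ w b → j ≠ j' →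
      ∃ m m', a ≤ m ∧ m ≤ m' ∧ m' < b ∧ usig δ q₀ w m ≤ j ∧ j ≤ usig δ q₀ w (m + 1) ∧
        usig δ q₀ w m' ≤ j' ∧ j' ≤ usig δ q₀ w (m' + 1) := by
    intro j j' h1 h2 h3 h4
    obtain ⟨m, h5, h6, h7, h8⟩ := dt4_find δ q₀ w a b j (hpos j j' h1 h2 h3 h4) h1 (by omega)
    obtain ⟨m', h9, h10, h11, h12⟩ := dt4_find δ q₀ w m b j' h6 (by omega) h3
    exact ⟨m, m', h5, h9, h10, h7, h8, h11, h12⟩
  constructor
  · intro hH j j' h1 h2 h3
    by_cases hjj : j = j'
    · rw [hjj]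
      exact Nat.le_add_right _ _
    obtain ⟨m, m', g1, g2, g3, g4, g5, g6, g7⟩ := hfind j j' h1 h2 h3 hjj
    have c1 := dt4_cases (n := n) (R := R) δ q₀ F w hn hR m
      (fun x hx => hF x (by omega)) j g4 g5
    have c2 := dt4_cases (n := n) (R := R) δ q₀ F w hn hR m'
      (fun x hx => hF x (by omega)) j' g6 g7
    rcases Nat.eq_or_lt_of_le g2 with hmm | hmm
    · subst hmm
      have e1 := hH m (m + 1) g1 (by omega) (by omega)
      rcases c1 with ⟨_, _, _, c1⟩ | ⟨c1, c1', c1'' | c1''⟩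
      · exact (c1 j' h2 g7).trans (Nat.le_add_right _ _)
      · rcases c2 with ⟨c2, _⟩ | ⟨_, _, c2 | c2⟩
        · omega
        · omega
        · omega
      · omega
    · have e1 := hH m m' g1 (by omega) (by omega)
      have e2 := hH m (m' + 1) g1 (by omega) (by omega)
      have e3 := hH (m + 1) m' (by omega) (by omega) (by omega)
      have e4 := hH (m + 1) (m' + 1) (by omega) (by omega) (by omega)
      rcases c1 with ⟨_, _, c1, _⟩ | ⟨_, _, ⟨_, c1⟩ | ⟨_, c1⟩⟩ <;>
        rcases c2 with ⟨_, c2, _, _⟩ | ⟨_, _, ⟨_, c2⟩ | ⟨_, c2⟩⟩ <;> omega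
  · intro hH j j' h1 h2 h3
    by_cases hjj : j = j'
    · rw [hjj]
      exact Nat.le_add_right _ _
    obtain ⟨m, m', g1, g2, g3, g4, g5, g6, g7⟩ := hfind j j' h1 h2 h3 hjj
    have c1 := dt4_cases (n := n) (R := R) δ q₀ F w hn hR m
      (fun x hx => hF x (by omega)) j g4 g5
    have c2 := dt4_cases (n := n) (R := R) δ q₀ F w hn hR m'
      (fun x hx => hF x (by omega)) j' g6 g7
    rcases Nat.eq_or_lt_of_le g2 with hmm | hmm
    · subst hmm
      have e1 := hH m (m + 1) g1 (by omega) (by omega)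
      rcases c1 with ⟨_, c1, _, _⟩ | ⟨c1, c1', ⟨c3, c1''⟩ | ⟨c3, c1''⟩⟩ <;>
        rcases c2 with ⟨_, _, c2, _⟩ | ⟨_, _, ⟨_, c2⟩ | ⟨_, c2⟩⟩ <;> omega
    · have e1 := hH m m' g1 (by omega) (by omega)
      have e2 := hH m (m' + 1) g1 (by omega) (by omega)
      have e3 := hH (m + 1) m' (by omega) (by omega) (by omega)
      have e4 := hH (m + 1) (m' + 1) (by omega) (by omega) (by omega)
      rcases c1 with ⟨_, c1, _, _⟩ | ⟨_, _, ⟨_, c1⟩ | ⟨_, c1⟩⟩ <;>
        rcases c2 with ⟨_, _, c2, _⟩ | ⟨_, _, ⟨_, c2⟩ | ⟨_, c2⟩⟩ <;> omega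

end Pool.Agent.Helper17.TV
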